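import Pool.Agent.H3.GradedCover

/-!
# Right approximations by gradable modules

Helper file (helper3).
-/

namespace Pool.Agent.H3.Graded

universe u v w x

variable {A : Type u} [Ring A]

section decomp
variable {g : RG A} {M : Type v} [AddCommGroup M] [Module A M] {M₁ : Type w} [AddCommGroup M₁]
  [Module A M₁] {M₂ : Type x} [AddCommGroup M₂] [Module A M₂]

theorem MG.sum_superset (G : MG g M) (m : M) {s : Finset ℤ} (hs : ∀ j ∉ s, G.p j m = 0) :
    ∑ j ∈ s, G.p j m = m := by
  apply G.ext_p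
  intro k
  rw [map_sum]
  have : ∀ j ∈ s, G.p k (G.p j m) = if k = j then G.p j m else 0 := fun j _ => G.pp k j m
  rw [Finset.sum_congr rfl this, Finset.sum_ite_eq]
  split_ifs with h
  · rfl
  · rw [hs k h]

/-- grading of a direct sum -/
def MG.ofDecomp (G₁ : MG g M₁) (G₂ : MG g M₂) (i₁ : M₁ →ₗ[A] M) (i₂ : M₂ →ₗ[A] M)
    (r₁ : M →ₗ[A] M₁) (r₂ : M →ₗ[A] M₂) (h11 : ∀ x, r₁ (i₁ x) = x) (h22 : ∀ x, r₂ (i₂ x) = x)
    (h12 : ∀ x, r₁ (i₂ x) = 0) (h21 : ∀ x, r₂ (i₁ x) = 0)
    (hs : ∀ m, i₁ (r₁ m) + i₂ (r₂ m) = m) : MG g M where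
  p k := i₁.toAddMonoidHom.comp ((G₁.p k).comp r₁.toAddMonoidHom) +
    i₂.toAddMonoidHom.comp ((G₂.p k).comp r₂.toAddMonoidHom)
  pp i j m := by
    show i₁ (G₁.p i (r₁ (i₁ (G₁.p j (r₁ m)) + i₂ (G₂.p j (r₂ m))))) +
      i₂ (G₂.p i (r₂ (i₁ (G₁.p j (r₁ m)) + i₂ (G₂.p j (r₂ m))))) =
      if i = j then i₁ (G₁.p j (r₁ m)) + i₂ (G₂.p j (r₂ m)) else 0
    have e1 : r₁ (i₁ (G₁.p j (r₁ m)) + i₂ (G₂.p j (r₂ m))) = G₁.p j (r₁ m) := by
      rw [map_add, h11, h12, add_zero]
    have e2 : r₂ (i₁ (G₁.p j (r₁ m)) + i₂ (G₂.p j (r₂ m))) = G₂.p j (r₂ m) := by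
      rw [map_add, h21, h22, zero_add]
    rw [e1, e2, G₁.pp, G₂.pp]
    split_ifs
    · rfl
    · rw [map_zero, map_zero, add_zero]
  dec m := by
    classical
    obtain ⟨s₁, h1, _⟩ := G₁.dec (r₁ m)
    obtain ⟨s₂, h2, _⟩ := G₂.dec (r₂ m)
    refine ⟨s₁ ∪ s₂, ?_, ?_⟩
    · intro j hj
      rw [Finset.mem_union, not_or] at hj
      show i₁ (G₁.p j (r₁ m)) + i₂ (G₂.p j (r₂ m)) = 0
      rw [h1 j hj.1, h2 j hj.2, map_zero, map_zero, add_zero]
    · show ∑ j ∈ s₁ ∪ s₂, (i₁ (G₁.p j (r₁ m)) + i₂ (G₂.p j (r₂ m))) = m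
      rw [Finset.sum_add_distrib, ← map_sum, ← map_sum,
        G₁.sum_superset _ (fun j hj => h1 j (fun h => hj (Finset.mem_union_left _ h))),
        G₂.sum_superset _ (fun j hj => h2 j (fun h => hj (Finset.mem_union_right _ h))), hs]
  smul i j a m ha hm := by
    have hm' : i₁ (G₁.p j (r₁ m)) + i₂ (G₂.p j (r₂ m)) = m := hm
    have e1 : G₁.p j (r₁ m) = r₁ m := by
      have := congrArg r₁ hm'
      rwa [map_add, h11, h12, add_zero] at this
    have e2 : G₂.p j (r₂ m) = r₂ m := by
      have := congrArg r₂ hm'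
      rwa [map_add, h22, h21, zero_add] at this
    show i₁ (G₁.p (i + j) (r₁ (a • m))) + i₂ (G₂.p (i + j) (r₂ (a • m))) = a • m
    have e3 : r₁ (a • m) = a • r₁ m := r₁.map_smul a m
    have e4 : r₂ (a • m) = a • r₂ m := r₂.map_smul a m
    rw [e3, e4, G₁.smul i j a _ ha e1, G₂.smul i j a _ ha e2, i₁.map_smul, i₂.map_smul,
      ← smul_add, hs]

/-- transport of a grading -/
def MG.transport (G : MG g M₁) (e : M₁ ≃ₗ[A] M) : MG g M where
  p k := e.toLinearMap.toAddMonoidHom.comp ((G.p k).comp e.symm.toLinearMap.toAddMonoidHom)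
  pp i j m := by
    show e (G.p i (e.symm (e (G.p j (e.symm m))))) = if i = j then e (G.p j (e.symm m)) else 0
    rw [e.symm_apply_apply, G.pp]
    split_ifs
    · rfl
    · rw [map_zero]
  dec m := by
    obtain ⟨s, h1, h2⟩ := G.dec (e.symm m)
    refine ⟨s, ?_, ?_⟩
    · intro j hj
      show e (G.p j (e.symm m)) = 0
      rw [h1 j hj, map_zero]
    · show ∑ j ∈ s, e (G.p j (e.symm m)) = m
      rw [← map_sum, h2, e.apply_symm_apply]
  smul i j a m ha hm := by
    have hm' : e (G.p j (e.symm m)) = m := hm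
    have e1 : G.p j (e.symm m) = e.symm m := by
      rw [← hm', e.symm_apply_apply, G.p_self]
    show e (G.p (i + j) (e.symm (a • m))) = a • m
    have e3 : e.symm (a • m) = a • e.symm m := e.symm.map_smul a m
    rw [e3, G.smul i j a _ ha e1, e.map_smul, e.apply_symm_apply]

/-- a subsingleton is graded -/
def MG.ofSubsingleton (h : ∀ m : M, m = 0) : MG g M where
  p _ := 0
  pp i j m := by split_ifs <;> rfl
  dec m := ⟨∅, fun _ _ => rfl, by rw [h m]; rfl⟩
  smul i j a m _ _ := by rw [h (a • m)]; rfl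

/-- a graded finite length module over an artinian ring has a grading with finite support -/
theorem MG.exists_fg [IsArtinian A A] [IsArtinian A M] [IsNoetherian A M] (G : MG g M) :
    ∃ F : FG g M, F.toMG = G := by
  obtain ⟨s, hs⟩ := G.finite_support
  exact ⟨{ G with S := s, hS := hs }, rfl⟩

end decomp

section main

variable (f : FRG A) [IsArtinian A A]

theorem gradable_of_approx_indec {N : Type v} [AddCommGroup N] [Module A N] [IsArtinian A N]
    [IsNoetherian A N] (hN : Indec A N) {C : Type w} [AddCommGroup C] [Module A C]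
    [IsArtinian A C] [IsNoetherian A C] (G : MG f.toRG C) (φ : C →ₗ[A] N)
    (h : ∀ J : Finset ℤ, ∃ h : NT.U f J (N := N) →ₗ[A] C, ∀ x, φ (h x) = NT.sumMap f J x) :
    Nonempty (MG f.toRG N) := by
  classical
  obtain ⟨F, hF⟩ := G.exists_fg
  let D : Finset ℤ := Finset.image₂ (fun a b => a - b) F.S F.S
  let J : Finset ℤ := insert 0 (Finset.image₂ (fun a b => a - b) D (insert 0 f.S))
  have hJ0 : (0 : ℤ) ∈ J := Finset.mem_insert_self _ _
  have hJ1 : ∀ l ∈ F.S, ∀ i ∈ F.S, l - i ∈ J := by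
    intro l hl i hi
    apply Finset.mem_insert_of_mem
    refine Finset.mem_image₂.2 ⟨l - i, Finset.mem_image₂.2 ⟨l, hl, i, hi, rfl⟩, 0,
      Finset.mem_insert_self _ _, by ring⟩
  have hJ2 : ∀ l ∈ F.S, ∀ i ∈ F.S, ∀ k ∈ f.S, l - i - k ∈ J := by
    intro l hl i hi k hk
    apply Finset.mem_insert_of_mem
    exact Finset.mem_image₂.2 ⟨l - i, Finset.mem_image₂.2 ⟨l, hl, i, hi, rfl⟩, k,
      Finset.mem_insert_of_mem hk, rfl⟩
  obtain ⟨h, hφ⟩ := h J
  let t : ℤ → N →+ C := fun j =>
    if hj : j ∈ J then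
      { toFun := fun n => h ⟨NT.mono f j n, NT.mono_mem f J hj n⟩
        map_zero' := by
          have : (⟨NT.mono f j 0, NT.mono_mem f J hj 0⟩ : NT.U f J (N := N)) = 0 :=
            Subtype.ext (map_zero _)
          rw [this, map_zero]
        map_add' := by
          intro x y
          rw [← map_add]
          congr 1
          exact Subtype.ext (map_add _ _ _) }
    else 0
  have ht : ∀ j (hj : j ∈ J) n, t j n = h ⟨NT.mono f j n, NT.mono_mem f J hj n⟩ := by
    intro j hj n
    show (dite _ _ _ : N →+ C) n = _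
    rw [dif_pos hj]
    rfl
  have hφt : ∀ j ∈ J, ∀ n, φ (t j n) = n := by
    intro j hj n
    rw [ht j hj, hφ, NT.sumMap_mono f J hj]
  have hta : ∀ (i : ℤ) (a : A), f.q i a = a → ∀ j ∈ J, j - i ∈ J → ∀ n, t j (a • n) = a • t (j - i) n := by
    intro i a ha j hj hji n
    rw [ht j hj, ht _ hji, ← map_smul]
    congr 1
    apply Subtype.ext
    show NT.mono f j (a • n) = a • NT.mono f (j - i) n
    rw [NT.smul_mono_hom f ha, show j - i + i = j by ring]
  -- the maps `G_i`
  let Gadd : ℤ → N →+ C := fun i => ∑ l ∈ F.S, (F.p l).comp (t (l - i))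
  have hGapp : ∀ i n, Gadd i n = ∑ l ∈ F.S, F.p l (t (l - i) n) := by
    intro i n
    show (∑ l ∈ F.S, (F.p l).comp (t (l - i)) : N →+ C) n = _
    rw [AddMonoidHom.finsetSum_apply]
    rfl
  have hGp : ∀ i m n, F.p m (Gadd i n) = F.p m (t (m - i) n) := by
    intro i m n
    rw [hGapp, map_sum]
    have h1 : ∀ l ∈ F.S, F.p m (F.p l (t (l - i) n)) =
        if m = l then F.p l (t (l - i) n) else 0 := fun l _ => F.pp m l _
    rw [Finset.sum_congr rfl h1, Finset.sum_ite_eq]
    split_ifs with hm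
    · rfl
    · rw [F.hS m hm]
  have hGlin : ∀ i ∈ F.S, ∀ (a : A) n, Gadd i (a • n) = a • Gadd i n := by
    intro i hi
    apply MG.lin_of_hom f.toRG
    intro k a ha n
    apply F.toMG.ext_p
    intro m
    rw [F.p_smul ha, hGp, hGp]
    by_cases hk : k ∈ f.S
    · by_cases hm : m ∈ F.S
      · rw [hta k a ha _ (hJ1 m hm i hi) (hJ2 m hm i hi k hk), F.p_smul ha,
          show m - i - k = m - k - i by ring]
      · rw [F.hS m hm]
        by_cases hmk : m - k ∈ F.S
        · rw [F.smul_p_eq ha, show m - k + k = m by ring, F.hS m hm]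
        · rw [F.hS _ hmk, smul_zero]
    · have ha0 : a = 0 := by rw [← ha, f.hS k hk]
      rw [ha0, zero_smul, zero_smul, map_zero, map_zero]
  let Gl : F.S → N →ₗ[A] C := fun i =>
    { toFun := Gadd i.1
      map_add' := map_add _
      map_smul' := hGlin i.1 i.2 }
  let Φ : (F.S → C) →ₗ[A] N := ∑ i, φ ∘ₗ LinearMap.proj i
  let Γ : N →ₗ[A] (F.S → C) := LinearMap.pi Gl
  have hΦ : ∀ c, Φ c = ∑ i, φ (c i) := by
    intro c
    show (∑ i, φ ∘ₗ LinearMap.proj i : (F.S → C) →ₗ[A] N) c = _
    rw [LinearMap.sum_apply]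
    rfl
  have hmain : ∀ n, Φ ((F.pi F.S).p 0 (Γ n)) = n := by
    intro n
    rw [hΦ]
    have h1 : ∀ i : F.S, φ ((F.pi F.S).p 0 (Γ n) i) = φ (F.p (0 + i.1) (t 0 n)) := by
      intro i
      show φ (F.p (0 + i.1) (Gadd i.1 n)) = _
      rw [hGp, show 0 + i.1 - i.1 = 0 by ring]
    rw [Finset.sum_congr rfl (fun i _ => h1 i), FG.pi_sum_eq F φ, hφt 0 hJ0]
  obtain ⟨W, hW, _, _, _, _, hbij⟩ := FG.exists_graded_iso (F.pi F.S) hN Φ Γ hmain
  exact ⟨((F.pi F.S).sub W hW).toMG.transport (LinearEquiv.ofBijective _ hbij)⟩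

/-- the core form of the approximation theorem -/
theorem gradable_of_approx {N : Type v} [AddCommGroup N] [Module A N] [IsArtinian A N]
    [IsNoetherian A N] {C : Type w} [AddCommGroup C] [Module A C]
    [IsArtinian A C] [IsNoetherian A C] (G : MG f.toRG C) (φ : C →ₗ[A] N)
    (happ : ∀ (C' : Type v) [AddCommGroup C'] [Module A C'], Module.Finite A C' →
      Nonempty (MG f.toRG C') → ∀ r : C' →ₗ[A] N, ∃ h : C' →ₗ[A] C, φ ∘ₗ h = r) :
    Nonempty (MG f.toRG N) := by
  have hall : ∀ W : Submodule A N, (∃ π : N →ₗ[A] W, ∀ w : W, π w = w) →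
      Nonempty (MG f.toRG W) := by
    intro W
    induction W using (IsWellFounded.wf : WellFounded ((· < ·) :
        Submodule A N → Submodule A N → Prop)).induction with
    | _ W ih =>
    rintro ⟨π, hπ⟩
    by_cases hb : ∀ m : W, m = 0
    · exact ⟨MG.ofSubsingleton hb⟩
    · push Not at hb
      by_cases hind : ∀ e : W →ₗ[A] W, e ∘ₗ e = e → e = 0 ∨ e = 1
      · refine gradable_of_approx_indec f ⟨hb, hind⟩ G (π ∘ₗ φ) ?_
        intro J
        obtain ⟨h, hh⟩ := happ (NT.U f J (N := W)) (NT.finite_U f J) ⟨NT.UG f J⟩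
          (W.subtype ∘ₗ NT.sumMap f J)
        refine ⟨h, fun x => ?_⟩
        have h1 : φ (h x) = ((NT.sumMap (N := W) f J x : W) : N) := LinearMap.congr_fun hh x
        show π (φ (h x)) = _
        rw [h1, hπ]
      · push Not at hind
        obtain ⟨e, hee, he0, he1⟩ := hind
        have hee' : ∀ w, e (e w) = e w := LinearMap.congr_fun hee
        -- for an idempotent `d ≠ 1` of `W`, the image is gradable
        have key : ∀ d : W →ₗ[A] W, (∀ w, d (d w) = d w) → (d ≠ 1) →
            Nonempty (MG f.toRG (LinearMap.range d)) := by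
          intro d hd hd1
          have hlt : (LinearMap.range d).map W.subtype < W := by
            refine lt_of_le_of_ne (Submodule.map_subtype_le W _) ?_
            intro heq
            apply hd1
            ext w
            have hw : (w : N) ∈ (LinearMap.range d).map W.subtype := by rw [heq]; exact w.2
            obtain ⟨_, ⟨w', rfl⟩, hw'⟩ := hw
            have h3 : d w' = w := Subtype.ext hw'
            rw [← h3, hd]
            rfl
          let E : LinearMap.range d ≃ₗ[A] (LinearMap.range d).map W.subtype :=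
            Submodule.equivMapOfInjective W.subtype W.injective_subtype _
          obtain ⟨H⟩ := ih _ hlt ⟨E.toLinearMap ∘ₗ (LinearMap.rangeRestrict d) ∘ₗ π, by
            intro w
            obtain ⟨y, rfl⟩ := E.surjective w
            show E (LinearMap.rangeRestrict d (π (E y : N))) = E y
            congr 1
            have h4 : ((E y : (LinearMap.range d).map W.subtype) : N) = ((y : W) : N) := rfl
            rw [h4, hπ]
            apply Subtype.ext
            obtain ⟨_, z, rfl⟩ := y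
            exact hd z⟩
          exact ⟨H.transport E.symm⟩
        obtain ⟨H1⟩ := key e hee' he1
        obtain ⟨H2⟩ := key (1 - e : Module.End A W) (by
          intro w
          show (w - e w) - e (w - e w) = w - e w
          rw [map_sub, hee', sub_self, sub_zero]) (by
          intro h
          apply he0
          have : (1 : Module.End A W) - e = 1 - 0 := by rw [h, sub_zero]
          exact sub_right_injective this)
        refine ⟨MG.ofDecomp H1 H2 (LinearMap.range e).subtype
          (LinearMap.range (1 - e : Module.End A W)).subtype e.rangeRestrict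
          (LinearMap.rangeRestrict (1 - e : Module.End A W)) ?_ ?_ ?_ ?_ ?_⟩
        · rintro ⟨_, z, rfl⟩
          exact Subtype.ext (hee' z)
        · rintro ⟨_, z, rfl⟩
          apply Subtype.ext
          show (z - e z) - e (z - e z) = z - e z
          rw [map_sub, hee', sub_self, sub_zero]
        · rintro ⟨_, z, rfl⟩
          apply Subtype.ext
          show e (z - e z) = 0
          rw [map_sub, hee', sub_self]
        · rintro ⟨_, z, rfl⟩
          apply Subtype.ext
          show e z - e (e z) = 0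
          rw [hee', sub_self]
        · intro m
          show e m + (m - e m) = m
          abel
  obtain ⟨H⟩ := hall ⊤ ⟨LinearMap.codRestrict ⊤ LinearMap.id (fun _ => trivial), fun w => rfl⟩
  exact ⟨H.transport Submodule.topEquiv⟩

end main

end Pool.Agent.H3.Graded
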