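import Mathlib

/-!
# Gradings by projections, homogeneous components of module maps

Helper file (helper3): `ℤ`-gradings of a ring and of modules over it, described by the families of
projections on the homogeneous components.
-/

namespace Pool.Agent.H3.Graded

universe u v w

/-- A `ℤ`-grading of a ring, given by the projections. -/
structure RG (A : Type u) [Ring A] where
  q : ℤ → A →+ A
  qq : ∀ i j a, q i (q j a) = if i = j then q j a else 0
  dec : ∀ a, ∃ s : Finset ℤ, (∀ j ∉ s, q j a = 0) ∧ ∑ j ∈ s, q j a = a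
  mul : ∀ i j a b, q i a = a → q j b = b → q (i + j) (a * b) = a * b
  one : q 0 1 = 1

/-- A `ℤ`-grading of a module over a graded ring, given by the projections. -/
structure MG {A : Type u} [Ring A] (g : RG A) (M : Type v) [AddCommGroup M] [Module A M] where
  p : ℤ → M →+ M
  pp : ∀ i j m, p i (p j m) = if i = j then p j m else 0
  dec : ∀ m, ∃ s : Finset ℤ, (∀ j ∉ s, p j m = 0) ∧ ∑ j ∈ s, p j m = m
  smul : ∀ i j a m, g.q i a = a → p j m = m → p (i + j) (a • m) = a • m

/-- A grading with finite support. -/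
structure FG {A : Type u} [Ring A] (g : RG A) (M : Type v) [AddCommGroup M] [Module A M]
    extends MG g M where
  S : Finset ℤ
  hS : ∀ j ∉ S, ∀ m, p j m = 0

variable {A : Type u} [Ring A] {g : RG A}

namespace RG

theorem q_self (g : RG A) (k : ℤ) (a : A) : g.q k (g.q k a) = g.q k a := by
  rw [g.qq, if_pos rfl]

end RG

namespace MG

section
variable {M : Type v} [AddCommGroup M] [Module A M] (G : MG g M)

theorem eq_zero_of {z : M} (hz : ∀ k, G.p k z = 0) : z = 0 := by
  obtain ⟨s, _, hs⟩ := G.dec z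
  rw [← hs]
  exact Finset.sum_eq_zero (fun j _ => hz j)

theorem ext_p {x y : M} (h : ∀ k, G.p k x = G.p k y) : x = y := by
  rw [← sub_eq_zero]
  apply G.eq_zero_of
  intro k
  rw [map_sub, h, sub_self]

theorem p_self (k : ℤ) (m : M) : G.p k (G.p k m) = G.p k m := by rw [G.pp, if_pos rfl]

theorem p_ne {i k : ℤ} (h : i ≠ k) (m : M) : G.p i (G.p k m) = 0 := by rw [G.pp, if_neg h]

theorem p_smul {i : ℤ} {a : A} (ha : g.q i a = a) (k : ℤ) (m : M) :
    G.p k (a • m) = a • G.p (k - i) m := by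
  obtain ⟨s, hs0, hs⟩ := G.dec m
  have h1 : ∀ j, G.p k (a • G.p j m) = if j = k - i then a • G.p j m else 0 := by
    intro j
    have h2 := G.smul i j a (G.p j m) ha (G.p_self j m)
    by_cases hj : j = k - i
    · rw [if_pos hj]
      have h3 : i + j = k := by rw [hj]; ring
      rw [h3] at h2
      exact h2
    · rw [if_neg hj, ← h2]
      apply G.p_ne
      intro h3
      apply hj
      rw [h3]; ring
  calc G.p k (a • m) = G.p k (a • ∑ j ∈ s, G.p j m) := by rw [hs]
    _ = ∑ j ∈ s, G.p k (a • G.p j m) := by rw [Finset.smul_sum, map_sum]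
    _ = ∑ j ∈ s, (if j = k - i then a • G.p j m else 0) :=
        Finset.sum_congr rfl (fun j _ => h1 j)
    _ = if k - i ∈ s then a • G.p (k - i) m else 0 := by
        rw [Finset.sum_ite_eq']
    _ = a • G.p (k - i) m := by
        split_ifs with h
        · rfl
        · rw [hs0 _ h, smul_zero]

theorem lin_of_hom {M' : Type w} [AddCommGroup M'] [Module A M'] (g : RG A) (F : M →+ M')
    (h : ∀ i a, g.q i a = a → ∀ m, F (a • m) = a • F m) (a : A) (m : M) :
    F (a • m) = a • F m := by
  obtain ⟨s, _, hs⟩ := g.dec a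
  calc F (a • m) = F ((∑ j ∈ s, g.q j a) • m) := by rw [hs]
    _ = ∑ j ∈ s, F (g.q j a • m) := by rw [Finset.sum_smul, map_sum]
    _ = ∑ j ∈ s, g.q j a • F m := Finset.sum_congr rfl (fun j _ => h j _ (g.q_self j a) m)
    _ = a • F m := by rw [← Finset.sum_smul, hs]

theorem smul_p_eq {i : ℤ} {a : A} (ha : g.q i a = a) (k : ℤ) (m : M) :
    a • G.p k m = G.p (k + i) (a • m) := by
  rw [G.p_smul ha, show k + i - i = k by ring]

end

/-- graded maps (of degree zero) -/
def IsGr {M : Type v} [AddCommGroup M] [Module A M] {M' : Type w} [AddCommGroup M'] [Module A M']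
    (G : MG g M) (G' : MG g M') (φ : M →ₗ[A] M') : Prop :=
  ∀ k m, G'.p k (φ m) = φ (G.p k m)

end MG

namespace FG

variable {M : Type v} [AddCommGroup M] [Module A M] (F : FG g M)

theorem sum_p (m : M) : ∑ j ∈ F.S, F.p j m = m := by
  apply F.toMG.ext_p
  intro k
  rw [map_sum]
  have : ∀ j ∈ F.S, F.p k (F.p j m) = if k = j then F.p j m else 0 := fun j _ => F.pp k j m
  rw [Finset.sum_congr rfl this, Finset.sum_ite_eq]
  split_ifs with h
  · rfl
  · rw [F.hS k h]

variable {M' : Type w} [AddCommGroup M'] [Module A M'] (G' : MG g M')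

/-- additive version of the component of degree `d` -/
def compAdd (d : ℤ) (φ : M →ₗ[A] M') : M →+ M' :=
  ∑ j ∈ F.S, (G'.p (j + d)).comp ((φ : M →+ M').comp (F.p j))

theorem compAdd_apply (d : ℤ) (φ : M →ₗ[A] M') (m : M) :
    F.compAdd G' d φ m = ∑ j ∈ F.S, G'.p (j + d) (φ (F.p j m)) := by
  unfold compAdd
  rw [AddMonoidHom.finsetSum_apply]
  rfl

theorem p_compAdd (d : ℤ) (φ : M →ₗ[A] M') (k : ℤ) (m : M) :
    G'.p k (F.compAdd G' d φ m) = G'.p k (φ (F.p (k - d) m)) := by
  rw [compAdd_apply, map_sum]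
  have h1 : ∀ j ∈ F.S, G'.p k (G'.p (j + d) (φ (F.p j m))) =
      if j = k - d then G'.p k (φ (F.p j m)) else 0 := by
    intro j _
    by_cases hj : j = k - d
    · rw [if_pos hj]
      have : j + d = k := by rw [hj]; ring
      rw [this, G'.p_self]
    · rw [if_neg hj]
      apply G'.p_ne
      intro h
      apply hj
      rw [h]; ring
  rw [Finset.sum_congr rfl h1, Finset.sum_ite_eq']
  split_ifs with h
  · rfl
  · rw [F.hS _ h, map_zero, map_zero]

/-- the homogeneous component of degree `d` of a module map -/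
def comp (d : ℤ) (φ : M →ₗ[A] M') : M →ₗ[A] M' where
  toFun := F.compAdd G' d φ
  map_add' := map_add _
  map_smul' := by
    intro a m
    show F.compAdd G' d φ (a • m) = a • F.compAdd G' d φ m
    apply MG.lin_of_hom g
    intro i a ha m
    apply G'.ext_p
    intro k
    rw [p_compAdd, G'.p_smul ha, p_compAdd, F.p_smul ha, map_smul, G'.p_smul ha,
      show k - d - i = k - i - d by ring]

theorem p_comp (d : ℤ) (φ : M →ₗ[A] M') (k : ℤ) (m : M) :
    G'.p k (F.comp G' d φ m) = G'.p k (φ (F.p (k - d) m)) := F.p_compAdd G' d φ k m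

theorem comp_p (d : ℤ) (φ : M →ₗ[A] M') (k : ℤ) (m : M) :
    F.comp G' d φ (F.p k m) = G'.p (k + d) (F.comp G' d φ m) := by
  apply G'.ext_p
  intro l
  rw [p_comp, F.pp, G'.pp, p_comp]
  by_cases h : l - d = k
  · have h' : l = k + d := by rw [← h]; ring
    rw [if_pos h, if_pos h', h', show k + d - d = k by ring]
  · have h' : ¬ l = k + d := fun h' => h (by rw [h']; ring)
    rw [if_neg h, if_neg h', map_zero, map_zero]

theorem p_comp_p (d : ℤ) (φ : M →ₗ[A] M') (k : ℤ) (m : M) :
    G'.p (k + d) (F.comp G' d φ (F.p k m)) = F.comp G' d φ (F.p k m) := by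
  rw [comp_p, G'.p_self]

theorem comp_eq_of {d : ℤ} {φ ψ : M →ₗ[A] M'}
    (h : ∀ k m, G'.p k (ψ m) = G'.p k (φ (F.p (k - d) m))) : F.comp G' d φ = ψ := by
  ext m
  apply G'.ext_p
  intro k
  rw [p_comp, h]

theorem comp_zero_gr (φ : M →ₗ[A] M') : MG.IsGr F.toMG G' (F.comp G' 0 φ) := by
  intro k m
  rw [comp_p, add_zero]

theorem comp_zero_of_gr {φ : M →ₗ[A] M'} (h : MG.IsGr F.toMG G' φ) : F.comp G' 0 φ = φ := by
  apply comp_eq_of
  intro k m
  rw [h, h, sub_zero, F.p_self]

end FG

/-! ### Submodules and powers -/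

namespace FG

section sub
variable {M : Type v} [AddCommGroup M] [Module A M] (F : FG g M)

/-- restriction of a grading to a graded submodule -/
def sub (W : Submodule A M) (hW : ∀ k, ∀ m ∈ W, F.p k m ∈ W) : FG g W where
  p k :=
    { toFun := fun m => ⟨F.p k m.1, hW k m.1 m.2⟩
      map_zero' := Subtype.ext (map_zero _)
      map_add' := fun x y => Subtype.ext (map_add _ _ _) }
  pp i j m := by
    apply Subtype.ext
    show F.p i (F.p j m.1) = _
    rw [F.pp]
    split_ifs <;> rfl
  dec m := by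
    refine ⟨F.S, fun j hj => Subtype.ext (F.hS j hj m.1), ?_⟩
    apply Subtype.ext
    have h := F.sum_p m.1
    rw [AddSubmonoidClass.coe_finsetSum]
    exact h
  smul i j a m ha hm := by
    apply Subtype.ext
    exact F.smul i j a m.1 ha (congrArg Subtype.val hm)
  S := F.S
  hS j hj m := Subtype.ext (F.hS j hj m.1)

theorem sub_p (W : Submodule A M) (hW : ∀ k, ∀ m ∈ W, F.p k m ∈ W) (k : ℤ) (m : W) :
    (((F.sub W hW).p k m : W) : M) = F.p k m.1 := rfl

/-- shift of a finite set of degrees -/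
def shiftSet (S I : Finset ℤ) : Finset ℤ := Finset.image₂ (fun s i => s - i) S I

/-- the direct sum of the shifts by the elements of `I` -/
def pi (I : Finset ℤ) : FG g (I → M) where
  p k :=
    { toFun := fun c i => F.p (k + i.1) (c i)
      map_zero' := by funext i; exact map_zero _
      map_add' := fun x y => by funext i; exact map_add _ _ _ }
  pp i j c := by
    funext l
    show F.p (i + l.1) (F.p (j + l.1) (c l)) = _
    rw [F.pp]
    by_cases h : i = j
    · rw [if_pos h, if_pos (by rw [h])]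
      rfl
    · rw [if_neg h, if_neg (by intro h'; exact h (by omega))]
      rfl
  dec c := by
    have h0 : ∀ j ∉ shiftSet F.S I, (fun l : I => F.p (j + l.1) (c l)) = 0 := by
      intro j hj
      funext l
      apply F.hS
      intro h
      apply hj
      unfold shiftSet
      rw [Finset.mem_image₂]
      exact ⟨j + l.1, h, l.1, l.2, by ring⟩
    refine ⟨shiftSet F.S I, h0, ?_⟩
    funext l
    rw [Finset.sum_apply]
    show ∑ j ∈ shiftSet F.S I, F.p (j + l.1) (c l) = c l
    apply F.toMG.ext_p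
    intro k
    rw [map_sum]
    have h1 : ∀ j ∈ shiftSet F.S I, F.p k (F.p (j + l.1) (c l)) =
        if j = k - l.1 then F.p k (c l) else 0 := by
      intro j _
      by_cases hj : j = k - l.1
      · rw [if_pos hj, hj, show k - l.1 + l.1 = k by ring, F.p_self]
      · rw [if_neg hj]
        apply F.p_ne
        intro h
        exact hj (by rw [h]; ring)
    rw [Finset.sum_congr rfl h1, Finset.sum_ite_eq']
    split_ifs with h
    · rfl
    · symm
      apply F.hS
      intro h'
      apply h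
      unfold shiftSet
      rw [Finset.mem_image₂]
      exact ⟨k, h', l.1, l.2, rfl⟩
  smul i j a c ha hc := by
    funext l
    show F.p (i + j + l.1) (a • c l) = a • c l
    have h1 : F.p (j + l.1) (c l) = c l := congrFun hc l
    have h2 := F.smul i (j + l.1) a (c l) ha h1
    rw [show i + j + l.1 = i + (j + l.1) by ring]
    exact h2
  S := shiftSet F.S I
  hS j hj c := by
    funext l
    apply F.hS
    intro h
    apply hj
    unfold shiftSet
    rw [Finset.mem_image₂]
    exact ⟨j + l.1, h, l.1, l.2, by ring⟩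

theorem pi_p (I : Finset ℤ) (k : ℤ) (c : I → M) (i : I) :
    (F.pi I).p k c i = F.p (k + i.1) (c i) := rfl

end sub

/-! ### Graded indecomposable modules -/

section indec
variable {V : Type v} [AddCommGroup V] [Module A V]

theorem isGr_comp {M' : Type w} [AddCommGroup M'] [Module A M'] {M'' : Type*} [AddCommGroup M'']
    [Module A M''] {G : MG g V} {G' : MG g M'} {G'' : MG g M''} {φ : M' →ₗ[A] M''}
    {ψ : V →ₗ[A] M'} (h : MG.IsGr G' G'' φ) (h' : MG.IsGr G G' ψ) :
    MG.IsGr G G'' (φ ∘ₗ ψ) := by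
  intro k m
  rw [LinearMap.comp_apply, h, h', LinearMap.comp_apply]

theorem isGr_pow {φ : V →ₗ[A] V} {G : MG g V} (h : MG.IsGr G G φ) (n : ℕ) :
    MG.IsGr G G (φ ^ n) := by
  induction n with
  | zero => intro k m; rfl
  | succ n ih =>
    rw [pow_succ]
    exact isGr_comp ih h

theorem isGr_symm {M' : Type w} [AddCommGroup M'] [Module A M'] {G : MG g V} {G' : MG g M'}
    (e : V ≃ₗ[A] M') (h : MG.IsGr G G' e.toLinearMap) : MG.IsGr G' G e.symm.toLinearMap := by
  intro k m
  have := h k (e.symm m)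
  have h2 : G'.p k (e (e.symm m)) = e (G.p k (e.symm m)) := this
  rw [LinearEquiv.apply_symm_apply] at h2
  show G.p k (e.symm m) = e.symm (G'.p k m)
  rw [h2, LinearEquiv.symm_apply_apply]

/-- graded indecomposable -/
def GrIndec (F : FG g V) : Prop :=
  (∃ m : V, m ≠ 0) ∧ ∀ e : V →ₗ[A] V, MG.IsGr F.toMG F.toMG e → e ∘ₗ e = e → e = 0 ∨ e = 1

/-- graded Fitting decomposition -/
theorem exists_fitting [IsArtinian A V] [IsNoetherian A V] (F : FG g V) {φ : V →ₗ[A] V}
    (h : MG.IsGr F.toMG F.toMG φ) :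
    ∃ (n : ℕ) (W : Submodule A V) (hW : ∀ k, ∀ m ∈ W, F.p k m ∈ W) (ρ : V →ₗ[A] W),
      (∀ w, w ∈ W ↔ ∃ v, (φ ^ n) v = w) ∧ MG.IsGr F.toMG (F.sub W hW).toMG ρ ∧
      (∀ w : W, ρ (φ w) = w) ∧ (∀ w : W, φ w ∈ W) := by
  obtain ⟨n, hn⟩ := Filter.eventually_atTop.1 (LinearMap.eventually_isCompl_ker_pow_range_pow φ)
  obtain ⟨N, hc, hN⟩ : ∃ N, IsCompl (LinearMap.ker (φ ^ N)) (LinearMap.range (φ ^ N)) ∧
      ∃ N', N = N' + 1 := ⟨n + 1, hn (n + 1) (by omega), n, rfl⟩
  have hgr := isGr_pow h N
  have hW : ∀ k, ∀ m ∈ LinearMap.range (φ ^ N), F.p k m ∈ LinearMap.range (φ ^ N) := by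
    rintro k _ ⟨y, rfl⟩
    exact ⟨F.p k y, (hgr k y).symm⟩
  have hmap : ∀ x ∈ LinearMap.range (φ ^ N), φ x ∈ LinearMap.range (φ ^ N) := by
    rintro _ ⟨y, rfl⟩
    refine ⟨φ y, ?_⟩
    rw [← Module.End.mul_apply, ← Module.End.mul_apply, ← pow_succ, ← pow_succ']
  let φW : LinearMap.range (φ ^ N) →ₗ[A] LinearMap.range (φ ^ N) := φ.restrict hmap
  have hinj : Function.Injective φW := by
    rw [← LinearMap.ker_eq_bot, LinearMap.ker_eq_bot']
    intro w hw
    have h1 : φ w.1 = 0 := congrArg Subtype.val hw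
    have h2 : w.1 ∈ LinearMap.ker (φ ^ N) := by
      obtain ⟨N', hN'⟩ := hN
      have h4 : ∀ x : V, φ x = 0 → (φ ^ N) x = 0 := by
        intro x hx
        rw [hN', pow_succ, Module.End.mul_apply, hx, map_zero]
      exact h4 _ h1
    exact Subtype.ext (Submodule.disjoint_def.1 hc.disjoint w.1 h2 w.2)
  have hbij := IsArtinian.bijective_of_injective_endomorphism φW hinj
  let e : LinearMap.range (φ ^ N) ≃ₗ[A] LinearMap.range (φ ^ N) :=
    LinearEquiv.ofBijective φW hbij
  have hφW : MG.IsGr (F.sub _ hW).toMG (F.sub _ hW).toMG φW := by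
    intro k m
    apply Subtype.ext
    exact h k m.1
  have he : MG.IsGr (F.sub _ hW).toMG (F.sub _ hW).toMG e.symm.toLinearMap :=
    isGr_symm e (by intro k m; exact hφW k m)
  have hbase : MG.IsGr F.toMG (F.sub _ hW).toMG (LinearMap.rangeRestrict (φ ^ N)) := by
    intro k m
    apply Subtype.ext
    exact hgr k m
  have h1 : ∀ m (w : LinearMap.range (φ ^ N)),
      (e.symm.toLinearMap ^ m) ((φW ^ m) w) = w := by
    intro m
    induction m with
    | zero => intro w; rfl
    | succ m ih =>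
      intro w
      rw [pow_succ e.symm.toLinearMap m, Module.End.mul_apply, pow_succ' φW m,
        Module.End.mul_apply]
      have : e.symm.toLinearMap (φW ((φW ^ m) w)) = (φW ^ m) w := e.symm_apply_apply _
      rw [this, ih]
  have h3 : ∀ m (w : LinearMap.range (φ ^ N)),
      (((φW ^ m) w : LinearMap.range (φ ^ N)) : V) = (φ ^ m) w.1 := by
    intro m w
    induction m with
    | zero => rfl
    | succ m ih =>
      rw [pow_succ' φW m, Module.End.mul_apply, pow_succ' φ m, Module.End.mul_apply, ← ih]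
      rfl
  refine ⟨N, LinearMap.range (φ ^ N), hW,
    (e.symm.toLinearMap ^ (N + 1)) ∘ₗ LinearMap.rangeRestrict (φ ^ N), ?_, ?_, ?_, ?_⟩
  · intro w
    exact LinearMap.mem_range
  · exact isGr_comp (isGr_pow he _) hbase
  · intro w
    have h2 : LinearMap.rangeRestrict (φ ^ N) (φ w.1) = (φW ^ (N + 1)) w := by
      apply Subtype.ext
      rw [h3]
      show (φ ^ N) (φ w.1) = _
      rw [← Module.End.mul_apply, ← pow_succ]
    rw [LinearMap.comp_apply, h2, h1]
  · intro w
    exact hmap w.1 w.2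

/-- a graded endomorphism of a graded indecomposable module is bijective or nilpotent -/
theorem GrIndec.bij_or_nil [IsArtinian A V] [IsNoetherian A V] {F : FG g V} (hF : GrIndec F)
    {φ : V →ₗ[A] V} (h : MG.IsGr F.toMG F.toMG φ) :
    Function.Bijective φ ∨ ∃ n, φ ^ n = 0 := by
  obtain ⟨n, W, hW, ρ, hmem, hρ, hρφ, hφW⟩ := exists_fitting F h
  -- idempotent
  have hinv : ∀ m (w : W), (φ ^ m) w.1 ∈ W := by
    intro m w
    induction m with
    | zero => exact w.2
    | succ m ih =>
      rw [pow_succ', Module.End.mul_apply]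
      exact hφW ⟨_, ih⟩
  let σ : V →ₗ[A] V := W.subtype ∘ₗ ρ
  have hσφ : ∀ w ∈ W, σ (φ w) = w := fun w hw => congrArg Subtype.val (hρφ ⟨w, hw⟩)
  have hσW : ∀ v, σ v ∈ W := fun v => (ρ v).2
  have hσgr : MG.IsGr F.toMG F.toMG σ := by
    intro k m
    exact congrArg Subtype.val (hρ k m)
  have hσn : ∀ m, ∀ w ∈ W, (σ ^ m) ((φ ^ m) w) = w := by
    intro m
    induction m with
    | zero => intro w _; rfl
    | succ m ih =>
      intro w hw
      rw [pow_succ, Module.End.mul_apply, pow_succ', Module.End.mul_apply,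
        hσφ _ (hinv m ⟨w, hw⟩), ih w hw]
  have hσWn : ∀ m, ∀ w ∈ W, (σ ^ m) w ∈ W := by
    intro m
    induction m with
    | zero => intro w hw; exact hw
    | succ m ih =>
      intro w hw
      rw [pow_succ', Module.End.mul_apply]
      exact hσW _
  let π : V →ₗ[A] V := (σ ^ n) ∘ₗ (φ ^ n)
  have hπW : ∀ v, π v ∈ W := fun v => hσWn n _ ((hmem _).2 ⟨v, rfl⟩)
  have hπid : ∀ w ∈ W, π w = w := fun w hw => hσn n w hw
  have hπgr : MG.IsGr F.toMG F.toMG π := isGr_comp (isGr_pow hσgr n) (isGr_pow h n)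
  have hππ : π ∘ₗ π = π := by
    ext v
    exact hπid _ (hπW v)
  rcases hF.2 π hπgr hππ with h0 | h1
  · right
    refine ⟨n, ?_⟩
    ext v
    have h2 : (φ ^ n) v ∈ W := (hmem _).2 ⟨v, rfl⟩
    have h3 := hπid _ h2
    rw [h0] at h3
    exact h3.symm
  · left
    have hsurj : Function.Surjective φ := by
      intro v
      have h2 : v ∈ W := by
        have := hπW v
        rwa [h1] at this
      cases n with
      | zero =>
        -- W = everything, φ injective on W
        have hinj : Function.Injective φ := by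
          intro x y hxy
          have hx : x ∈ W := (hmem _).2 ⟨x, rfl⟩
          have hy : y ∈ W := (hmem _).2 ⟨y, rfl⟩
          rw [← hσφ x hx, ← hσφ y hy, hxy]
        exact (IsArtinian.bijective_of_injective_endomorphism φ hinj).2 v
      | succ n =>
        obtain ⟨u, hu⟩ := (hmem _).1 h2
        refine ⟨(φ ^ n) u, ?_⟩
        rw [← Module.End.mul_apply, ← pow_succ', hu]
    have hinj : Function.Injective φ := by
      intro x y hxy
      have hx : x ∈ W := by
        have := hπW x
        rwa [h1] at this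
      have hy : y ∈ W := by
        have := hπW y
        rwa [h1] at this
      rw [← hσφ x hx, ← hσφ y hy, hxy]
    exact ⟨hinj, hsurj⟩

end indec

/-! ### Multiplicativity of bijectivity of the degree zero component -/

section mult
variable {V : Type v} [AddCommGroup V] [Module A V]

theorem isGr_add {M' : Type w} [AddCommGroup M'] [Module A M'] {G : MG g V} {G' : MG g M'}
    {φ ψ : V →ₗ[A] M'} (h : MG.IsGr G G' φ) (h' : MG.IsGr G G' ψ) : MG.IsGr G G' (φ + ψ) := by
  intro k m
  rw [LinearMap.add_apply, map_add, h, h', LinearMap.add_apply]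

theorem isGr_sum {ι : Type*} {M' : Type w} [AddCommGroup M'] [Module A M'] {G : MG g V}
    {G' : MG g M'} (s : Finset ι) {φ : ι → V →ₗ[A] M'} (h : ∀ i ∈ s, MG.IsGr G G' (φ i)) :
    MG.IsGr G G' (∑ i ∈ s, φ i) := by
  intro k m
  rw [LinearMap.sum_apply, map_sum, LinearMap.sum_apply]
  exact Finset.sum_congr rfl (fun i hi => h i hi k m)

theorem GrIndec.bij_of_add [IsArtinian A V] [IsNoetherian A V] {F : FG g V} (hF : GrIndec F)
    {φ ψ : V →ₗ[A] V} (h : MG.IsGr F.toMG F.toMG φ) (h' : MG.IsGr F.toMG F.toMG ψ)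
    (hb : Function.Bijective (φ + ψ)) : Function.Bijective φ ∨ Function.Bijective ψ := by
  let e := LinearEquiv.ofBijective (φ + ψ) hb
  have he : MG.IsGr F.toMG F.toMG e.symm.toLinearMap :=
    isGr_symm e (isGr_add h h')
  have h1 : MG.IsGr F.toMG F.toMG (e.symm.toLinearMap ∘ₗ φ) := isGr_comp he h
  rcases hF.bij_or_nil h1 with hb1 | ⟨n, hn⟩
  · left
    have : (φ : V → V) = e ∘ (e.symm.toLinearMap ∘ₗ φ) := by
      funext x
      exact (e.apply_symm_apply _).symm
    rw [this]
    exact e.bijective.comp hb1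
  · right
    have h2 : IsUnit (1 - (e.symm.toLinearMap ∘ₗ φ : Module.End A V)) :=
      IsNilpotent.isUnit_one_sub ⟨n, hn⟩
    have h3 : (1 - (e.symm.toLinearMap ∘ₗ φ : Module.End A V)) = e.symm.toLinearMap ∘ₗ ψ := by
      ext x
      have : e.symm (φ x + ψ x) = x := e.symm_apply_apply x
      show x - e.symm (φ x) = e.symm (ψ x)
      rw [map_add] at this
      exact sub_eq_of_eq_add' this.symm
    rw [h3] at h2
    have hb2 : Function.Bijective (e.symm.toLinearMap ∘ₗ ψ) := (Module.End.isUnit_iff _).1 h2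
    have : (ψ : V → V) = e ∘ (e.symm.toLinearMap ∘ₗ ψ) := by
      funext x
      exact (e.apply_symm_apply _).symm
    rw [this]
    exact e.bijective.comp hb2

theorem GrIndec.not_bij_zero {F : FG g V} (hF : GrIndec F) :
    ¬ Function.Bijective (0 : V →ₗ[A] V) := by
  intro h
  obtain ⟨m, hm⟩ := hF.1
  exact hm (h.1 rfl)

theorem GrIndec.bij_of_sum [IsArtinian A V] [IsNoetherian A V] {F : FG g V} (hF : GrIndec F)
    {ι : Type*} (s : Finset ι) {φ : ι → V →ₗ[A] V} (h : ∀ i ∈ s, MG.IsGr F.toMG F.toMG (φ i))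
    (hb : Function.Bijective (∑ i ∈ s, φ i : V →ₗ[A] V)) :
    ∃ i ∈ s, Function.Bijective (φ i) := by
  classical
  induction s using Finset.induction_on with
  | empty => exact absurd hb hF.not_bij_zero
  | insert a s ha ih =>
    rw [Finset.sum_insert ha] at hb
    rcases hF.bij_of_add (h a (Finset.mem_insert_self _ _))
      (isGr_sum s (fun i hi => h i (Finset.mem_insert_of_mem hi))) hb with h1 | h1
    · exact ⟨a, Finset.mem_insert_self _ _, h1⟩
    · obtain ⟨i, hi, hbi⟩ := ih (fun i hi => h i (Finset.mem_insert_of_mem hi)) h1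
      exact ⟨i, Finset.mem_insert_of_mem hi, hbi⟩

/-- a map of degree `d ≠ 0` is not injective -/
theorem GrIndec.not_inj_shift {F : FG g V} (hF : GrIndec F) {d : ℤ} (hd : d ≠ 0)
    {φ : V →ₗ[A] V} (h : ∀ k m, φ (F.p k m) = F.p (k + d) (φ m)) :
    ¬ Function.Injective φ := by
  intro hinj
  obtain ⟨m, hm⟩ := hF.1
  have hne : ∃ k ∈ F.S, F.p k m ≠ 0 := by
    by_contra hcon
    push Not at hcon
    apply hm
    rw [← F.sum_p m]
    exact Finset.sum_eq_zero hcon
  obtain ⟨k, hk, hkm⟩ := hne
  have hpow : ∀ n : ℕ, ∃ x : V, F.p (k + n * d) x ≠ 0 := by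
    intro n
    induction n with
    | zero => exact ⟨m, by simpa using hkm⟩
    | succ n ih =>
      obtain ⟨x, hx⟩ := ih
      refine ⟨φ x, ?_⟩
      have : F.p (k + n * d + d) (φ x) ≠ 0 := by
        rw [← h]
        intro h0
        exact hx (hinj (h0.trans (map_zero φ).symm))
      have e : k + (n : ℤ) * d + d = k + ((n + 1 : ℕ) : ℤ) * d := by push_cast; ring
      rwa [e] at this
  have hmem : ∀ n : ℕ, k + n * d ∈ F.S := by
    intro n
    by_contra hcon
    obtain ⟨x, hx⟩ := hpow n
    exact hx (F.hS _ hcon x)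
  have hinj2 : Function.Injective (fun n : ℕ => k + (n : ℤ) * d) := by
    intro a b hab
    have : (a : ℤ) * d = b * d := by simpa using hab
    have := mul_right_cancel₀ hd this
    exact_mod_cast this
  have : Set.Infinite (Set.range (fun n : ℕ => k + (n : ℤ) * d)) := Set.infinite_range_of_injective hinj2
  apply this
  apply Set.Finite.subset F.S.finite_toSet
  rintro _ ⟨n, rfl⟩
  exact hmem n

/-- the set of differences of the support -/
def diffs (F : FG g V) : Finset ℤ := Finset.image₂ (fun a b => a - b) F.S F.S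

theorem comp_zero_mul (F : FG g V) {M' : Type w} [AddCommGroup M'] [Module A M']
    (F' : FG g M') (x : M' →ₗ[A] V) (y : V →ₗ[A] M') (D : Finset ℤ)
    (hD : ∀ k ∈ F.S, ∀ j ∈ F'.S, k - j ∈ D) :
    F.comp F.toMG 0 (x ∘ₗ y) = ∑ d ∈ D, F'.comp F.toMG d x ∘ₗ F.comp F'.toMG (-d) y := by
  apply comp_eq_of
  intro k m
  rw [LinearMap.sum_apply, map_sum, sub_zero, LinearMap.comp_apply]
  have h1 : ∀ d ∈ D, F.p k ((F'.comp F.toMG d x ∘ₗ F.comp F'.toMG (-d) y) m) =
      F.p k (x (F'.p (k - d) (y (F.p k m)))) := by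
    intro d _
    rw [LinearMap.comp_apply, p_comp, p_comp, show k - d - -d = k by ring]
  rw [Finset.sum_congr rfl h1]
  by_cases hk : k ∈ F.S
  · rw [← map_sum, ← map_sum]
    congr 2
    apply F'.toMG.ext_p
    intro l
    rw [map_sum]
    have h2 : ∀ d ∈ D, F'.p l (F'.p (k - d) (y (F.p k m))) =
        if d = k - l then F'.p l (y (F.p k m)) else 0 := by
      intro d _
      by_cases hd : d = k - l
      · rw [if_pos hd, hd, show k - (k - l) = l by ring, F'.p_self]
      · rw [if_neg hd]
        apply F'.p_ne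
        intro h
        exact hd (by rw [h]; ring)
    rw [Finset.sum_congr rfl h2, Finset.sum_ite_eq']
    split_ifs with h
    · rfl
    · symm
      apply F'.hS
      intro hl
      exact h (hD k hk l hl)
  · rw [F.hS k hk (x (y (F.p k m)))]
    exact Finset.sum_eq_zero (fun d _ => F.hS k hk _)

theorem GrIndec.bij_comp_zero [IsArtinian A V] [IsNoetherian A V] {F : FG g V}
    (hF : GrIndec F) (x y : V →ₗ[A] V) :
    Function.Bijective (F.comp F.toMG 0 (x ∘ₗ y)) ↔
      Function.Bijective (F.comp F.toMG 0 x) ∧ Function.Bijective (F.comp F.toMG 0 y) := by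
  classical
  let D : Finset ℤ := insert 0 (diffs F)
  have hD : ∀ k ∈ F.S, ∀ j ∈ F.S, k - j ∈ D := by
    intro k hk j hj
    apply Finset.mem_insert_of_mem
    exact Finset.mem_image₂.2 ⟨k, hk, j, hj, rfl⟩
  have hsum := comp_zero_mul F F x y D hD
  have h0 : (0 : ℤ) ∈ D := Finset.mem_insert_self _ _
  rw [← Finset.add_sum_erase _ _ h0] at hsum
  have hgr : ∀ d, MG.IsGr F.toMG F.toMG (F.comp F.toMG d x ∘ₗ F.comp F.toMG (-d) y) := by
    intro d k m
    rw [LinearMap.comp_apply, LinearMap.comp_apply, comp_p, comp_p, show k + -d + d = k by ring]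
  have hnb : ¬ Function.Bijective
      (∑ d ∈ D.erase 0, F.comp F.toMG d x ∘ₗ F.comp F.toMG (-d) y : V →ₗ[A] V) := by
    intro hb
    obtain ⟨d, hd, hbd⟩ := hF.bij_of_sum _ (fun d _ => hgr d) hb
    have hd0 : d ≠ 0 := (Finset.mem_erase.1 hd).1
    have hinj : Function.Injective (F.comp F.toMG (-d) y) := by
      have := hbd.1
      rw [LinearMap.coe_comp] at this
      exact this.of_comp
    exact hF.not_inj_shift (neg_ne_zero.2 hd0) (fun k m => F.comp_p F.toMG (-d) y k m) hinj
  have hgs : MG.IsGr F.toMG F.toMG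
      (∑ d ∈ D.erase 0, F.comp F.toMG d x ∘ₗ F.comp F.toMG (-d) y : V →ₗ[A] V) :=
    isGr_sum _ (fun d _ => hgr d)
  rw [hsum]
  constructor
  · intro hb
    rcases hF.bij_of_add (hgr 0) hgs hb with h1 | h1
    · rw [neg_zero, LinearMap.coe_comp] at h1
      have hinj : Function.Injective (F.comp F.toMG 0 y) := h1.1.of_comp
      have hby := IsArtinian.bijective_of_injective_endomorphism _ hinj
      have hsx : Function.Surjective (F.comp F.toMG 0 x) := h1.2.of_comp
      refine ⟨?_, hby⟩
      exact (Function.Bijective.of_comp_iff _ hby).1 h1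
    · exact absurd h1 hnb
  · rintro ⟨hx, hy⟩
    by_contra hcon
    have h1 : Function.Bijective
        (F.comp F.toMG 0 x ∘ₗ F.comp F.toMG (-0) y : V →ₗ[A] V) := by
      rw [neg_zero, LinearMap.coe_comp]
      exact hx.comp hy
    have h2 : (F.comp F.toMG 0 x ∘ₗ F.comp F.toMG (-0) y : V →ₗ[A] V) =
        (F.comp F.toMG 0 x ∘ₗ F.comp F.toMG (-0) y +
          ∑ d ∈ D.erase 0, F.comp F.toMG d x ∘ₗ F.comp F.toMG (-d) y) +
        (-∑ d ∈ D.erase 0, F.comp F.toMG d x ∘ₗ F.comp F.toMG (-d) y) := by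
      rw [add_neg_cancel_right]
    rw [h2] at h1
    have hgneg : MG.IsGr F.toMG F.toMG
        (-∑ d ∈ D.erase 0, F.comp F.toMG d x ∘ₗ F.comp F.toMG (-d) y : V →ₗ[A] V) := by
      intro k m
      rw [LinearMap.neg_apply, map_neg, hgs, LinearMap.neg_apply]
    rcases hF.bij_of_add (isGr_add (hgr 0) hgs) hgneg h1 with h3 | h3
    · exact hcon h3
    · apply hnb
      have h4 : (fun z : V => -z) ∘ ((-∑ d ∈ D.erase 0,
          F.comp F.toMG d x ∘ₗ F.comp F.toMG (-d) y : V →ₗ[A] V) : V → V) =
          ((∑ d ∈ D.erase 0, F.comp F.toMG d x ∘ₗ F.comp F.toMG (-d) y : V →ₗ[A] V) : V → V) := by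
        funext z
        simp
      rw [← h4]
      exact (Equiv.neg V).bijective.comp h3

end mult

end FG

end Pool.Agent.H3.Graded
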