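import Pool.Agent.H3.GradedBasic

/-!
# Finite support

Helper file (helper3): a graded module of finite length over a left artinian `ℤ`-graded ring has
finite support.
-/

namespace Pool.Agent.H3.Graded

universe u v w

variable {A : Type u} [Ring A] {g : RG A}

namespace MG

section
variable {M : Type v} [AddCommGroup M] [Module A M] (G : MG g M)

/-- restriction to a graded submodule -/
def sub (W : Submodule A M) (hW : ∀ k, ∀ m ∈ W, G.p k m ∈ W) : MG g W where
  p k :=
    { toFun := fun m => ⟨G.p k m.1, hW k m.1 m.2⟩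
      map_zero' := Subtype.ext (map_zero _)
      map_add' := fun x y => Subtype.ext (map_add _ _ _) }
  pp i j m := by
    apply Subtype.ext
    show G.p i (G.p j m.1) = _
    rw [G.pp]
    split_ifs <;> rfl
  dec m := by
    obtain ⟨s, h0, h1⟩ := G.dec m.1
    refine ⟨s, fun j hj => Subtype.ext (h0 j hj), ?_⟩
    apply Subtype.ext
    rw [AddSubmonoidClass.coe_finsetSum]
    exact h1
  smul i j a m ha hm := by
    apply Subtype.ext
    exact G.smul i j a m.1 ha (congrArg Subtype.val hm)

/-- projections on a quotient -/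
def quotP (W : Submodule A M) (hW : ∀ k, ∀ m ∈ W, G.p k m ∈ W) (k : ℤ) : (M ⧸ W) →+ (M ⧸ W) :=
  QuotientAddGroup.lift W.toAddSubgroup ((W.mkQ.toAddMonoidHom).comp (G.p k)) (by
    intro m hm
    show W.mkQ (G.p k m) = 0
    rw [Submodule.mkQ_apply, Submodule.Quotient.mk_eq_zero]
    exact hW k m hm)

theorem quotP_mk (W : Submodule A M) (hW : ∀ k, ∀ m ∈ W, G.p k m ∈ W) (k : ℤ) (m : M) :
    G.quotP W hW k (Submodule.Quotient.mk m) = Submodule.Quotient.mk (G.p k m) := rfl

/-- grading of a quotient -/
def quot (W : Submodule A M) (hW : ∀ k, ∀ m ∈ W, G.p k m ∈ W) : MG g (M ⧸ W) where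
  p k := G.quotP W hW k
  pp i j m := by
    induction m using Submodule.Quotient.induction_on with
    | H m =>
      rw [quotP_mk, quotP_mk, G.pp]
      split_ifs <;> rfl
  dec m := by
    induction m using Submodule.Quotient.induction_on with
    | H m =>
      obtain ⟨s, h0, h1⟩ := G.dec m
      refine ⟨s, fun j hj => by rw [quotP_mk, h0 j hj]; rfl, ?_⟩
      simp only [quotP_mk]
      rw [← Submodule.mkQ_apply, ← h1]
      simp only [← Submodule.mkQ_apply]
      rw [map_sum, h1]
  smul i j a m ha hm := by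
    induction m using Submodule.Quotient.induction_on with
    | H m =>
      have h1 : (Submodule.Quotient.mk m : M ⧸ W) = Submodule.Quotient.mk (G.p j m) := hm.symm
      rw [h1, ← Submodule.Quotient.mk_smul, quotP_mk,
        G.smul i j a (G.p j m) ha (G.p_self j m)]

theorem p_smul_hom {δ : ℤ} {x : M} (hx : G.p δ x = x) (a : A) (l : ℤ) :
    G.p l (a • x) = g.q (l - δ) a • x := by
  obtain ⟨s, h0, h1⟩ := g.dec a
  have h2 : ∀ i ∈ s, G.p l (g.q i a • x) = if i = l - δ then g.q i a • x else 0 := by
    intro i _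
    rw [G.p_smul (g.q_self i a)]
    by_cases hi : i = l - δ
    · rw [if_pos hi, show l - i = δ by rw [hi]; ring, hx]
    · rw [if_neg hi, ← hx, G.p_ne, smul_zero]
      intro h
      exact hi (by rw [← h]; ring)
  calc G.p l (a • x) = G.p l ((∑ i ∈ s, g.q i a) • x) := by rw [h1]
    _ = ∑ i ∈ s, G.p l (g.q i a • x) := by rw [Finset.sum_smul, map_sum]
    _ = ∑ i ∈ s, (if i = l - δ then g.q i a • x else 0) := Finset.sum_congr rfl h2
    _ = g.q (l - δ) a • x := by
      rw [Finset.sum_ite_eq']
      split_ifs with h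
      · rfl
      · rw [h0 _ h, zero_smul]

end

/-- graded simple (or zero) -/
def GrSimple {S : Type v} [AddCommGroup S] [Module A S] (G : MG g S) : Prop :=
  ∀ K : Submodule A S, (∀ k, ∀ m ∈ K, G.p k m ∈ K) → K = ⊥ ∨ K = ⊤

section simple
variable {S : Type v} [AddCommGroup S] [Module A S] [IsArtinian A S] {G : MG g S}

/-- a finite nonempty set of integers has an element `j` with all `k * d ≤ j * d`. -/
theorem exists_extreme {z : S} (hz : z ≠ 0) (G : MG g S) (d : ℤ) :
    ∃ j, G.p j z ≠ 0 ∧ ∀ k, G.p k z ≠ 0 → k * d ≤ j * d := by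
  classical
  obtain ⟨s, h0, h1⟩ := G.dec z
  let D := s.filter (fun j => G.p j z ≠ 0)
  have hD : ∀ k, G.p k z ≠ 0 → k ∈ D := by
    intro k hk
    refine Finset.mem_filter.2 ⟨?_, hk⟩
    by_contra hks
    exact hk (h0 k hks)
  have hne : D.Nonempty := by
    by_contra hcon
    rw [Finset.not_nonempty_iff_eq_empty] at hcon
    apply hz
    apply G.eq_zero_of
    intro k
    by_contra hk
    have := hD k hk
    rw [hcon] at this
    exact absurd this (Finset.notMem_empty _)
  obtain ⟨j, hj, hmax⟩ := Finset.exists_max_image D (fun j => j * d) hne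
  exact ⟨j, (Finset.mem_filter.1 hj).2, fun k hk => hmax k (hD k hk)⟩

theorem GrSimple.shift_zero (hS : GrSimple G) {d : ℤ} (hd : d ≠ 0) (θ : S →ₗ[A] S)
    (hθ : ∀ k m, θ (G.p k m) = G.p (k + d) (θ m)) : θ = 0 := by
  have hdd : 0 < d * d := mul_self_pos.2 hd
  rcases hS (LinearMap.ker θ) (by
    intro k m hm
    rw [LinearMap.mem_ker] at hm ⊢
    rw [hθ, hm, map_zero]) with hk | hk
  · have hinj : Function.Injective θ := LinearMap.ker_eq_bot.1 hk
    have hinj1 : Function.Injective (1 - θ : Module.End A S) := by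
      rw [← LinearMap.ker_eq_bot, LinearMap.ker_eq_bot']
      intro m hm
      have hm1 : m - θ m = 0 := hm
      have hm2 : m = θ m := sub_eq_zero.1 hm1
      by_contra hne
      obtain ⟨j, hj, hmax⟩ := exists_extreme hne G d
      have h1 : G.p (j + d) m ≠ 0 := by
        rw [hm2, ← hθ]
        intro h0
        exact hj (hinj (h0.trans (map_zero θ).symm))
      have := hmax _ h1
      nlinarith
    have hsurj := (IsArtinian.bijective_of_injective_endomorphism _ hinj1).2
    by_contra hθ0
    have hex : ∃ x : S, x ≠ 0 := by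
      by_contra hcon
      push Not at hcon
      apply hθ0
      ext m
      exact hcon _
    obtain ⟨x0, hx0⟩ := hex
    obtain ⟨k, hk0, _⟩ := exists_extreme hx0 G d
    obtain ⟨z, hz⟩ := hsurj (G.p k x0)
    have hz1 : z - θ z = G.p k x0 := hz
    have hzne : z ≠ 0 := by
      rintro rfl
      apply hk0
      rw [← hz1, map_zero, sub_zero]
    obtain ⟨j, hj, hmax⟩ := exists_extreme hzne G d
    obtain ⟨j', hj', hmin⟩ := exists_extreme hzne G (-d)
    have e1 : G.p (j + d) z = 0 := by
      by_contra hcon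
      have := hmax _ hcon
      nlinarith
    have e2 : G.p (j' - d) z = 0 := by
      by_contra hcon
      have := hmin _ hcon
      nlinarith
    have f1 : G.p (j + d) (G.p k x0) ≠ 0 := by
      rw [← hz1, map_sub, e1, ← hθ, zero_sub]
      intro h0
      exact hj (hinj ((neg_eq_zero.1 h0).trans (map_zero θ).symm))
    have f2 : G.p j' (G.p k x0) ≠ 0 := by
      have e3 : G.p j' (θ z) = 0 := by
        have := hθ (j' - d) z
        rw [show j' - d + d = j' by ring, e2, map_zero] at this
        exact this.symm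
      rw [← hz1, map_sub, e3, sub_zero]
      exact hj'
    have g1 : j + d = k := by
      by_contra hcon
      exact f1 (G.p_ne hcon _)
    have g2 : j' = k := by
      by_contra hcon
      exact f2 (G.p_ne hcon _)
    have := hmax j' hj'
    rw [g2, ← g1] at this
    nlinarith
  · exact LinearMap.ker_eq_top.1 hk

/-- annihilator of a finite set of elements -/
def annih (X : Finset (ℤ × S)) : Submodule A A :=
  ⨅ x ∈ X, LinearMap.ker (LinearMap.toSpanSingleton A S x.2)

theorem mem_annih {X : Finset (ℤ × S)} {a : A} : a ∈ annih X ↔ ∀ x ∈ X, a • x.2 = 0 := by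
  unfold annih
  simp only [Submodule.mem_iInf, LinearMap.mem_ker, LinearMap.toSpanSingleton_apply]

theorem annih_hom {X : Finset (ℤ × S)} (hX : ∀ x ∈ X, G.p x.1 x.2 = x.2) {a : A}
    (ha : a ∈ annih X) (k : ℤ) : g.q k a ∈ annih X := by
  rw [mem_annih] at ha ⊢
  intro x hx
  have := G.p_smul_hom (hX x hx) a (k + x.1)
  rw [show k + x.1 - x.1 = k by ring, ha x hx, map_zero] at this
  exact this.symm

theorem GrSimple.eq_zero_of_annih (hS : GrSimple G) (X : Finset (ℤ × S)) :
    (∀ x ∈ X, G.p x.1 x.2 = x.2) → ∀ (k : ℤ), (∀ x ∈ X, k ≠ x.1) → ∀ s : S, G.p k s = s →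
      (∀ a ∈ annih (A := A) X, a • s = 0) → s = 0 := by
  classical
  induction X using Finset.induction_on with
  | empty =>
    intro _ k _ s _ h
    have := h 1 (by rw [mem_annih]; intro x hx; exact absurd hx (Finset.notMem_empty _))
    rwa [one_smul] at this
  | insert x X hx ih =>
    intro hX k hk s hs h
    have hX' : ∀ y ∈ X, G.p y.1 y.2 = y.2 := fun y hy => hX y (Finset.mem_insert_of_mem hy)
    have hxx := hX x (Finset.mem_insert_self _ _)
    apply ih hX' k (fun y hy => hk y (Finset.mem_insert_of_mem hy)) s hs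
    rcases hS ((annih X).map (LinearMap.toSpanSingleton A S x.2)) (by
      rintro l _ ⟨a, ha, rfl⟩
      rw [LinearMap.toSpanSingleton_apply, G.p_smul_hom hxx]
      exact ⟨_, annih_hom hX' ha _, rfl⟩) with hT | hT
    · intro a ha
      apply h a
      rw [mem_annih]
      intro y hy
      rcases Finset.mem_insert.1 hy with rfl | hy
      · have : a • y.2 ∈ (annih X).map (LinearMap.toSpanSingleton A S y.2) := ⟨a, ha, rfl⟩
        rw [hT] at this
        exact (Submodule.mem_bot A).1 this
      · exact (mem_annih.1 ha) y hy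
    · let gm : annih (A := A) X →ₗ[A] S := (LinearMap.toSpanSingleton A S x.2).domRestrict _
      let fm : annih (A := A) X →ₗ[A] S := (LinearMap.toSpanSingleton A S s).domRestrict _
      have hsurj : Function.Surjective gm := by
        intro y
        have hy : y ∈ (annih X).map (LinearMap.toSpanSingleton A S x.2) := by rw [hT]; trivial
        obtain ⟨a, ha, hay⟩ := hy
        exact ⟨⟨a, ha⟩, hay⟩
      have hker : LinearMap.ker gm ≤ LinearMap.ker fm := by
        intro a ha
        rw [LinearMap.mem_ker] at ha ⊢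
        apply h a.1
        rw [mem_annih]
        intro y hy
        rcases Finset.mem_insert.1 hy with rfl | hy
        · exact ha
        · exact (mem_annih.1 a.2) y hy
      let θ : S →ₗ[A] S := ((LinearMap.ker gm).liftQ fm hker) ∘ₗ
        (gm.quotKerEquivOfSurjective hsurj).symm.toLinearMap
      have hθ : ∀ a, θ (gm a) = fm a := by
        intro a
        have : (gm.quotKerEquivOfSurjective hsurj).symm (gm a) = Submodule.Quotient.mk a := by
          rw [LinearEquiv.symm_apply_eq]
          rfl
        show (LinearMap.ker gm).liftQ fm hker ((gm.quotKerEquivOfSurjective hsurj).symm (gm a)) = _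
        rw [this, Submodule.liftQ_apply]
      have hd : k - x.1 ≠ 0 := sub_ne_zero.2 (hk x (Finset.mem_insert_self _ _))
      have hθ0 := hS.shift_zero hd θ (by
        intro l m
        obtain ⟨a, rfl⟩ := hsurj m
        rw [hθ]
        have e1 : G.p l (gm a) = gm ⟨g.q (l - x.1) a.1, annih_hom hX' a.2 _⟩ :=
          G.p_smul_hom hxx a.1 l
        have e2 : G.p (l + (k - x.1)) (fm a) = g.q (l - x.1) a.1 • s := by
          have := G.p_smul_hom hs a.1 (l + (k - x.1))
          rw [show l + (k - x.1) - k = l - x.1 by ring] at this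
          exact this
        rw [e1, hθ, e2]
        rfl)
      intro a ha
      have := hθ ⟨a, ha⟩
      rw [hθ0, LinearMap.zero_apply] at this
      exact this.symm

theorem GrSimple.support [IsArtinian A A] (hS : GrSimple G) :
    ∃ s : Finset ℤ, ∀ j ∉ s, ∀ m, G.p j m = 0 := by
  classical
  let 𝒞 : Set (Submodule A A) := {I | ∃ X : Finset (ℤ × S), (∀ x ∈ X, G.p x.1 x.2 = x.2) ∧
    annih X = I}
  obtain ⟨I, ⟨X, hX, rfl⟩, hmin⟩ := IsArtinian.set_has_minimal 𝒞
    ⟨annih ∅, ∅, fun x hx => absurd hx (Finset.notMem_empty _), rfl⟩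
  refine ⟨X.image Prod.fst, fun j hj m => ?_⟩
  apply hS.eq_zero_of_annih X hX j (fun x hx hjx => hj (Finset.mem_image.2 ⟨x, hx, hjx.symm⟩))
    _ (G.p_self j m)
  intro a ha
  by_contra hne
  apply hmin (annih (insert (j, G.p j m) X))
    ⟨insert (j, G.p j m) X, by
      intro x hx
      rcases Finset.mem_insert.1 hx with rfl | hx
      · exact G.p_self j m
      · exact hX x hx, rfl⟩
  refine lt_of_le_of_ne ?_ ?_
  · intro b hb
    rw [mem_annih] at hb ⊢
    exact fun x hx => hb x (Finset.mem_insert_of_mem hx)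
  · intro heq
    rw [← heq, mem_annih] at ha
    exact hne (ha _ (Finset.mem_insert_self _ _))

end simple

section main
variable {M : Type v} [AddCommGroup M] [Module A M] [IsArtinian A M] [IsNoetherian A M]

/-- a graded module of finite length over a left artinian graded ring has finite support -/
theorem finite_support [IsArtinian A A] (G : MG g M) :
    ∃ s : Finset ℤ, ∀ j ∉ s, ∀ m, G.p j m = 0 := by
  classical
  let 𝒯 : Set (Submodule A M) := {K | (∀ k, ∀ m ∈ K, G.p k m ∈ K) ∧
    ∃ s : Finset ℤ, ∀ j ∉ s, ∀ m ∈ K, G.p j m = 0}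
  obtain ⟨K, ⟨hK, s0, hs0⟩, hmax⟩ := (set_has_maximal_iff_noetherian.2
    (inferInstance : IsNoetherian A M)) 𝒯 ⟨⊥, by
      refine ⟨?_, ∅, ?_⟩
      · intro k m hm
        rw [Submodule.mem_bot] at hm ⊢
        rw [hm, map_zero]
      · intro j _ m hm
        rw [Submodule.mem_bot] at hm
        rw [hm, map_zero]⟩
  by_cases htop : K = ⊤
  · refine ⟨s0, fun j hj m => hs0 j hj m ?_⟩
    rw [htop]; trivial
  · exfalso
    let 𝒰 : Set (Submodule A M) := {L | K < L ∧ ∀ k, ∀ m ∈ L, G.p k m ∈ L}
    obtain ⟨L, ⟨hKL, hL⟩, hmin⟩ := IsArtinian.set_has_minimal 𝒰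
      ⟨⊤, lt_top_iff_ne_top.2 htop, fun _ _ _ => trivial⟩
    let HL := G.sub L hL
    let K' : Submodule A L := K.comap L.subtype
    have hK' : ∀ k, ∀ m ∈ K', HL.p k m ∈ K' := fun k m hm => hK k m.1 hm
    have hsimple : GrSimple (HL.quot K' hK') := by
      intro T hT
      let L1 : Submodule A M := (T.comap K'.mkQ).map L.subtype
      have hL1L : L1 ≤ L := Submodule.map_subtype_le L _
      have hKL1 : K ≤ L1 := by
        intro m hm
        refine ⟨⟨m, hKL.le hm⟩, ?_, rfl⟩
        show K'.mkQ ⟨m, hKL.le hm⟩ ∈ T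
        have : K'.mkQ ⟨m, hKL.le hm⟩ = 0 := by
          rw [Submodule.mkQ_apply, Submodule.Quotient.mk_eq_zero]
          exact hm
        rw [this]
        exact T.zero_mem
      have hL1 : ∀ k, ∀ m ∈ L1, G.p k m ∈ L1 := by
        rintro k _ ⟨m, hm, rfl⟩
        exact ⟨HL.p k m, hT k (K'.mkQ m) hm, rfl⟩
      rcases hKL1.eq_or_lt with h1 | h1
      · left
        rw [eq_bot_iff]
        intro t ht
        obtain ⟨m, rfl⟩ := K'.mkQ_surjective t
        rw [Submodule.mem_bot, Submodule.mkQ_apply, Submodule.Quotient.mk_eq_zero]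
        have : m.1 ∈ L1 := ⟨m, ht, rfl⟩
        rw [← h1] at this
        exact this
      · right
        have h2 : L1 = L := by
          by_contra hne
          exact hmin L1 ⟨h1, hL1⟩ (lt_of_le_of_ne hL1L hne)
        rw [eq_top_iff]
        intro t _
        obtain ⟨m, rfl⟩ := K'.mkQ_surjective t
        have h3 : m.1 ∈ L1 := by rw [h2]; exact m.2
        obtain ⟨m', hm', hmm⟩ := h3
        have : m' = m := Subtype.ext hmm
        rw [← this]
        exact hm'
    obtain ⟨s1, hs1⟩ := hsimple.support
    apply hmax L _ hKL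
    refine ⟨hL, s0 ∪ s1, ?_⟩
    intro j hj m hm
    rw [Finset.mem_union, not_or] at hj
    have h1 := hs1 j hj.2 (Submodule.Quotient.mk (p := K') ⟨m, hm⟩)
    have h2 : (Submodule.Quotient.mk (p := K') (HL.p j ⟨m, hm⟩) : L ⧸ K') = 0 := h1
    rw [Submodule.Quotient.mk_eq_zero] at h2
    have h3 : G.p j m ∈ K := h2
    have h4 := hs0 j hj.1 _ h3
    rwa [G.p_self] at h4

end main

end MG

end Pool.Agent.H3.Graded
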