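import Pool.Agent.H3.GradedSummand
import Pool.Agent.H3.GradedSupport

/-!
# The module `N[t, t⁻¹]`

Helper file (helper3): the graded module of all `ℤ`-indexed sequences in a module `N`, and its
finitely generated graded submodules.
-/

namespace Pool.Agent.H3.Graded

universe u v w

/-- a graded ring with finite support -/
structure FRG (A : Type u) [Ring A] extends RG A where
  S : Finset ℤ
  hS : ∀ j ∉ S, ∀ a, q j a = 0

variable {A : Type u} [Ring A]

/-- the ring as a graded module over itself -/
def RG.self (g : RG A) : MG g A where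
  p := g.q
  pp := g.qq
  dec := g.dec
  smul i j a b ha hb := g.mul i j a b ha hb

namespace FRG

variable (f : FRG A)

theorem exists_of_artinian [IsArtinian A A] (g : RG A) :
    ∃ f : FRG A, f.toRG = g := by
  have : IsArtinianRing A := inferInstance
  have : IsNoetherian A A := inferInstance
  obtain ⟨s, hs⟩ := g.self.finite_support
  exact ⟨{ g with S := s, hS := hs }, rfl⟩

theorem sum_q (a : A) : ∑ k ∈ f.S, f.q k a = a := by
  apply (f.toRG.self).ext_p
  intro k
  show f.q k (∑ k ∈ f.S, f.q k a) = f.q k a
  rw [map_sum]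
  have : ∀ j ∈ f.S, f.q k (f.q j a) = if k = j then f.q j a else 0 := fun j _ => f.qq k j a
  rw [Finset.sum_congr rfl this, Finset.sum_ite_eq]
  split_ifs with h
  · rfl
  · rw [f.hS k h]

variable (N : Type v) [AddCommGroup N] [Module A N]

/-- the action as an additive map -/
def actAdd (a : A) : AddMonoid.End (ℤ → N) where
  toFun x := fun j => ∑ k ∈ f.S, f.q k a • x (j - k)
  map_zero' := by
    funext j
    exact Finset.sum_eq_zero (fun k _ => smul_zero _)
  map_add' x y := by
    funext j
    show ∑ k ∈ f.S, f.q k a • (x (j - k) + y (j - k)) = _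
    simp only [smul_add]
    exact Finset.sum_add_distrib

theorem actAdd_apply (a : A) (x : ℤ → N) (j : ℤ) :
    f.actAdd N a x j = ∑ k ∈ f.S, f.q k a • x (j - k) := rfl

theorem actAdd_hom {i : ℤ} {a : A} (ha : f.q i a = a) (x : ℤ → N) (j : ℤ) :
    f.actAdd N a x j = a • x (j - i) := by
  rw [actAdd_apply]
  have h1 : ∀ k ∈ f.S, f.q k a • x (j - k) = if k = i then a • x (j - k) else 0 := by
    intro k _
    by_cases hk : k = i
    · rw [if_pos hk, hk, ha]
    · rw [if_neg hk, ← ha, f.qq, if_neg hk, zero_smul]
  rw [Finset.sum_congr rfl h1, Finset.sum_ite_eq']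
  split_ifs with h
  · rfl
  · rw [← ha, f.hS i h, zero_smul]

/-- the additive map `A → End (ℤ → N)` -/
def actHom : A →+ AddMonoid.End (ℤ → N) where
  toFun := f.actAdd N
  map_zero' := by
    ext x j
    rw [actAdd_apply]
    simp
  map_add' a b := by
    ext x j
    show f.actAdd N (a + b) x j = f.actAdd N a x j + f.actAdd N b x j
    rw [actAdd_apply, actAdd_apply, actAdd_apply, ← Finset.sum_add_distrib]
    refine Finset.sum_congr rfl (fun k _ => ?_)
    rw [map_add, add_smul]

theorem actHom_mul (a b : A) : f.actHom N (a * b) = f.actHom N a * f.actHom N b := by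
  have hom : ∀ i j : ℤ, f.actHom N (f.q i a * f.q j b) =
      f.actHom N (f.q i a) * f.actHom N (f.q j b) := by
    intro i j
    ext x l
    show f.actAdd N (f.q i a * f.q j b) x l = f.actAdd N (f.q i a) (f.actAdd N (f.q j b) x) l
    rw [actAdd_hom (i := i + j) _ _ (f.mul i j _ _ (f.toRG.q_self i a) (f.toRG.q_self j b)),
      actAdd_hom (i := i) _ _ (f.toRG.q_self i a), actAdd_hom (i := j) _ _ (f.toRG.q_self j b),
      mul_smul, show l - i - j = l - (i + j) by ring]
  conv_lhs => rw [← f.sum_q a, ← f.sum_q b]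
  conv_rhs => rw [← f.sum_q a, ← f.sum_q b]
  rw [Finset.sum_mul_sum, map_sum, map_sum, map_sum, Finset.sum_mul_sum]
  refine Finset.sum_congr rfl (fun i _ => ?_)
  rw [map_sum]
  exact Finset.sum_congr rfl (fun j _ => hom i j)

/-- the ring homomorphism `A → End (ℤ → N)` -/
def actRing : A →+* AddMonoid.End (ℤ → N) where
  toFun := f.actAdd N
  map_one' := by
    ext x j
    show f.actAdd N 1 x j = x j
    rw [actAdd_hom f N f.one, one_smul, sub_zero]
  map_mul' := f.actHom_mul N
  map_zero' := (f.actHom N).map_zero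
  map_add' := (f.actHom N).map_add

end FRG

/-- sequences in `N`, with the twisted action -/
def NT {A : Type u} [Ring A] (_f : FRG A) (N : Type v) : Type v := ℤ → N

namespace NT

variable (f : FRG A) (N : Type v) [AddCommGroup N] [Module A N]

instance : AddCommGroup (NT f N) := inferInstanceAs (AddCommGroup (ℤ → N))

instance : Module A (NT f N) :=
  letI : Module (AddMonoid.End (ℤ → N)) (NT f N) :=
    inferInstanceAs (Module (AddMonoid.End (ℤ → N)) (ℤ → N))
  Module.compHom (NT f N) (f.actRing N)

variable {N}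

/-- evaluation at a degree -/
def ev (j : ℤ) : NT f N →+ N where
  toFun x := x j
  map_zero' := rfl
  map_add' _ _ := rfl

/-- the element `n t^j` -/
def mono (j : ℤ) : N →+ NT f N where
  toFun n := (Pi.single j n : ℤ → N)
  map_zero' := Pi.single_zero (M := fun _ : ℤ => N) j
  map_add' x y := Pi.single_add (f := fun _ : ℤ => N) j x y

omit [Module A N] in
theorem ev_mono (i j : ℤ) (n : N) : ev f i (mono f j n) = if i = j then n else 0 := by
  show (Pi.single j n : ℤ → N) i = _
  by_cases h : i = j
  · subst h; rw [if_pos rfl, Pi.single_eq_same]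
  · rw [if_neg h, Pi.single_eq_of_ne h]

omit [Module A N] in
theorem ext {x y : NT f N} (h : ∀ j, ev f j x = ev f j y) : x = y := funext h

theorem ev_smul (a : A) (x : NT f N) (j : ℤ) :
    ev f j (a • x) = ∑ k ∈ f.S, f.q k a • ev f (j - k) x := rfl

theorem ev_smul_hom {i : ℤ} {a : A} (ha : f.q i a = a) (x : NT f N) (j : ℤ) :
    ev f j (a • x) = a • ev f (j - i) x := f.actAdd_hom N ha x j

theorem smul_mono_hom {i : ℤ} {a : A} (ha : f.q i a = a) (j : ℤ) (n : N) :
    a • mono f j n = mono f (j + i) (a • n) := by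
  apply ext
  intro l
  rw [ev_smul_hom f ha, ev_mono, ev_mono]
  by_cases h : l - i = j
  · rw [if_pos h, if_pos (by rw [← h]; ring)]
  · rw [if_neg h, if_neg (by intro h'; exact h (by rw [h']; ring)), smul_zero]

theorem mono_smul (a : A) (j : ℤ) (n : N) :
    mono f j (a • n) = ∑ k ∈ f.S, f.q k a • mono f (j - k) n := by
  have h1 : ∀ k ∈ f.S, f.q k a • mono f (j - k) n = mono f j (f.q k a • n) := by
    intro k _
    rw [smul_mono_hom f (f.toRG.q_self k a), show j - k + k = j by ring]
  rw [Finset.sum_congr rfl h1, ← map_sum, ← Finset.sum_smul, f.sum_q]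

/-- the graded submodule generated by the `n t^j`, `j ∈ J` -/
def U (J : Finset ℤ) : Submodule A (NT f N) :=
  Submodule.span A {x | ∃ j ∈ J, ∃ n : N, mono f j n = x}

theorem mono_mem (J : Finset ℤ) {j : ℤ} (hj : j ∈ J) (n : N) : mono f j n ∈ U f J (N := N) :=
  Submodule.subset_span ⟨j, hj, n, rfl⟩

theorem mono_ev_mem (J : Finset ℤ) (x : NT f N) (hx : x ∈ U f J) :
    ∀ k, mono f k (ev f k x) ∈ U f J := by
  refine Submodule.span_induction (p := fun x _ => ∀ k, mono f k (ev f k x) ∈ U f J)
    ?_ ?_ ?_ ?_ hx
  · rintro _ ⟨j, hj, n, rfl⟩ k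
    rw [ev_mono]
    split_ifs with h
    · rw [h]; exact mono_mem f J hj n
    · rw [map_zero]; exact Submodule.zero_mem _
  · intro k
    rw [map_zero, map_zero]
    exact Submodule.zero_mem _
  · intro x y _ _ hx hy k
    rw [map_add, map_add]
    exact Submodule.add_mem _ (hx k) (hy k)
  · intro a x _ hx k
    have : mono f k (ev f k (a • x)) = ∑ i ∈ f.S, f.q i a • mono f (k - i) (ev f (k - i) x) := by
      rw [ev_smul, map_sum]
      refine Finset.sum_congr rfl (fun i _ => ?_)
      rw [smul_mono_hom f (f.toRG.q_self i a), show k - i + i = k by ring]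
    rw [this]
    exact Submodule.sum_mem _ (fun i _ => Submodule.smul_mem _ _ (hx _))

theorem finite_ev (J : Finset ℤ) (x : NT f N) (hx : x ∈ U f J) :
    ∃ s : Finset ℤ, ∀ j ∉ s, ev f j x = 0 := by
  classical
  refine Submodule.span_induction (p := fun x _ => ∃ s : Finset ℤ, ∀ j ∉ s, ev f j x = 0)
    ?_ ?_ ?_ ?_ hx
  · rintro _ ⟨j, hj, n, rfl⟩
    refine ⟨{j}, fun k hk => ?_⟩
    rw [ev_mono, if_neg (by simpa using hk)]
  · exact ⟨∅, fun j _ => map_zero _⟩
  · rintro x y _ _ ⟨s, hs⟩ ⟨s', hs'⟩
    refine ⟨s ∪ s', fun j hj => ?_⟩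
    rw [Finset.mem_union, not_or] at hj
    rw [map_add, hs j hj.1, hs' j hj.2, add_zero]
  · rintro a x _ ⟨s, hs⟩
    refine ⟨Finset.image₂ (fun a b => a + b) s f.S, fun j hj => ?_⟩
    rw [ev_smul]
    refine Finset.sum_eq_zero (fun k hk => ?_)
    rw [hs, smul_zero]
    intro h
    apply hj
    rw [Finset.mem_image₂]
    exact ⟨j - k, h, k, hk, by ring⟩

/-- grading of `U` -/
def UG (J : Finset ℤ) : MG f.toRG (U f J (N := N)) where
  p k :=
    { toFun := fun x => ⟨mono f k (ev f k x.1), mono_ev_mem f J x.1 x.2 k⟩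
      map_zero' := by
        apply Subtype.ext
        show mono f k (ev f k (0 : NT f N)) = 0
        rw [map_zero, map_zero]
      map_add' := by
        intro x y
        apply Subtype.ext
        show mono f k (ev f k (x.1 + y.1)) = _
        rw [map_add, map_add]
        rfl }
  pp i j m := by
    apply Subtype.ext
    show mono f i (ev f i (mono f j (ev f j m.1))) = _
    rw [ev_mono]
    by_cases h : i = j
    · subst h
      rw [if_pos rfl, if_pos rfl]
      rfl
    · rw [if_neg h, if_neg h, map_zero]
      rfl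
  dec m := by
    obtain ⟨s, hs⟩ := finite_ev f J m.1 m.2
    refine ⟨s, fun j hj => Subtype.ext ?_, Subtype.ext ?_⟩
    · show mono f j (ev f j m.1) = 0
      rw [hs j hj, map_zero]
    · rw [AddSubmonoidClass.coe_finsetSum]
      apply ext
      intro k
      rw [map_sum]
      show ∑ x ∈ s, ev f k (mono f x (ev f x m.1)) = ev f k m.1
      have h1 : ∀ x ∈ s, ev f k (mono f x (ev f x m.1)) = if k = x then ev f x m.1 else 0 :=
        fun x _ => ev_mono f k x _
      rw [Finset.sum_congr rfl h1, Finset.sum_ite_eq]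
      split_ifs with h
      · rfl
      · rw [hs k h]
  smul i j a m ha hm := by
    have hm' : mono f j (ev f j m.1) = m.1 := congrArg Subtype.val hm
    apply Subtype.ext
    show mono f (i + j) (ev f (i + j) (a • m.1)) = a • m.1
    rw [ev_smul_hom f ha, show i + j - i = j by ring]
    conv_rhs => rw [← hm']
    rw [smul_mono_hom f ha, add_comm j i]

/-- `U` is finitely generated -/
theorem finite_U [IsArtinian A A] [Module.Finite A N] (J : Finset ℤ) :
    Module.Finite A (U f J (N := N)) := by
  classical
  obtain ⟨X, hX⟩ := (Module.Finite.fg_top : (⊤ : Submodule A N).FG)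
  let J' : Finset ℤ := Finset.image₂ (fun a b => a - b) J f.S
  let Y : Finset (NT f N) := Finset.image₂ (fun j n => mono f j n) J' X
  have hUY : U f J (N := N) ≤ Submodule.span A (Y : Set (NT f N)) := by
    unfold U
    rw [Submodule.span_le]
    rintro _ ⟨j, hj, n, rfl⟩
    have hn : n ∈ Submodule.span A (X : Set N) := by rw [hX]; trivial
    obtain ⟨c, _, hc⟩ := Submodule.mem_span_finset.1 hn
    rw [← hc, map_sum]
    refine Submodule.sum_mem _ (fun x hx => ?_)
    rw [mono_smul]
    refine Submodule.sum_mem _ (fun k hk => Submodule.smul_mem _ _ ?_)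
    apply Submodule.subset_span
    exact Finset.mem_coe.2 (Finset.mem_image₂.2
      ⟨j - k, Finset.mem_image₂.2 ⟨j, hj, k, hk, rfl⟩, x, hx, rfl⟩)
  have hfin : Module.Finite A (Submodule.span A (Y : Set (NT f N))) :=
    Module.Finite.span_finset A Y
  have : IsNoetherianRing A := inferInstance
  have : IsNoetherian A (Submodule.span A (Y : Set (NT f N))) :=
    isNoetherian_of_isNoetherianRing_of_finite A _
  exact Module.Finite.of_injective (Submodule.inclusion hUY) (Submodule.inclusion_injective hUY)

/-- the sum of the components -/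
noncomputable def sumAdd (J : Finset ℤ) : U f J (N := N) →+ N where
  toFun x := ∑ᶠ j, ev f j x.1
  map_zero' := by
    have : ∀ j, ev f j ((0 : U f J (N := N)) : NT f N) = 0 := fun j => map_zero _
    simp only [this]
    exact finsum_zero
  map_add' x y := by
    have h1 : ∀ z : U f J (N := N), (Function.support (fun j => ev f j z.1)).Finite := by
      intro z
      obtain ⟨s, hs⟩ := finite_ev f J z.1 z.2
      refine s.finite_toSet.subset ?_
      intro j hj
      by_contra hcon
      exact hj (hs j hcon)
    rw [← finsum_add_distrib (h1 x) (h1 y)]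
    apply finsum_congr
    intro j
    exact map_add _ _ _

theorem sumAdd_apply (J : Finset ℤ) (x : U f J (N := N)) :
    sumAdd f J x = ∑ᶠ j, ev f j x.1 := rfl

/-- the map `U → N`, `n t^j ↦ n` -/
noncomputable def sumMap (J : Finset ℤ) : U f J (N := N) →ₗ[A] N where
  toFun := sumAdd f J
  map_add' := map_add _
  map_smul' := by
    intro a x
    show sumAdd f J (a • x) = a • sumAdd f J x
    apply MG.lin_of_hom f.toRG
    intro i a ha x
    rw [sumAdd_apply, sumAdd_apply]
    have hfin : (Function.support (fun j => ev f j x.1)).Finite := by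
      obtain ⟨s, hs⟩ := finite_ev f J x.1 x.2
      refine s.finite_toSet.subset ?_
      intro j hj
      by_contra hcon
      exact hj (hs j hcon)
    have h1 : ∀ j, ev f j ((a • x : U f J (N := N)) : NT f N) = a • ev f (j - i) x.1 :=
      fun j => ev_smul_hom f ha x.1 j
    simp only [h1]
    rw [smul_finsum' a hfin]
    exact finsum_comp_equiv (Equiv.subRight i) (f := fun j => a • ev f j x.1)

theorem sumMap_mono (J : Finset ℤ) {j : ℤ} (hj : j ∈ J) (n : N) :
    sumMap f J ⟨mono f j n, mono_mem f J hj n⟩ = n := by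
  show ∑ᶠ k, ev f k (mono f j n) = n
  have : ∀ k, ev f k (mono f j n) = if k = j then n else 0 := fun k => ev_mono f k j n
  simp only [this]
  rw [finsum_eq_single _ j (fun k hk => if_neg hk), if_pos rfl]

end NT

end Pool.Agent.H3.Graded
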