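import Pool.Agent.H3.GradedApprox

/-!
# The interface with gradings by families of subgroups

Helper file (helper3).
-/

namespace Pool.Agent.H3.Graded

universe u v w

section
variable {M : Type v} [AddCommGroup M] (ℳ : ℤ → AddSubgroup M) [DirectSum.Decomposition ℳ]

/-- projection on a component of a decomposition -/
def dproj (k : ℤ) : M →+ M :=
  ((ℳ k).subtype).comp
    ((DFinsupp.evalAddMonoidHom k).comp (DirectSum.decomposeAddEquiv ℳ).toAddMonoidHom)

theorem dproj_apply (k : ℤ) (m : M) : dproj ℳ k m = (DirectSum.decompose ℳ m k : M) := rfl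

theorem dproj_mem (k : ℤ) (m : M) : dproj ℳ k m ∈ ℳ k := by
  rw [dproj_apply]
  exact (DirectSum.decompose ℳ m k).2

theorem dproj_of_mem {k : ℤ} {m : M} (h : m ∈ ℳ k) : dproj ℳ k m = m :=
  DirectSum.decompose_of_mem_same ℳ h

theorem dproj_of_mem_ne {i k : ℤ} {m : M} (h : m ∈ ℳ k) (hik : i ≠ k) : dproj ℳ i m = 0 :=
  DirectSum.decompose_of_mem_ne ℳ h (Ne.symm hik)

theorem mem_of_dproj {k : ℤ} {m : M} (h : dproj ℳ k m = m) : m ∈ ℳ k := by
  rw [← h]
  exact dproj_mem ℳ k m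

theorem dproj_dproj (i j : ℤ) (m : M) :
    dproj ℳ i (dproj ℳ j m) = if i = j then dproj ℳ j m else 0 := by
  split_ifs with h
  · subst h
    exact dproj_of_mem ℳ (dproj_mem ℳ _ _)
  · exact dproj_of_mem_ne ℳ (dproj_mem ℳ _ _) h

theorem dproj_dec (m : M) :
    ∃ s : Finset ℤ, (∀ j ∉ s, dproj ℳ j m = 0) ∧ ∑ j ∈ s, dproj ℳ j m = m := by
  classical
  refine ⟨DFinsupp.support (DirectSum.decompose ℳ m), ?_, ?_⟩
  · intro j hj
    rw [DFinsupp.notMem_support_iff] at hj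
    rw [dproj_apply, hj]
    rfl
  · exact DirectSum.sum_support_decompose ℳ m

end

variable {R : Type u} [Ring R]

/-- the grading of the opposite ring -/
def opRG (𝒜 : ℤ → AddSubgroup R) [GradedRing 𝒜] : RG Rᵐᵒᵖ where
  q k := MulOpposite.opAddEquiv.toAddMonoidHom.comp
    ((dproj 𝒜 k).comp MulOpposite.opAddEquiv.symm.toAddMonoidHom)
  qq i j a := by
    show MulOpposite.op (dproj 𝒜 i (dproj 𝒜 j a.unop)) = _
    rw [dproj_dproj]
    split_ifs
    · rfl
    · rfl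
  dec a := by
    obtain ⟨s, h1, h2⟩ := dproj_dec 𝒜 a.unop
    refine ⟨s, ?_, ?_⟩
    · intro j hj
      show MulOpposite.op (dproj 𝒜 j a.unop) = 0
      rw [h1 j hj]
      rfl
    · show ∑ j ∈ s, MulOpposite.opAddEquiv (dproj 𝒜 j a.unop) = a
      rw [← map_sum, h2]
      rfl
  mul i j a b ha hb := by
    have ha' : dproj 𝒜 i a.unop = a.unop := congrArg MulOpposite.unop ha
    have hb' : dproj 𝒜 j b.unop = b.unop := congrArg MulOpposite.unop hb
    show MulOpposite.op (dproj 𝒜 (i + j) (b.unop * a.unop)) = a * b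
    have hm : b.unop * a.unop ∈ 𝒜 (i + j) := by
      rw [add_comm]
      exact SetLike.GradedMul.mul_mem (mem_of_dproj 𝒜 hb') (mem_of_dproj 𝒜 ha')
    rw [dproj_of_mem 𝒜 hm]
    rfl
  one := by
    show MulOpposite.op (dproj 𝒜 0 1) = 1
    rw [dproj_of_mem 𝒜 SetLike.GradedOne.one_mem]
    rfl

theorem opRG_q (𝒜 : ℤ → AddSubgroup R) [GradedRing 𝒜] (k : ℤ) (a : Rᵐᵒᵖ) :
    (opRG 𝒜).q k a = MulOpposite.op (dproj 𝒜 k a.unop) := rfl

theorem opRG_of_mem (𝒜 : ℤ → AddSubgroup R) [GradedRing 𝒜] {k : ℤ} {r : R} (h : r ∈ 𝒜 k) :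
    (opRG 𝒜).q k (MulOpposite.op r) = MulOpposite.op r := by
  rw [opRG_q, MulOpposite.unop_op, dproj_of_mem 𝒜 h]

theorem mem_of_opRG (𝒜 : ℤ → AddSubgroup R) [GradedRing 𝒜] {k : ℤ} {a : Rᵐᵒᵖ}
    (h : (opRG 𝒜).q k a = a) : a.unop ∈ 𝒜 k :=
  mem_of_dproj 𝒜 (congrArg MulOpposite.unop h)

section iface
variable (𝒜 : ℤ → AddSubgroup R) [GradedRing 𝒜] {N : Type v} [AddCommGroup N] [Module Rᵐᵒᵖ N]

theorem mg_of_grading (ℳ : ℤ → AddSubgroup N) (h1 : DirectSum.IsInternal ℳ)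
    (h2 : ∀ i j : ℤ, ∀ m ∈ ℳ i, ∀ r ∈ 𝒜 j, MulOpposite.op r • m ∈ ℳ (i + j)) :
    Nonempty (MG (opRG 𝒜) N) := by
  let _ := h1.chooseDecomposition
  exact ⟨{
    p := dproj ℳ
    pp := dproj_dproj ℳ
    dec := dproj_dec ℳ
    smul := by
      intro i j a m ha hm
      have e1 := mem_of_opRG 𝒜 ha
      have e2 := mem_of_dproj ℳ hm
      apply dproj_of_mem
      have := h2 j i m e2 a.unop e1
      rw [MulOpposite.op_unop, add_comm] at this
      exact this }⟩

theorem grading_of_mg (G : MG (opRG 𝒜) N) : ∃ ℳ : ℤ → AddSubgroup N, DirectSum.IsInternal ℳ ∧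
    ∀ i j : ℤ, ∀ m ∈ ℳ i, ∀ r ∈ 𝒜 j, MulOpposite.op r • m ∈ ℳ (i + j) := by
  classical
  have hmem : ∀ k m, m ∈ (G.p k).range ↔ G.p k m = m := by
    intro k m
    constructor
    · rintro ⟨x, rfl⟩
      exact G.p_self k x
    · intro h
      exact ⟨m, h⟩
  have hx' : ∀ (x : DirectSum ℤ (fun k => (G.p k).range)) k,
      G.p k (DirectSum.coeAddMonoidHom (fun k => (G.p k).range) x) = x k := by
    intro x
    induction x using DirectSum.induction_on with
    | zero => intro k; rw [map_zero, map_zero]; rfl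
    | of i y =>
      intro k
      rw [DirectSum.coeAddMonoidHom_of]
      by_cases hik : i = k
      · subst hik
        rw [DirectSum.of_eq_same]
        exact (hmem _ _).1 y.2
      · rw [DirectSum.of_eq_of_ne _ _ _ (Ne.symm hik)]
        have := (hmem _ _).1 y.2
        rw [← this]
        exact G.p_ne (Ne.symm hik) _
    | add x y hx hy =>
      intro k
      rw [map_add, map_add, hx, hy]
      rfl
  refine ⟨fun k => (G.p k).range, ⟨?_, ?_⟩, ?_⟩
  · rw [injective_iff_map_eq_zero]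
    intro x hx
    ext k
    rw [← hx', hx, map_zero]
    rfl
  · intro m
    obtain ⟨s, _, hs⟩ := G.dec m
    refine ⟨∑ j ∈ s, DirectSum.of (fun k => (G.p k).range) j ⟨G.p j m, m, rfl⟩, ?_⟩
    rw [map_sum]
    simp only [DirectSum.coeAddMonoidHom_of]
    exact hs
  · intro i j m hm r hr
    rw [hmem] at hm ⊢
    have := G.smul j i (MulOpposite.op r) m (opRG_of_mem 𝒜 hr) hm
    rwa [add_comm] at this

end iface

/-- the ring as a module over its opposite -/
def opEquiv (R : Type u) [Ring R] : R ≃ₗ[Rᵐᵒᵖ] Rᵐᵒᵖ where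
  toFun := MulOpposite.op
  invFun := MulOpposite.unop
  map_add' _ _ := rfl
  map_smul' a r := by
    show MulOpposite.op (r * a.unop) = a * MulOpposite.op r
    rw [MulOpposite.op_mul, MulOpposite.op_unop]
  left_inv _ := rfl
  right_inv _ := rfl

theorem artinian_op (R : Type u) [Ring R] [IsArtinian Rᵐᵒᵖ R] : IsArtinian Rᵐᵒᵖ Rᵐᵒᵖ :=
  isArtinian_of_linearEquiv (opEquiv R)

end Pool.Agent.H3.Graded
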