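import Pool.Agent.H3.GradedWidth

/-!
# Preprojective modules are gradable (core form)

Helper file (helper3).
-/

namespace Pool.Agent.H3.Graded

universe u v w x

variable {A : Type u} [Ring A]

section split
variable {g : RG A}

/-- an indecomposable direct summand of a graded module is gradable -/
theorem gradable_of_split {Y : Type v} [AddCommGroup Y] [Module A Y] [IsArtinian A Y]
    [IsNoetherian A Y] (hY : Indec A Y) {Q : Type w} [AddCommGroup Q] [Module A Q]
    [IsArtinian A Q] [IsNoetherian A Q] (F : FG g Q) (r : Q →ₗ[A] Y) (s : Y →ₗ[A] Q)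
    (h : ∀ y, r (s y) = y) : Nonempty (MG g Y) := by
  classical
  let Φ : (F.S → Q) →ₗ[A] Y := ∑ i, r ∘ₗ LinearMap.proj i
  let Γ : Y →ₗ[A] (F.S → Q) := LinearMap.pi (fun _ => s)
  have hΦ : ∀ c, Φ c = ∑ i, r (c i) := by
    intro c
    show (∑ i, r ∘ₗ LinearMap.proj i : (F.S → Q) →ₗ[A] Y) c = _
    rw [LinearMap.sum_apply]
    rfl
  have hmain : ∀ y, Φ ((F.pi F.S).p 0 (Γ y)) = y := by
    intro y
    rw [hΦ]
    have h1 : ∀ i : F.S, r ((F.pi F.S).p 0 (Γ y) i) = r (F.p (0 + i.1) (s y)) := fun i => rfl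
    rw [Finset.sum_congr rfl (fun i _ => h1 i), FG.pi_sum_eq F r, h]
  obtain ⟨W, hW, _, _, _, _, hbij⟩ := FG.exists_graded_iso (F.pi F.S) hY Φ Γ hmain
  exact ⟨((F.pi F.S).sub W hW).toMG.transport (LinearEquiv.ofBijective _ hbij)⟩

/-- a graded module with a nonzero direct summand in `add X` has a graded indecomposable direct
summand which embeds in `X` -/
theorem exists_summand {X : Type x} [AddCommGroup X] [Module A X]
    {Q : Type w} [AddCommGroup Q] [Module A Q] [IsArtinian A Q] [IsNoetherian A Q] (F : FG g Q)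
    {n : ℕ} (η : (Fin n → X) →ₗ[A] Q) (ζ : Q →ₗ[A] (Fin n → X))
    (hid : ∀ q, η (ζ (η (ζ q))) = η (ζ q)) (hne : ∃ q, η (ζ q) ≠ 0) :
    ∃ (W : Submodule A (F.S → Q)) (FV : FG g W), FV.GrIndec ∧
      (∃ (θ : W →ₗ[A] Q) (μ : Q →ₗ[A] W), MG.IsGr FV.toMG F.toMG θ ∧
        MG.IsGr F.toMG FV.toMG μ ∧ ∀ v, μ (θ v) = v) ∧
      ∃ a : W →ₗ[A] X, Function.Injective a := by
  classical
  let e : Q →ₗ[A] Q := η ∘ₗ ζ
  let D := LinearMap.range e
  let e' : Q →ₗ[A] D := e.rangeRestrict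
  have he' : ∀ d : D, e' d.1 = d := by
    rintro ⟨_, m, rfl⟩
    exact Subtype.ext (hid m)
  let Φ : (F.S → Q) →ₗ[A] D := ∑ i, e' ∘ₗ LinearMap.proj i
  let Γ : D →ₗ[A] (F.S → Q) := LinearMap.pi (fun _ => D.subtype)
  have hΦ : ∀ c, Φ c = ∑ i, e' (c i) := by
    intro c
    show (∑ i, e' ∘ₗ LinearMap.proj i : (F.S → Q) →ₗ[A] D) c = _
    rw [LinearMap.sum_apply]
    rfl
  have h : ∀ d, Φ ((F.pi F.S).p 0 (Γ d)) = d := by
    intro d
    rw [hΦ]
    have : ∀ i, (F.pi F.S).p 0 (Γ d) i = F.p (0 + i.1) d.1 := fun i => rfl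
    simp only [this]
    rw [FG.pi_sum_eq, he']
  have hD : ∃ d : D, d ≠ 0 := by
    obtain ⟨q, hq⟩ := hne
    exact ⟨⟨e q, q, rfl⟩, fun h0 => hq (congrArg Subtype.val h0)⟩
  obtain ⟨W, hW, l, hind, hl, hlψ, hcomp⟩ := FG.exists_piece (F.pi F.S) Φ Γ h hD
  have hψgr := FG.comp_zero_gr (F.pi F.S) (F.pi F.S).toMG (Γ ∘ₗ Φ)
  obtain ⟨i, θ, μ, hθ, hμ, hμθ⟩ := hind.factor F F.S
    ((F.pi F.S).comp (F.pi F.S).toMG 0 (Γ ∘ₗ Φ) ∘ₗ W.subtype) l
    (by
      intro k m
      show (F.pi F.S).p k ((F.pi F.S).comp (F.pi F.S).toMG 0 (Γ ∘ₗ Φ) m.1) = _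
      rw [hψgr]
      rfl) hl hlψ
  refine ⟨W, ((F.pi F.S).sub W hW).shift i, hind.shift i, ⟨θ, μ, hθ, hμ, hμθ⟩, ?_⟩
  let a : Fin n → W →ₗ[A] X := fun j =>
    LinearMap.proj j ∘ₗ ζ ∘ₗ D.subtype ∘ₗ Φ ∘ₗ W.subtype
  let b : Fin n → X →ₗ[A] W := fun j =>
    l ∘ₗ Γ ∘ₗ e' ∘ₗ η ∘ₗ LinearMap.single A (fun _ => X) j
  have hz : (l ∘ₗ Γ) ∘ₗ (Φ ∘ₗ W.subtype) = ∑ j, b j ∘ₗ a j := by
    ext m
    rw [LinearMap.sum_apply]
    have h1 : ∀ j, (b j ∘ₗ a j) m =
        l (Γ (e' (η (Pi.single j (ζ (Φ m.1 : D).1 j))))) := fun j => rfl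
    rw [Finset.sum_congr rfl (fun j _ => h1 j), ← map_sum, ← map_sum, ← map_sum, ← map_sum]
    have h2 : ∑ j, (Pi.single j (ζ (Φ m.1 : D).1 j) : Fin n → X) = ζ (Φ m.1 : D).1 := by
      funext t
      rw [Finset.sum_apply, Finset.sum_eq_single t]
      · rw [Pi.single_eq_same]
      · intro b _ hb
        rw [Pi.single_eq_of_ne (Ne.symm hb)]
      · intro h; exact absurd (Finset.mem_univ _) h
    rw [h2]
    have h3 : η (ζ (Φ m.1 : D).1) = (Φ m.1 : D).1 := congrArg Subtype.val (he' (Φ m.1))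
    rw [h3, he']
    rfl
  have hb1 : Function.Bijective (∑ j, ((F.pi F.S).sub W hW).comp ((F.pi F.S).sub W hW).toMG 0
      (b j ∘ₗ a j) : W →ₗ[A] W) := by
    rw [← FG.comp_sum, ← hz, hcomp]
    exact Function.bijective_id
  obtain ⟨j, _, hj⟩ := hind.bij_of_sum Finset.univ
    (fun j _ => FG.comp_zero_gr ((F.pi F.S).sub W hW) _ (b j ∘ₗ a j)) hb1
  have hj2 := hind.bij_of_comp_zero _ hj
  refine ⟨a j, ?_⟩
  have hj3 := hj2.1
  rw [LinearMap.coe_comp] at hj3
  exact hj3.of_comp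

end split

section main
variable (f : FRG A) [IsArtinian A A]

theorem gradable_of_preproj {Y : Type v} [AddCommGroup Y] [Module A Y] [IsArtinian A Y]
    [IsNoetherian A Y] (hY : Indec A Y) {X : Type x} [AddCommGroup X] [Module A X]
    [IsArtinian A X] [IsNoetherian A X]
    (hX : ∀ (Z : Type v) [AddCommGroup Z] [Module A Z], Module.Finite A Z →
      ∀ r : Z →ₗ[A] Y, Function.Surjective r → (¬ ∃ s : Y →ₗ[A] Z, ∀ y, r (s y) = y) →
      ∃ (n : ℕ) (η : (Fin n → X) →ₗ[A] Z) (ζ : Z →ₗ[A] (Fin n → X)),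
        (∀ q, η (ζ (η (ζ q))) = η (ζ q)) ∧ ∃ q, η (ζ q) ≠ 0) :
    Nonempty (MG f.toRG Y) := by
  classical
  -- the bound for the support of the ring
  obtain ⟨B, hB0, hB⟩ : ∃ B : ℤ, 0 ≤ B ∧ ∀ k ∈ f.S, |k| ≤ B := by
    refine ⟨∑ k ∈ f.S, |k|, Finset.sum_nonneg (fun k _ => abs_nonneg k), ?_⟩
    intro k hk
    exact Finset.single_le_sum (f := fun k => |k|) (fun k _ => abs_nonneg k) hk
  let w : ℤ := FG.wd B A X
  have hw0 : 0 ≤ w := by
    show 0 ≤ 2 * B * (((Module.length A X).toNat + 1 : ℕ) : ℤ)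
    positivity
  let K : Finset ℤ := Finset.Icc (-w) w
  let J : Finset ℤ := Finset.Icc (-(w + B)) (w + B)
  have hKJ : ∀ l ∈ K, l ∈ J := by
    intro l hl
    rw [Finset.mem_Icc] at hl ⊢
    constructor <;> linarith [hl.1, hl.2]
  have hKJ2 : ∀ l ∈ K, ∀ k ∈ f.S, l - k ∈ J := by
    intro l hl k hk
    have h1 := abs_le.1 (hB k hk)
    rw [Finset.mem_Icc] at hl ⊢
    constructor <;> linarith [hl.1, hl.2, h1.1, h1.2]
  have hJ0 : (0 : ℤ) ∈ J := hKJ 0 (Finset.mem_Icc.2 ⟨by linarith, hw0⟩)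
  -- the window
  have : IsArtinianRing A := inferInstance
  have : IsNoetherianRing A := inferInstance
  have hfin : Module.Finite A (NT.U f J (N := Y)) := NT.finite_U f J
  have : IsNoetherian A (NT.U f J (N := Y)) := isNoetherian_of_isNoetherianRing_of_finite _ _
  have : IsArtinian A (NT.U f J (N := Y)) := inferInstance
  obtain ⟨FU, hFU⟩ := (NT.UG f J (N := Y)).exists_fg
  have hUp : ∀ k x, ((FU.p k x : NT.U f J (N := Y)) : NT f Y) = NT.mono f k (NT.ev f k x.1) := by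
    intro k x
    have : FU.p k x = (NT.UG f J (N := Y)).p k x := by rw [hFU]
    rw [this]
    rfl
  -- the elements `y t^j`
  let sj : ∀ j ∈ J, Y →+ NT.U f J (N := Y) := fun j hj =>
    { toFun := fun y => ⟨NT.mono f j y, NT.mono_mem f J hj y⟩
      map_zero' := Subtype.ext (map_zero _)
      map_add' := fun x y => Subtype.ext (map_add _ _ _) }
  have hsj : ∀ j hj y, NT.sumMap f J (sj j hj y) = y := fun j hj y => NT.sumMap_mono f J hj y
  have hsjp : ∀ j hj y, FU.p j (sj j hj y) = sj j hj y := by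
    intro j hj y
    apply Subtype.ext
    rw [hUp]
    show NT.mono f j (NT.ev f j (NT.mono f j y)) = NT.mono f j y
    rw [NT.ev_mono, if_pos rfl]
  have hUk : ∀ k (hk : k ∈ J) x, FU.p k x = x → x = sj k hk (NT.sumMap f J x) := by
    intro k hk x hx
    have h1 : x = sj k hk (NT.ev f k x.1) := by
      apply Subtype.ext
      conv_lhs => rw [← hx]
      exact hUp k x
    have h2 : NT.sumMap f J x = NT.ev f k x.1 := by
      have h3 := congrArg (NT.sumMap f J) h1
      rw [hsj k hk] at h3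
      exact h3
    rw [h2]
    exact h1
  -- the minimal graded summand containing the degree zero part
  let 𝒬 : Set (Submodule A (NT.U f J (N := Y))) := {P | ∃ e : NT.U f J (N := Y) →ₗ[A] NT.U f J (N := Y),
    MG.IsGr FU.toMG FU.toMG e ∧ (∀ x, e (e x) = e x) ∧ (∀ x, FU.p 0 x = x → e x = x) ∧
    LinearMap.range e = P}
  obtain ⟨_, ⟨e, he, hee, he0, rfl⟩, hmin⟩ := IsArtinian.set_has_minimal 𝒬
    ⟨_, LinearMap.id, fun _ _ => rfl, fun _ => rfl, fun _ _ => rfl, rfl⟩
  let Q := LinearMap.range e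
  have hQ : ∀ k, ∀ m ∈ Q, FU.p k m ∈ Q := by
    rintro k _ ⟨y, rfl⟩
    exact ⟨FU.p k y, (he k y).symm⟩
  let FQ := FU.sub Q hQ
  let u : Q →ₗ[A] Y := NT.sumMap f J ∘ₗ Q.subtype
  have hQ0 : ∀ y, sj 0 hJ0 y ∈ Q := fun y => ⟨sj 0 hJ0 y, he0 _ (hsjp 0 hJ0 y)⟩
  have husurj : Function.Surjective u := fun y => ⟨⟨sj 0 hJ0 y, hQ0 y⟩, hsj 0 hJ0 y⟩
  by_cases hsplit : ∃ s : Y →ₗ[A] Q, ∀ y, u (s y) = y
  · obtain ⟨s, hs⟩ := hsplit
    exact gradable_of_split hY FQ u s hs
  obtain ⟨n, η, ζ, hid, hne⟩ := hX Q inferInstance u husurj hsplit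
  obtain ⟨W, FV, hV, ⟨θ, μ, hθ, hμ, hμθ⟩, a, ha⟩ := exists_summand FQ η ζ hid hne
  -- extend the maps to `U`
  let θ' : W →ₗ[A] NT.U f J (N := Y) := Q.subtype ∘ₗ θ
  let μ' : NT.U f J (N := Y) →ₗ[A] W := μ ∘ₗ e.rangeRestrict
  have heθ : ∀ v, e (θ' v) = θ' v := by
    intro v
    obtain ⟨y, hy⟩ := (θ v).2
    show e (θ v).1 = (θ v).1
    rw [← hy, hee]
  have hμe : ∀ x, μ' (e x) = μ' x := by
    intro x
    show μ (e.rangeRestrict (e x)) = μ (e.rangeRestrict x)
    congr 1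
    exact Subtype.ext (hee x)
  have hμθ' : ∀ v, μ' (θ' v) = v := by
    intro v
    show μ (e.rangeRestrict (θ' v)) = v
    have : e.rangeRestrict (θ' v) = θ v := Subtype.ext (heθ v)
    rw [this, hμθ]
  have hθ' : MG.IsGr FV.toMG FU.toMG θ' := by
    intro k m
    exact congrArg Subtype.val (hθ k m)
  have hμ' : MG.IsGr FU.toMG FV.toMG μ' := by
    intro k x
    show FV.p k (μ (e.rangeRestrict x)) = μ (e.rangeRestrict (FU.p k x))
    rw [hμ]
    congr 1
    exact Subtype.ext (he k x)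
  by_cases hV0 : ∀ v, FV.p 0 v = 0
  · -- contradiction with minimality
    exfalso
    let e₁ : NT.U f J (N := Y) →ₗ[A] NT.U f J (N := Y) := e - θ' ∘ₗ μ'
    have he₁ : ∀ x, e₁ x = e x - θ' (μ' x) := fun x => rfl
    have hlt : LinearMap.range e₁ < LinearMap.range e := by
      refine lt_of_le_of_ne ?_ ?_
      · rintro _ ⟨x, rfl⟩
        refine ⟨e₁ x, ?_⟩
        rw [he₁, map_sub, hee, heθ]
      · intro heq
        obtain ⟨v, hv⟩ := hV.1
        have h1 : θ' v ∈ LinearMap.range e := ⟨θ' v, heθ v⟩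
        rw [← heq] at h1
        obtain ⟨x, hx⟩ := h1
        have h2 : μ' (e₁ x) = 0 := by
          rw [he₁, map_sub, hμe, hμθ', sub_self]
        apply hv
        rw [← hμθ' v, ← hx, h2]
    refine hmin _ ⟨e₁, ?_, ?_, ?_, rfl⟩ hlt
    · intro k m
      rw [he₁, he₁, map_sub, he, hθ', hμ']
    · intro x
      rw [he₁ (e₁ x), he₁ x, map_sub, hee, heθ, map_sub, hμe, hμθ', sub_self, map_zero, sub_zero]
    · intro x hx
      rw [he₁, he0 x hx]
      have : θ' (μ' x) = 0 := by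
        rw [← hx, ← hμ', hV0, map_zero]
      rw [this, sub_zero]
  · push Not at hV0
    obtain ⟨v0, hv0⟩ := hV0
    have hK : ∀ k ∉ K, ∀ v, FV.p k v = 0 := by
      intro k hk v
      by_contra hcon
      apply hk
      have := hV.width f hB0 hB hv0 a ha hcon
      exact Finset.mem_Icc.2 (abs_le.1 this)
    -- the map back
    let t : ℤ → Y →+ W := fun j =>
      if hj : j ∈ J then μ'.toAddMonoidHom.comp (sj j hj) else 0
    have ht : ∀ j (hj : j ∈ J) y, t j y = μ' (sj j hj y) := by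
      intro j hj y
      show (dite _ _ _ : Y →+ W) y = _
      rw [dif_pos hj]
      rfl
    have htp : ∀ j ∈ J, ∀ y, FV.p j (t j y) = t j y := by
      intro j hj y
      rw [ht j hj, hμ', hsjp j hj]
    have hta : ∀ (i : ℤ) (b : A), f.q i b = b → ∀ j ∈ J, j - i ∈ J → ∀ y,
        t j (b • y) = b • t (j - i) y := by
      intro i b hb j hj hji y
      rw [ht j hj, ht _ hji, ← μ'.map_smul]
      congr 1
      apply Subtype.ext
      show NT.mono f j (b • y) = b • NT.mono f (j - i) y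
      rw [NT.smul_mono_hom f hb, show j - i + i = j by ring]
    let gadd : Y →+ W := ∑ j ∈ K, t j
    have hgapp : ∀ y, gadd y = ∑ j ∈ K, t j y := by
      intro y
      show (∑ j ∈ K, t j : Y →+ W) y = _
      rw [AddMonoidHom.finsetSum_apply]
    have hgp : ∀ l y, FV.p l (gadd y) = if l ∈ K then t l y else 0 := by
      intro l y
      rw [hgapp, map_sum]
      have h1 : ∀ j ∈ K, FV.p l (t j y) = if l = j then t j y else 0 := by
        intro j hj
        split_ifs with h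
        · rw [h, htp j (hKJ j hj)]
        · rw [← htp j (hKJ j hj), FV.p_ne h]
      rw [Finset.sum_congr rfl h1, Finset.sum_ite_eq]
    let g' : Y →ₗ[A] W :=
      { toFun := gadd
        map_add' := map_add _
        map_smul' := by
          intro b y
          show gadd (b • y) = b • gadd y
          apply MG.lin_of_hom f.toRG
          intro i b hb y
          apply FV.toMG.ext_p
          intro l
          rw [FV.p_smul hb, hgp, hgp]
          by_cases hi : i ∈ f.S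
          · by_cases hl : l ∈ K
            · rw [if_pos hl, hta i b hb l (hKJ l hl) (hKJ2 l hl i hi)]
              by_cases hl' : l - i ∈ K
              · rw [if_pos hl']
              · rw [if_neg hl', ← htp _ (hKJ2 l hl i hi), hK _ hl']
            · rw [if_neg hl]
              by_cases hl' : l - i ∈ K
              · rw [if_pos hl', ← htp _ (hKJ _ hl'), FV.smul_p_eq hb,
                  show l - i + i = l by ring, hK l hl]
              · rw [if_neg hl', smul_zero]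
          · have hb0 : b = 0 := by rw [← hb, f.hS i hi]
            rw [hb0, zero_smul, zero_smul, map_zero, ite_self] }
    let f' : W →ₗ[A] Y := NT.sumMap f J ∘ₗ θ'
    have hcomp : FV.comp FV.toMG 0 (g' ∘ₗ f') = 1 := by
      apply FG.comp_eq_of
      intro k m
      rw [sub_zero]
      show FV.p k m = FV.p k (gadd (f' (FV.p k m)))
      by_cases hk : k ∈ K
      · rw [hgp, if_pos hk, ht k (hKJ k hk)]
        have h1 : FU.p k (θ' (FV.p k m)) = θ' (FV.p k m) := by
          rw [hθ', FV.p_self]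
        have h2 := hUk k (hKJ k hk) _ h1
        have h3 : sj k (hKJ k hk) (f' (FV.p k m)) = θ' (FV.p k m) := h2.symm
        rw [h3, hμθ']
      · rw [hK k hk, hK k hk]
    have hbij := hV.bij_of_indec hY f' g' (by rw [hcomp]; exact Function.bijective_id)
    exact ⟨FV.toMG.transport (LinearEquiv.ofBijective f' hbij)⟩

end main

end Pool.Agent.H3.Graded
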