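import Pool.Agent.H3.GradedBasic

/-!
# Graded summands

Helper file (helper3).
-/

namespace Pool.Agent.H3.Graded

universe u v w

variable {A : Type u} [Ring A] {g : RG A}

/-- indecomposable module -/
def Indec (A : Type u) [Ring A] (N : Type v) [AddCommGroup N] [Module A N] : Prop :=
  (∃ m : N, m ≠ 0) ∧ ∀ e : N →ₗ[A] N, e ∘ₗ e = e → e = 0 ∨ e = 1

/-- trivial grading of a ring -/
def RG.triv (A : Type u) [Ring A] : RG A where
  q j := if j = 0 then AddMonoidHom.id A else 0
  qq i j a := by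
    by_cases hj : j = 0
    · subst hj
      by_cases hi : i = 0
      · subst hi; simp
      · simp [hi]
    · by_cases hi : i = 0
      · subst hi; simp [hj, Ne.symm hj]
      · simp [hi, hj]
  dec a := ⟨{0}, fun j hj => by
    have : ¬ j = 0 := by simpa using hj
    simp [this], by simp⟩
  mul i j a b ha hb := by
    by_cases hi : i = 0
    · by_cases hj : j = 0
      · subst hi; subst hj; simp
      · rw [if_neg hj] at hb
        have : b = 0 := by simpa using hb.symm
        simp [this]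
    · rw [if_neg hi] at ha
      have : a = 0 := by simpa using ha.symm
      simp [this]
  one := by simp

/-- trivial grading of a module -/
def FG.triv (A : Type u) [Ring A] (N : Type v) [AddCommGroup N] [Module A N] :
    FG (RG.triv A) N where
  p j := if j = 0 then AddMonoidHom.id N else 0
  pp i j a := by
    by_cases hj : j = 0
    · subst hj
      by_cases hi : i = 0
      · subst hi; simp
      · simp [hi]
    · by_cases hi : i = 0
      · subst hi; simp [hj, Ne.symm hj]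
      · simp [hi, hj]
  dec a := ⟨{0}, fun j hj => by
    have : ¬ j = 0 := by simpa using hj
    simp [this], by simp⟩
  smul i j a m ha hm := by
    by_cases hi : i = 0
    · by_cases hj : j = 0
      · subst hi; subst hj; simp
      · rw [if_neg hj] at hm
        have : m = 0 := by simpa using hm.symm
        simp [this]
    · have ha' : (if i = 0 then AddMonoidHom.id A else 0) a = a := ha
      rw [if_neg hi] at ha'
      have : a = 0 := by simpa using ha'.symm
      simp [this]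
  S := {0}
  hS j hj m := by
    have : ¬ j = 0 := by simpa using hj
    simp [this]

theorem Indec.bij_or_nil {N : Type v} [AddCommGroup N] [Module A N] [IsArtinian A N]
    [IsNoetherian A N] (hN : Indec A N) (z : N →ₗ[A] N) :
    Function.Bijective z ∨ ∃ n, z ^ n = 0 := by
  have h1 : FG.GrIndec (FG.triv A N) := ⟨hN.1, fun e _ he => hN.2 e he⟩
  apply h1.bij_or_nil
  intro k m
  show (if k = 0 then AddMonoidHom.id N else 0) (z m) = z ((if k = 0 then AddMonoidHom.id N else 0) m)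
  split_ifs <;> simp

namespace FG

/-- existence of a graded indecomposable part on which `ψ` is split -/
theorem exists_indec {C : Type v} [AddCommGroup C] [Module A C] [IsArtinian A C]
    [IsNoetherian A C] (F : FG g C) {ψ : C →ₗ[A] C} (h : MG.IsGr F.toMG F.toMG ψ)
    (hnil : ∀ n, ψ ^ n ≠ 0) :
    ∃ (W : Submodule A C) (hW : ∀ k, ∀ m ∈ W, F.p k m ∈ W) (l : C →ₗ[A] W),
      GrIndec (F.sub W hW) ∧ MG.IsGr F.toMG (F.sub W hW).toMG l ∧ ∀ w : W, l (ψ w) = w := by
  let 𝒲 : Set (Submodule A C) := {W | W ≠ ⊥ ∧ ∃ (hW : ∀ k, ∀ m ∈ W, F.p k m ∈ W)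
    (l : C →ₗ[A] W), MG.IsGr F.toMG (F.sub W hW).toMG l ∧ ∀ w : W, l (ψ w) = w}
  have hne : 𝒲.Nonempty := by
    obtain ⟨n, W, hW, ρ, hmem, hρ, hρφ, _⟩ := exists_fitting F h
    refine ⟨W, ?_, hW, ρ, hρ, hρφ⟩
    intro hbot
    apply hnil n
    ext v
    have : (ψ ^ n) v ∈ W := (hmem _).2 ⟨v, rfl⟩
    rw [hbot] at this
    exact (Submodule.mem_bot A).1 this
  obtain ⟨W, ⟨hWb, hW, l, hl, hlψ⟩, hmin⟩ := IsArtinian.set_has_minimal 𝒲 hne
  refine ⟨W, hW, l, ⟨?_, ?_⟩, hl, hlψ⟩
  · obtain ⟨m, hm, hm0⟩ := Submodule.exists_mem_ne_zero_of_ne_bot hWb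
    exact ⟨⟨m, hm⟩, fun h0 => hm0 (congrArg Subtype.val h0)⟩
  · intro e he hee
    by_contra hcon
    push Not at hcon
    obtain ⟨he0, he1⟩ := hcon
    let W' : Submodule A C := (LinearMap.range e).map W.subtype
    have hW'W : W' ≤ W := Submodule.map_subtype_le W _
    have hmemW' : ∀ w : W, (e w : C) ∈ W' := fun w => ⟨e w, ⟨w, rfl⟩, rfl⟩
    have hW' : ∀ k, ∀ m ∈ W', F.p k m ∈ W' := by
      rintro k _ ⟨_, ⟨w, rfl⟩, rfl⟩
      have := he k w
      have h2 : F.p k (e w : C) = (e ((F.sub W hW).p k w) : C) := congrArg Subtype.val this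
      show F.p k (e w : C) ∈ W'
      rw [h2]
      exact hmemW' _
    let l' : C →ₗ[A] W' := LinearMap.codRestrict W' (W.subtype ∘ₗ e ∘ₗ l) (fun c => hmemW' (l c))
    have hin : W' ∈ 𝒲 := by
      refine ⟨?_, hW', l', ?_, ?_⟩
      · intro hbot
        apply he0
        ext w
        have := hmemW' w
        rw [hbot] at this
        exact (Submodule.mem_bot A).1 this
      · intro k m
        apply Subtype.ext
        show F.p k (e (l m) : C) = (e (l (F.p k m)) : C)
        rw [← hl]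
        exact congrArg Subtype.val (he k (l m))
      · rintro ⟨_, ⟨_, ⟨w, rfl⟩, rfl⟩⟩
        apply Subtype.ext
        show (e (l (ψ (e w : C))) : C) = (e w : C)
        rw [hlψ]
        exact congrArg Subtype.val (LinearMap.congr_fun hee w)
    apply hmin W' hin
    refine lt_of_le_of_ne hW'W ?_
    intro heq
    apply he1
    ext w
    have hw : (w : C) ∈ W' := by rw [heq]; exact w.2
    obtain ⟨_, ⟨w', rfl⟩, hw'⟩ := hw
    have h3 : e w' = w := Subtype.ext hw'
    rw [← h3]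
    exact congrArg Subtype.val (LinearMap.congr_fun hee w')

/-- the key lemma: a map pair with `Φ ∘ p₀ ∘ G = 1` produces a graded indecomposable piece -/
theorem exists_piece {C : Type v} [AddCommGroup C] [Module A C] [IsArtinian A C]
    [IsNoetherian A C] (F : FG g C) {N : Type w} [AddCommGroup N] [Module A N]
    (Φ : C →ₗ[A] N) (Γ : N →ₗ[A] C) (h : ∀ n, Φ (F.p 0 (Γ n)) = n) (hN : ∃ n : N, n ≠ 0) :
    ∃ (W : Submodule A C) (hW : ∀ k, ∀ m ∈ W, F.p k m ∈ W) (l : C →ₗ[A] W),
      GrIndec (F.sub W hW) ∧ MG.IsGr F.toMG (F.sub W hW).toMG l ∧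
      (∀ w : W, l (F.comp F.toMG 0 (Γ ∘ₗ Φ) w) = w) ∧
      (F.sub W hW).comp (F.sub W hW).toMG 0 ((l ∘ₗ Γ) ∘ₗ (Φ ∘ₗ W.subtype)) = 1 := by
  have hgr := comp_zero_gr F F.toMG (Γ ∘ₗ Φ)
  have hnil : ∀ k, (F.comp F.toMG 0 (Γ ∘ₗ Φ)) ^ k ≠ 0 := by
    obtain ⟨n, hn⟩ := hN
    have hfix : F.comp F.toMG 0 (Γ ∘ₗ Φ) (F.p 0 (Γ n)) = F.p 0 (Γ n) := by
      rw [comp_p, add_zero, p_comp, sub_zero, LinearMap.comp_apply, h]
    have hfixk : ∀ k, ((F.comp F.toMG 0 (Γ ∘ₗ Φ)) ^ k) (F.p 0 (Γ n)) = F.p 0 (Γ n) := by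
      intro k
      induction k with
      | zero => rfl
      | succ k ih => rw [pow_succ, Module.End.mul_apply, hfix, ih]
    intro k h0
    have := hfixk k
    rw [h0, LinearMap.zero_apply] at this
    apply hn
    rw [← h n, ← this, map_zero]
  obtain ⟨W, hW, l, h1, h2, h3⟩ := exists_indec F hgr hnil
  refine ⟨W, hW, l, h1, h2, h3, ?_⟩
  apply comp_eq_of
  intro k m
  rw [sub_zero]
  show (F.sub W hW).p k m = (F.sub W hW).p k (l (Γ (Φ (((F.sub W hW).p k m : W) : C))))
  rw [h2, sub_p]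
  have h4 : F.p k (Γ (Φ (F.p k m.1))) = F.p k (F.comp F.toMG 0 (Γ ∘ₗ Φ) m.1) := by
    rw [p_comp, sub_zero]; rfl
  rw [h4, ← h2, h3]

section GG

variable {V : Type v} [AddCommGroup V] [Module A V] [IsArtinian A V] [IsNoetherian A V]

/-- Transport of the bijectivity of the degree zero component along a shift isomorphism. -/
theorem comp_zero_conj {V' : Type w} [AddCommGroup V'] [Module A V'] (F : FG g V) (F' : FG g V')
    (θ : V' ≃ₗ[A] V) (i : ℤ) (hθ : ∀ k m, θ (F'.p k m) = F.p (k + i) (θ m))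
    (z : V' →ₗ[A] V') (hz : F'.comp F'.toMG 0 z = 1) :
    F.comp F.toMG 0 (θ.toLinearMap ∘ₗ z ∘ₗ θ.symm.toLinearMap) = 1 := by
  apply comp_eq_of
  intro k m
  rw [sub_zero]
  show F.p k m = F.p k (θ (z (θ.symm (F.p k m))))
  have h1 : θ.symm (F.p k m) = F'.p (k - i) (θ.symm m) := by
    apply θ.injective
    rw [hθ, θ.apply_symm_apply, θ.apply_symm_apply, show k - i + i = k by ring]
  have h2 : ∀ y, F.p k (θ y) = θ (F'.p (k - i) y) := by
    intro y
    rw [hθ, show k - i + i = k by ring]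
  rw [h1, h2]
  have h3 : F'.p (k - i) (z (F'.p (k - i) (θ.symm m))) =
      F'.p (k - i) (F'.comp F'.toMG 0 z (θ.symm m)) := by
    rw [p_comp, sub_zero]
  rw [h3, hz]
  show F.p k m = θ (F'.p (k - i) (θ.symm m))
  rw [← h1, θ.apply_symm_apply]

/-- a graded indecomposable summand of a sum of shifts of `V` is a shift of `V` -/
theorem GrIndec.shift_of_pi {F : FG g V} (hF : GrIndec F) {V' : Type w} [AddCommGroup V']
    [Module A V'] [IsArtinian A V'] [IsNoetherian A V'] (I : Finset ℤ) (F' : FG g V')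
    (hF' : GrIndec F')
    (α : V' →ₗ[A] (I → V)) (β : (I → V) →ₗ[A] V') (hα : MG.IsGr F'.toMG (F.pi I).toMG α)
    (hβ : MG.IsGr (F.pi I).toMG F'.toMG β) (hβα : ∀ w, β (α w) = w) :
    ∃ (i : ℤ) (θ : V' ≃ₗ[A] V), ∀ k m, θ (F'.p k m) = F.p (k + i) (θ m) := by
  classical
  let θ : I → V' →ₗ[A] V := fun i => LinearMap.proj i ∘ₗ α
  let μ : I → V →ₗ[A] V' := fun i => β ∘ₗ LinearMap.single A (fun _ => V) i
  have hθ : ∀ i k m, θ i (F'.p k m) = F.p (k + i.1) (θ i m) := by
    intro i k m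
    show α (F'.p k m) i = F.p (k + i.1) (α m i)
    rw [← hα]
    rfl
  have hμ : ∀ (i : I) k m, μ i (F.p (k + i.1) m) = F'.p k (μ i m) := by
    intro i k m
    show β (Pi.single i (F.p (k + i.1) m)) = F'.p k (β (Pi.single i m))
    rw [hβ]
    congr 1
    funext l
    rw [pi_p]
    by_cases hl : l = i
    · subst hl
      rw [Pi.single_eq_same, Pi.single_eq_same]
    · rw [Pi.single_eq_of_ne hl, Pi.single_eq_of_ne hl, map_zero]
  have hgr : ∀ i, MG.IsGr F'.toMG F'.toMG (μ i ∘ₗ θ i) := by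
    intro i k m
    show F'.p k (μ i (θ i m)) = μ i (θ i (F'.p k m))
    rw [hθ, hμ]
  have hsum : (∑ i, μ i ∘ₗ θ i : V' →ₗ[A] V') = 1 := by
    ext w
    rw [LinearMap.sum_apply]
    show ∑ i, β (Pi.single i (α w i)) = w
    rw [← map_sum]
    have : ∑ i, (Pi.single i (α w i) : I → V) = α w := by
      funext l
      rw [Finset.sum_apply, Finset.sum_eq_single l]
      · rw [Pi.single_eq_same]
      · intro b _ hb
        rw [Pi.single_eq_of_ne (Ne.symm hb)]
      · intro h; exact absurd (Finset.mem_univ _) h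
    rw [this, hβα]
  have hb1 : Function.Bijective (∑ i, μ i ∘ₗ θ i : V' →ₗ[A] V') := by
    rw [hsum]; exact Function.bijective_id
  obtain ⟨i, _, hbi⟩ := hF'.bij_of_sum Finset.univ (fun i _ => hgr i) hb1
  let ε := LinearEquiv.ofBijective (μ i ∘ₗ θ i) hbi
  have hε : MG.IsGr F'.toMG F'.toMG ε.symm.toLinearMap := isGr_symm ε (hgr i)
  let e : V →ₗ[A] V := θ i ∘ₗ ε.symm.toLinearMap ∘ₗ μ i
  have hegr : MG.IsGr F.toMG F.toMG e := by
    intro k m
    have h1 : μ i (F.p k m) = F'.p (k - i.1) (μ i m) := by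
      have := hμ i (k - i.1) m
      rwa [show k - i.1 + i.1 = k by ring] at this
    show F.p k (θ i (ε.symm (μ i m))) = θ i (ε.symm (μ i (F.p k m)))
    have h2 : ε.symm (F'.p (k - i.1) (μ i m)) = F'.p (k - i.1) (ε.symm (μ i m)) :=
      (hε (k - i.1) (μ i m)).symm
    rw [h1, h2, hθ, show k - i.1 + i.1 = k by ring]
  have hμθ : ∀ w, μ i (θ i w) = ε w := fun w => rfl
  have hee : e ∘ₗ e = e := by
    ext m
    show θ i (ε.symm (μ i (θ i (ε.symm (μ i m))))) = θ i (ε.symm (μ i m))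
    rw [hμθ, LinearEquiv.symm_apply_apply]
  have hinj : Function.Injective (θ i) := by
    have := hbi.1
    rw [LinearMap.coe_comp] at this
    exact this.of_comp
  have he0 : e ≠ 0 := by
    intro h0
    obtain ⟨w, hw⟩ := hF'.1
    apply hw
    apply hinj
    have h1 : e (θ i w) = θ i w := by
      show θ i (ε.symm (μ i (θ i w))) = θ i w
      rw [hμθ, LinearEquiv.symm_apply_apply]
    rw [map_zero, ← h1, h0, LinearMap.zero_apply]
  have he1 : e = 1 := by
    rcases hF.2 e hegr hee with h | h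
    · exact absurd h he0
    · exact h
  have hsurj : Function.Surjective (θ i) := by
    intro m
    refine ⟨ε.symm (μ i m), ?_⟩
    have : e m = m := by rw [he1]; rfl
    exact this
  exact ⟨i.1, LinearEquiv.ofBijective (θ i) ⟨hinj, hsurj⟩, fun k m => hθ i k m⟩

omit [IsArtinian A V] [IsNoetherian A V] in
theorem pi_sum_eq (F : FG g V) {N : Type w} [AddCommGroup N] [Module A N] (x : V →ₗ[A] N)
    (m : V) : ∑ i : F.S, x (F.p (0 + i.1) m) = x m := by
  have h1 : ∑ i : F.S, x (F.p (0 + i.1) m) = ∑ i ∈ F.S, x (F.p i m) := by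
    rw [← Finset.sum_coe_sort F.S (fun i => x (F.p i m))]
    exact Finset.sum_congr rfl (fun i _ => by rw [zero_add])
  rw [h1, ← map_sum, F.sum_p]

/-- Graded indecomposable modules have only trivial ungraded idempotents: a nonzero idempotent has
bijective degree zero component. -/
theorem GrIndec.idem {F : FG g V} (hF : GrIndec F) {x : V →ₗ[A] V} (hx : x ∘ₗ x = x)
    (hx0 : x ≠ 0) : Function.Bijective (F.comp F.toMG 0 x) := by
  classical
  let N := LinearMap.range x
  let x' : V →ₗ[A] N := x.rangeRestrict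
  let Φ : (F.S → V) →ₗ[A] N := ∑ i, x' ∘ₗ LinearMap.proj i
  let Γ : N →ₗ[A] (F.S → V) := LinearMap.pi (fun _ => N.subtype)
  have hx' : ∀ n : N, x' n.1 = n := by
    rintro ⟨_, m, rfl⟩
    apply Subtype.ext
    exact LinearMap.congr_fun hx m
  have hΦ : ∀ c, Φ c = ∑ i, x' (c i) := by
    intro c
    show (∑ i, x' ∘ₗ LinearMap.proj i : (F.S → V) →ₗ[A] N) c = _
    rw [LinearMap.sum_apply]
    rfl
  have h : ∀ n, Φ ((F.pi F.S).p 0 (Γ n)) = n := by
    intro n
    rw [hΦ]
    have : ∀ i, (F.pi F.S).p 0 (Γ n) i = F.p (0 + i.1) n.1 := fun i => rfl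
    simp only [this]
    rw [pi_sum_eq, hx']
  have hN : ∃ n : N, n ≠ 0 := by
    by_contra hcon
    push Not at hcon
    apply hx0
    ext m
    exact congrArg Subtype.val (hcon ⟨x m, m, rfl⟩)
  obtain ⟨W, hW, l, hind, hl, hlψ, hcomp⟩ := exists_piece (F.pi F.S) Φ Γ h hN
  have hψgr := comp_zero_gr (F.pi F.S) (F.pi F.S).toMG (Γ ∘ₗ Φ)
  obtain ⟨i, θ, hθ⟩ := hF.shift_of_pi F.S ((F.pi F.S).sub W hW) hind
    ((F.pi F.S).comp (F.pi F.S).toMG 0 (Γ ∘ₗ Φ) ∘ₗ W.subtype) l
    (by
      intro k m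
      show (F.pi F.S).p k ((F.pi F.S).comp (F.pi F.S).toMG 0 (Γ ∘ₗ Φ) m.1) = _
      rw [hψgr]
      rfl) hl hlψ
  have hz := comp_zero_conj F ((F.pi F.S).sub W hW) θ i hθ _ hcomp
  let a : V →ₗ[A] V := N.subtype ∘ₗ (Φ ∘ₗ W.subtype) ∘ₗ θ.symm.toLinearMap
  let b : V →ₗ[A] V := θ.toLinearMap ∘ₗ (l ∘ₗ Γ) ∘ₗ x'
  have hba : b ∘ₗ a = θ.toLinearMap ∘ₗ ((l ∘ₗ Γ) ∘ₗ (Φ ∘ₗ W.subtype)) ∘ₗ θ.symm.toLinearMap := by
    ext m
    show θ ((l ∘ₗ Γ) (x' ((Φ ∘ₗ W.subtype) (θ.symm m) : N))) = _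
    rw [hx']
    rfl
  have hT : Function.Bijective (F.comp F.toMG 0 (b ∘ₗ a)) := by
    rw [hba, hz]
    exact Function.bijective_id
  have hTa := ((hF.bij_comp_zero b a).1 hT).2
  have hxa : x ∘ₗ a = a := by
    ext m
    show x ((Φ ∘ₗ W.subtype) (θ.symm m) : N).1 = ((Φ ∘ₗ W.subtype) (θ.symm m) : N).1
    exact congrArg Subtype.val (hx' _)
  rw [← hxa] at hTa
  exact ((hF.bij_comp_zero x a).1 hTa).1

/-- If `V` is graded indecomposable, `N` is indecomposable and `g ∘ f : V → N → V` has bijective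
degree zero component, then `f` is bijective. -/
theorem GrIndec.bij_of_indec {F : FG g V} (hF : GrIndec F) {N : Type w} [AddCommGroup N]
    [Module A N] [IsArtinian A N] [IsNoetherian A N] (hN : Indec A N) (f : V →ₗ[A] N)
    (r : N →ₗ[A] V) (h : Function.Bijective (F.comp F.toMG 0 (r ∘ₗ f))) :
    Function.Bijective f := by
  have hcz : ∀ z : V →ₗ[A] V, z = 0 → ¬ Function.Bijective (F.comp F.toMG 0 z) := by
    rintro z rfl hb
    have : F.comp F.toMG 0 (0 : V →ₗ[A] V) = 0 := by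
      apply comp_eq_of
      intro k m
      simp
    rw [this] at hb
    exact hF.not_bij_zero hb
  have hpow : ∀ n, Function.Bijective (F.comp F.toMG 0 ((r ∘ₗ f : Module.End A V) ^ (n + 1))) := by
    intro n
    induction n with
    | zero => rw [zero_add, pow_one]; exact h
    | succ n ih =>
      rw [pow_succ]
      exact (hF.bij_comp_zero _ _).2 ⟨ih, h⟩
  rcases hN.bij_or_nil (f ∘ₗ r) with hb | ⟨n, hn⟩
  · let e := LinearEquiv.ofBijective (f ∘ₗ r) hb
    let y : V →ₗ[A] V := r ∘ₗ e.symm.toLinearMap ∘ₗ f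
    have hfr : ∀ n, f (r n) = e n := fun n => rfl
    have hyy : y ∘ₗ y = y := by
      ext m
      show r (e.symm (f (r (e.symm (f m))))) = r (e.symm (f m))
      rw [hfr, LinearEquiv.symm_apply_apply]
    have hyrf : y ∘ₗ (r ∘ₗ f) = r ∘ₗ f := by
      ext m
      show r (e.symm (f (r (f m)))) = r (f m)
      rw [hfr, LinearEquiv.symm_apply_apply]
    have hTy : Function.Bijective (F.comp F.toMG 0 y) := by
      rw [← hyrf] at h
      exact ((hF.bij_comp_zero y (r ∘ₗ f)).1 h).1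
    have hx0 : (1 - y : Module.End A V) = 0 := by
      by_contra hne
      have hxx : (1 - y : Module.End A V) ∘ₗ (1 - y : Module.End A V) = 1 - y := by
        ext m
        have := LinearMap.congr_fun hyy m
        have h2 : y (y m) = y m := this
        show (m - y m) - y (m - y m) = m - y m
        rw [map_sub, h2, sub_self, sub_zero]
      have hTx := hF.idem hxx hne
      have hxy : (1 - y : Module.End A V) ∘ₗ y = 0 := by
        ext m
        have h2 : y (y m) = y m := LinearMap.congr_fun hyy m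
        show y m - y (y m) = 0
        rw [h2, sub_self]
      exact hcz _ hxy ((hF.bij_comp_zero _ _).2 ⟨hTx, hTy⟩)
    have hy1 : ∀ m, y m = m := by
      intro m
      have : (1 - y : Module.End A V) m = 0 := by rw [hx0]; rfl
      have h2 : m - y m = 0 := this
      exact (sub_eq_zero.1 h2).symm
    refine ⟨?_, ?_⟩
    · intro m m' hm
      rw [← hy1 m, ← hy1 m']
      show r (e.symm (f m)) = r (e.symm (f m'))
      rw [hm]
    · have := hb.2
      rw [LinearMap.coe_comp] at this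
      exact this.of_comp
  · exfalso
    have hpw : ∀ k, ((r ∘ₗ f : Module.End A V) ^ (k + 1)) =
        r ∘ₗ (((f ∘ₗ r : Module.End A N) ^ k) ∘ₗ f) := by
      intro k
      induction k with
      | zero => rfl
      | succ k ih =>
        rw [pow_succ, ih]
        ext m
        show r (((f ∘ₗ r : Module.End A N) ^ k) (f (r (f m)))) =
          r (((f ∘ₗ r : Module.End A N) ^ (k + 1)) (f m))
        rw [pow_succ]
        rfl
    apply hcz _ _ (hpow n)
    rw [hpw, hn]
    ext m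
    show r 0 = 0
    exact map_zero r

/-- the main conclusion: an indecomposable module `N` with maps `Φ : C → N`, `Γ : N → C` such that
`Φ ∘ p₀ ∘ Γ = 1`, for a graded module `C`, is isomorphic to a graded submodule of `C`. -/
theorem exists_graded_iso {C : Type v} [AddCommGroup C] [Module A C] [IsArtinian A C]
    [IsNoetherian A C] (F : FG g C) {N : Type w} [AddCommGroup N] [Module A N]
    [IsArtinian A N] [IsNoetherian A N] (hN : Indec A N)
    (Φ : C →ₗ[A] N) (Γ : N →ₗ[A] C) (h : ∀ n, Φ (F.p 0 (Γ n)) = n) :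
    ∃ (W : Submodule A C) (hW : ∀ k, ∀ m ∈ W, F.p k m ∈ W) (l : C →ₗ[A] W),
      GrIndec (F.sub W hW) ∧ MG.IsGr F.toMG (F.sub W hW).toMG l ∧
      (∀ w : W, l (F.comp F.toMG 0 (Γ ∘ₗ Φ) w) = w) ∧
      Function.Bijective (Φ ∘ₗ W.subtype) := by
  obtain ⟨W, hW, l, h1, h2, h3, h4⟩ := exists_piece F Φ Γ h hN.1
  refine ⟨W, hW, l, h1, h2, h3, ?_⟩
  apply h1.bij_of_indec hN (Φ ∘ₗ W.subtype) (l ∘ₗ Γ)
  rw [h4]
  exact Function.bijective_id

end GG

end FG

end Pool.Agent.H3.Graded
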