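import Pool.Agent.H3.GradedApprox

/-!
# The width of graded indecomposable modules

Helper file (helper3).
-/

namespace Pool.Agent.H3.Graded

universe u v w x

variable {A : Type u} [Ring A]

namespace FG

section connected
variable (f : FRG A) {V : Type v} [AddCommGroup V] [Module A V]

theorem filt_sum {g : RG A} (F : FG g V) (P : ℤ → Prop) [DecidablePred P] (l : ℤ) (m : V) :
    F.p l (∑ k ∈ F.S.filter P, F.p k m) = if P l then F.p l m else 0 := by
  rw [map_sum]
  have : ∀ j ∈ F.S.filter P, F.p l (F.p j m) = if l = j then F.p j m else 0 :=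
    fun j _ => F.pp l j m
  rw [Finset.sum_congr rfl this, Finset.sum_ite_eq]
  by_cases hP : P l
  · rw [if_pos hP]
    by_cases hl : l ∈ F.S
    · rw [if_pos (Finset.mem_filter.2 ⟨hl, hP⟩)]
    · rw [if_neg (fun h => hl (Finset.mem_filter.1 h).1), F.hS l hl]
  · rw [if_neg hP, if_neg (fun h => hP (Finset.mem_filter.1 h).2)]

theorem GrIndec.connected {F : FG f.toRG V} (hF : GrIndec F) {ε B : ℤ}
    (hB : ∀ k ∈ f.S, ε * k ≤ B ∧ -B ≤ ε * k) {a : ℤ} {k0 j : ℤ} {v0 v : V}
    (hk0 : F.p k0 v0 ≠ 0) (hk0a : ε * k0 ≤ a) (hj : F.p j v ≠ 0) (hja : a + B < ε * j)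
    (hB0 : 0 ≤ B) :
    ∃ (k : ℤ) (w : V), a < ε * k ∧ ε * k ≤ a + B ∧ F.p k w ≠ 0 := by
  classical
  by_contra hcon
  push Not at hcon
  let P : ℤ → Prop := fun k => ε * k ≤ a
  let eAdd : V →+ V := ∑ k ∈ F.S.filter P, F.p k
  have heAdd : ∀ m, eAdd m = ∑ k ∈ F.S.filter P, F.p k m := by
    intro m
    show (∑ k ∈ F.S.filter P, F.p k : V →+ V) m = _
    rw [AddMonoidHom.finsetSum_apply]
  have hp : ∀ l m, F.p l (eAdd m) = if P l then F.p l m else 0 := by
    intro l m
    rw [heAdd, filt_sum]
  let e : V →ₗ[A] V :=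
    { toFun := eAdd
      map_add' := map_add _
      map_smul' := by
        intro a' m
        show eAdd (a' • m) = a' • eAdd m
        apply MG.lin_of_hom f.toRG
        intro i b hb m
        apply F.toMG.ext_p
        intro l
        rw [hp, F.p_smul hb, F.p_smul hb, hp]
        by_cases hi : i ∈ f.S
        · obtain ⟨h1, h2⟩ := hB i hi
          have h3 : ε * (l - i) = ε * l - ε * i := by ring
          by_cases hl : P l
          · rw [if_pos hl]
            by_cases hl' : P (l - i)
            · rw [if_pos hl']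
            · rw [if_neg hl']
              have h4 : a < ε * (l - i) := not_le.1 hl'
              have h5 : ε * l ≤ a := hl
              rw [hcon (l - i) m h4 (by linarith)]
          · rw [if_neg hl]
            by_cases hl' : P (l - i)
            · rw [if_pos hl']
              have h4 : a < ε * l := not_le.1 hl
              have h5 : ε * (l - i) ≤ a := hl'
              have h6 := hcon l (b • m) h4 (by linarith)
              rw [F.p_smul hb] at h6
              exact h6.symm
            · rw [if_neg hl', smul_zero]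
        · have hb0 : b = 0 := by rw [← hb, f.hS i hi]
          rw [hb0, zero_smul, zero_smul, ite_self] }
  have hegr : MG.IsGr F.toMG F.toMG e := by
    intro k m
    show F.p k (eAdd m) = eAdd (F.p k m)
    apply F.toMG.ext_p
    intro l
    rw [F.pp, hp, hp, F.pp]
    by_cases hlk : l = k
    · subst hlk
      rw [if_pos rfl, if_pos rfl]
    · rw [if_neg hlk, if_neg hlk, ite_self]
  have hee : e ∘ₗ e = e := by
    ext m
    show eAdd (eAdd m) = eAdd m
    apply F.toMG.ext_p
    intro l
    rw [hp, hp]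
    split_ifs <;> rfl
  rcases hF.2 e hegr hee with h | h
  · apply hk0
    have h1 : eAdd v0 = 0 := LinearMap.congr_fun h v0
    have h2 := hp k0 v0
    rw [h1, map_zero, if_pos hk0a] at h2
    exact h2.symm
  · apply hj
    have h1 : eAdd v = v := LinearMap.congr_fun h v
    have h2 := hp j v
    have h3 : ¬ P j := by
      show ¬ ε * j ≤ a
      rw [not_le]
      linarith
    rw [h1, if_neg h3] at h2
    exact h2

theorem GrIndec.series {F : FG f.toRG V} (hF : GrIndec F) {ε B : ℤ}
    (hB : ∀ k ∈ f.S, ε * k ≤ B ∧ -B ≤ ε * k) (hB0 : 0 ≤ B) {v0 : V} (hv0 : F.p 0 v0 ≠ 0) :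
    ∀ n : ℕ, ∀ {j : ℤ} {v : V}, F.p j v ≠ 0 → 2 * B * n < ε * j →
      ∃ N : Submodule A V, (n : ℕ∞) ≤ Order.height N ∧
        ∀ y ∈ N, ∀ k, 2 * B * n < ε * k → F.p k y = 0 := by
  intro n
  induction n with
  | zero =>
    intro j v _ _
    refine ⟨⊥, by simp, ?_⟩
    intro y hy k _
    rw [(Submodule.mem_bot A).1 hy, map_zero]
  | succ n ih =>
    intro j v hj hjn
    push_cast at hjn
    have hBn : 0 ≤ 2 * B * (n : ℤ) := by positivity
    obtain ⟨N, hN, hNk⟩ := ih hj (by nlinarith)
    obtain ⟨k, w, hk1, hk2, hkw⟩ := hF.connected f hB hv0 (a := 2 * B * (n : ℤ))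
      (by rw [mul_zero]; exact hBn) hj (by nlinarith) hB0
    refine ⟨N ⊔ Submodule.span A {F.p k w}, ?_, ?_⟩
    · have hlt : N < N ⊔ Submodule.span A {F.p k w} := by
        refine lt_of_le_of_ne le_sup_left ?_
        intro heq
        have h1 : F.p k w ∈ N := by
          rw [heq]
          exact Submodule.mem_sup_right (Submodule.mem_span_singleton_self _)
        apply hkw
        rw [← F.p_self]
        exact hNk _ h1 k hk1
      have h2 := Order.height_add_one_le hlt
      push_cast
      exact le_trans (add_le_add_left hN 1) h2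
    · intro y hy l hl
      push_cast at hl
      obtain ⟨y1, hy1, y2, hy2, rfl⟩ := Submodule.mem_sup.1 hy
      obtain ⟨b, rfl⟩ := Submodule.mem_span_singleton.1 hy2
      rw [map_add, hNk y1 hy1 l (by nlinarith), zero_add,
        F.toMG.p_smul_hom (F.p_self k w)]
      have h3 : l - k ∉ f.S := by
        intro h4
        have h5 := (hB _ h4).1
        have h6 : ε * (l - k) = ε * l - ε * k := by ring
        nlinarith
      rw [f.hS _ h3, zero_smul]

/-- the bound for the width -/
noncomputable def wd (B : ℤ) (A : Type u) [Ring A] (X : Type x) [AddCommGroup X] [Module A X] : ℤ :=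
  2 * B * ((Module.length A X).toNat + 1 : ℕ)

theorem GrIndec.width {F : FG f.toRG V} (hF : GrIndec F) {B : ℤ} (hB0 : 0 ≤ B)
    (hB : ∀ k ∈ f.S, |k| ≤ B) {v0 : V} (hv0 : F.p 0 v0 ≠ 0) {X : Type x} [AddCommGroup X]
    [Module A X] [IsArtinian A X] [IsNoetherian A X] (i : V →ₗ[A] X) (hi : Function.Injective i)
    {j : ℤ} {v : V} (hj : F.p j v ≠ 0) : |j| ≤ wd B A X := by
  have key : ∀ ε : ℤ, (ε = 1 ∨ ε = -1) → ε * j ≤ wd B A X := by
    intro ε hε
    by_contra hcon
    rw [not_le] at hcon
    have hB' : ∀ k ∈ f.S, ε * k ≤ B ∧ -B ≤ ε * k := by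
      intro k hk
      have := abs_le.1 (hB k hk)
      rcases hε with rfl | rfl
      · constructor <;> linarith
      · constructor <;> linarith
    obtain ⟨N, hN, _⟩ := hF.series f hB' hB0 hv0 ((Module.length A X).toNat + 1) hj hcon
    have h1 : Order.height N ≤ Module.length A V := by
      rw [Module.length_eq_height]
      exact Order.height_mono le_top
    have h2 : Module.length A V ≤ Module.length A X := Module.length_le_of_injective i hi
    have h3 : ((Module.length A X).toNat : ℕ∞) = Module.length A X :=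
      ENat.natCast_toNat Module.length_ne_top
    have h4 : (((Module.length A X).toNat + 1 : ℕ) : ℕ∞) ≤ ((Module.length A X).toNat : ℕ∞) := by
      rw [h3]
      exact le_trans hN (le_trans h1 h2)
    have h5 := ENat.natCast_le_natCast.1 h4
    omega
  rw [abs_le]
  have h1 := key 1 (Or.inl rfl)
  have h2 := key (-1) (Or.inr rfl)
  constructor <;> linarith

end connected

section indec
variable {g : RG A} {V : Type v} [AddCommGroup V] [Module A V] [IsArtinian A V]
  [IsNoetherian A V]

omit [IsArtinian A V] [IsNoetherian A V] in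
theorem comp_zero_zero (F : FG g V) : F.comp F.toMG 0 (0 : V →ₗ[A] V) = 0 := by
  apply comp_eq_of
  intro k m
  simp

/-- graded indecomposable modules are indecomposable -/
theorem GrIndec.indec {F : FG g V} (hF : GrIndec F) : Indec A V := by
  refine ⟨hF.1, fun e hee => ?_⟩
  by_contra hcon
  push Not at hcon
  have hee' : ∀ m, e (e m) = e m := LinearMap.congr_fun hee
  have h1 := hF.idem hee hcon.1
  have h2 := hF.idem (x := (1 - e : Module.End A V)) (by
    ext m
    show (m - e m) - e (m - e m) = m - e m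
    rw [map_sub, hee', sub_self, sub_zero]) (by
    intro h
    apply hcon.2
    have : (1 : Module.End A V) - e = 1 - 1 := by rw [h, sub_self]
    exact sub_right_injective this)
  have h3 : (1 - e : Module.End A V) ∘ₗ e = 0 := by
    ext m
    show e m - e (e m) = 0
    rw [hee', sub_self]
  have h4 := (hF.bij_comp_zero _ _).2 ⟨h2, h1⟩
  rw [h3, comp_zero_zero] at h4
  exact hF.not_bij_zero h4

theorem GrIndec.bij_of_comp_zero {F : FG g V} (hF : GrIndec F) (z : V →ₗ[A] V)
    (h : Function.Bijective (F.comp F.toMG 0 z)) : Function.Bijective z :=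
  hF.bij_of_indec hF.indec z LinearMap.id h

omit [IsArtinian A V] [IsNoetherian A V] in
theorem comp_sum {ι : Type*} (F : FG g V) (s : Finset ι) (z : ι → V →ₗ[A] V) :
    F.comp F.toMG 0 (∑ i ∈ s, z i) = ∑ i ∈ s, F.comp F.toMG 0 (z i) := by
  apply comp_eq_of
  intro k m
  rw [LinearMap.sum_apply, map_sum, LinearMap.sum_apply, map_sum]
  exact Finset.sum_congr rfl (fun i _ => F.p_comp F.toMG 0 (z i) k m)

/-- shift of a grading -/
def shift (F : FG g V) (i : ℤ) : FG g V where
  p k := F.p (k - i)
  pp k l m := by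
    rw [F.pp]
    by_cases h : k = l
    · rw [if_pos h, if_pos (by rw [h])]
    · rw [if_neg h, if_neg (by intro h'; exact h (by linarith))]
  dec m := by
    refine ⟨F.S.image (fun k => k + i), ?_, ?_⟩
    · intro j hj
      apply F.hS
      intro h
      exact hj (Finset.mem_image.2 ⟨j - i, h, by ring⟩)
    · rw [Finset.sum_image (fun a _ b _ h => by simpa using h)]
      have : ∀ k ∈ F.S, F.p (k + i - i) m = F.p k m := fun k _ => by
        rw [show k + i - i = k by ring]
      rw [Finset.sum_congr rfl this, F.sum_p]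
  smul k l a m ha hm := by
    have := F.smul k (l - i) a m ha hm
    rw [show k + (l - i) = k + l - i by ring] at this
    exact this
  S := F.S.image (fun k => k + i)
  hS j hj m := by
    apply F.hS
    intro h
    exact hj (Finset.mem_image.2 ⟨j - i, h, by ring⟩)

omit [IsArtinian A V] [IsNoetherian A V] in
theorem shift_p (F : FG g V) (i k : ℤ) (m : V) : (F.shift i).p k m = F.p (k - i) m := rfl

omit [IsArtinian A V] [IsNoetherian A V] in
theorem GrIndec.shift {F : FG g V} (hF : GrIndec F) (i : ℤ) : GrIndec (F.shift i) := by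
  refine ⟨hF.1, fun e he hee => hF.2 e ?_ hee⟩
  intro k m
  have := he (k + i) m
  rw [shift_p, shift_p, show k + i - i = k by ring] at this
  exact this

/-- a graded indecomposable summand of a finite sum of shifts of `Q` is, up to a shift, a graded
summand of `Q` -/
theorem GrIndec.factor {Q : Type w} [AddCommGroup Q] [Module A Q] {F : FG g V} (hF : GrIndec F)
    (G : FG g Q) (I : Finset ℤ) (α : V →ₗ[A] (I → Q)) (β : (I → Q) →ₗ[A] V)
    (hα : MG.IsGr F.toMG (G.pi I).toMG α) (hβ : MG.IsGr (G.pi I).toMG F.toMG β)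
    (hβα : ∀ v, β (α v) = v) :
    ∃ (i : ℤ) (θ : V →ₗ[A] Q) (μ : Q →ₗ[A] V), MG.IsGr (F.shift i).toMG G.toMG θ ∧
      MG.IsGr G.toMG (F.shift i).toMG μ ∧ ∀ v, μ (θ v) = v := by
  classical
  let θ : I → V →ₗ[A] Q := fun i => LinearMap.proj i ∘ₗ α
  let μ : I → Q →ₗ[A] V := fun i => β ∘ₗ LinearMap.single A (fun _ => Q) i
  have hθ : ∀ i k m, θ i (F.p k m) = G.p (k + i.1) (θ i m) := by
    intro i k m
    show α (F.p k m) i = G.p (k + i.1) (α m i)
    rw [← hα]
    rfl
  have hμ : ∀ (i : I) k m, μ i (G.p (k + i.1) m) = F.p k (μ i m) := by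
    intro i k m
    show β (Pi.single i (G.p (k + i.1) m)) = F.p k (β (Pi.single i m))
    rw [hβ]
    congr 1
    funext l
    rw [pi_p]
    by_cases hl : l = i
    · subst hl
      rw [Pi.single_eq_same, Pi.single_eq_same]
    · rw [Pi.single_eq_of_ne hl, Pi.single_eq_of_ne hl, map_zero]
  have hgr : ∀ i, MG.IsGr F.toMG F.toMG (μ i ∘ₗ θ i) := by
    intro i k m
    show F.p k (μ i (θ i m)) = μ i (θ i (F.p k m))
    rw [hθ, hμ]
  have hsum : (∑ i, μ i ∘ₗ θ i : V →ₗ[A] V) = 1 := by
    ext w
    rw [LinearMap.sum_apply]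
    show ∑ i, β (Pi.single i (α w i)) = w
    rw [← map_sum]
    have : ∑ i, (Pi.single i (α w i) : I → Q) = α w := by
      funext l
      rw [Finset.sum_apply, Finset.sum_eq_single l]
      · rw [Pi.single_eq_same]
      · intro b _ hb
        rw [Pi.single_eq_of_ne (Ne.symm hb)]
      · intro h; exact absurd (Finset.mem_univ _) h
    rw [this, hβα]
  have hb1 : Function.Bijective (∑ i, μ i ∘ₗ θ i : V →ₗ[A] V) := by
    rw [hsum]; exact Function.bijective_id
  obtain ⟨i, _, hbi⟩ := hF.bij_of_sum Finset.univ (fun i _ => hgr i) hb1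
  let η := LinearEquiv.ofBijective (μ i ∘ₗ θ i) hbi
  have hη : MG.IsGr F.toMG F.toMG η.symm.toLinearMap := isGr_symm η (hgr i)
  refine ⟨i.1, θ i, η.symm.toLinearMap ∘ₗ μ i, ?_, ?_, ?_⟩
  · intro k m
    have := hθ i (k - i.1) m
    rw [show k - i.1 + i.1 = k by ring] at this
    exact this.symm
  · intro k m
    have h1 := hμ i (k - i.1) m
    rw [show k - i.1 + i.1 = k by ring] at h1
    show F.p (k - i.1) (η.symm (μ i m)) = η.symm (μ i (G.p k m))
    rw [h1]
    exact hη (k - i.1) (μ i m)
  · intro v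
    exact η.symm_apply_apply v

end indec

end FG

end Pool.Agent.H3.Graded
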