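import Pool.Agent.Q182.CylDefs

/-!
# Unfolding a tree: the groups of paths

`G` acts on a tree `T`. For subgroups `L o` of the stabilizers of representatives of the edges we
form the graph with the vertices of `T` and the edges `G ⧸ L o`, and the group of the pairs of a
group element `g` and a homotopy class of paths from `v₀` to `g v₀` in this graph.
-/

set_option autoImplicit false

namespace Pool.Agent.H3.Unf

open SimpleGraph
open Pool.Agent.Y110.FJ (permAut)
open Q182.Cyl (Est)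

section Orbits

variable (G : Type) {V : Type} [Group G] [MulAction G V] (T : SimpleGraph V)

/-- the edges up to orientation and the action of `G` -/
def oset : Setoid {p : V × V // T.Adj p.1 p.2} where
  r p q := ∃ g : G, (g • p.1.1 = q.1.1 ∧ g • p.1.2 = q.1.2) ∨
    (g • p.1.1 = q.1.2 ∧ g • p.1.2 = q.1.1)
  iseqv :=
    { refl := fun p => ⟨1, Or.inl ⟨one_smul _ _, one_smul _ _⟩⟩
      symm := by
        rintro p q ⟨g, ⟨h1, h2⟩ | ⟨h1, h2⟩⟩
        · exact ⟨g⁻¹, Or.inl ⟨by rw [← h1, inv_smul_smul], by rw [← h2, inv_smul_smul]⟩⟩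
        · exact ⟨g⁻¹, Or.inr ⟨by rw [← h2, inv_smul_smul], by rw [← h1, inv_smul_smul]⟩⟩
      trans := by
        rintro p q r ⟨g, h⟩ ⟨g', h'⟩
        refine ⟨g' * g, ?_⟩
        rw [mul_smul, mul_smul]
        rcases h with ⟨h1, h2⟩ | ⟨h1, h2⟩ <;> rcases h' with ⟨h3, h4⟩ | ⟨h3, h4⟩
        · exact Or.inl ⟨by rw [h1, h3], by rw [h2, h4]⟩
        · exact Or.inr ⟨by rw [h1, h3], by rw [h2, h4]⟩
        · exact Or.inr ⟨by rw [h1, h4], by rw [h2, h3]⟩
        · exact Or.inl ⟨by rw [h1, h4], by rw [h2, h3]⟩ }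

/-- the orbits of edges -/
abbrev Orb : Type := Quotient (oset G T)

variable {G T}

/-- the ends of the representative of an orbit -/
noncomputable def ra (o : Orb G T) : V := (Quotient.out o).1.1

/-- the ends of the representative of an orbit -/
noncomputable def rb (o : Orb G T) : V := (Quotient.out o).1.2

theorem adj_rep (o : Orb G T) : T.Adj (ra o) (rb o) := (Quotient.out o).2

/-- every edge is a translate of a representative, with one of the orientations -/
theorem exists_rep (v w : V) (h : T.Adj v w) : ∃ (o : Orb G T) (g : G),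
    (g • ra o = v ∧ g • rb o = w) ∨ (g • ra o = w ∧ g • rb o = v) := by
  have h1 : (oset G T) (Quotient.out (Quotient.mk (oset G T) ⟨(v, w), h⟩)) ⟨(v, w), h⟩ :=
    Quotient.exact (Quotient.out_eq _)
  obtain ⟨g, hg⟩ := h1
  exact ⟨_, g, hg⟩

/-- the orbit is determined by a translate of the representative -/
theorem orb_unique {o o' : Orb G T} {g g' : G}
    (h : (g • ra o = g' • ra o' ∧ g • rb o = g' • rb o') ∨
      (g • ra o = g' • rb o' ∧ g • rb o = g' • ra o')) : o = o' := by
  have h1 : (oset G T) (Quotient.out o) (Quotient.out o') := by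
    refine ⟨g'⁻¹ * g, ?_⟩
    rw [mul_smul, mul_smul]
    rcases h with ⟨h1, h2⟩ | ⟨h1, h2⟩
    · left
      exact ⟨by rw [inv_smul_eq_iff]; exact h1, by rw [inv_smul_eq_iff]; exact h2⟩
    · right
      exact ⟨by rw [inv_smul_eq_iff]; exact h1, by rw [inv_smul_eq_iff]; exact h2⟩
  rw [← Quotient.out_eq o, ← Quotient.out_eq o']
  exact Quotient.sound h1

/-- families of subgroups of the stabilizers of the representatives -/
structure Fam (G : Type) {V : Type} [Group G] [MulAction G V] (T : SimpleGraph V) where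
  L : Orb G T → Subgroup G
  le : ∀ o, L o ≤ Est G (ra o) (rb o)

/-- the edges of the unfolded graph -/
abbrev Ed (F : Fam G T) : Type := Σ o : Orb G T, G ⧸ F.L o

/-- the edge with the representative `g` -/
def ed (F : Fam G T) (o : Orb G T) (g : G) : Ed F := ⟨o, QuotientGroup.mk g⟩

theorem ed_surj {F : Fam G T} (e : Ed F) : ∃ o g, e = ed F o g := by
  obtain ⟨o, q⟩ := e
  obtain ⟨g, rfl⟩ := QuotientGroup.mk_surjective q
  exact ⟨o, g, rfl⟩

theorem ed_eq_iff {F : Fam G T} {o : Orb G T} {g g' : G} :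
    ed F o g = ed F o g' ↔ g⁻¹ * g' ∈ F.L o := by
  rw [← QuotientGroup.eq]
  constructor
  · intro h
    exact eq_of_heq (Sigma.mk.inj_iff.1 h).2
  · intro h
    exact Sigma.ext rfl (heq_of_eq h)

theorem smul_ed {F : Fam G T} (h g : G) (o : Orb G T) : h • ed F o g = ed F o (h * g) := rfl

/-- the origin of an edge -/
noncomputable def src {F : Fam G T} (e : Ed F) : V :=
  Quotient.liftOn' e.2 (fun g => g • ra e.1) (by
    intro g g' h
    have h1 : g⁻¹ * g' ∈ F.L e.1 := QuotientGroup.leftRel_apply.1 h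
    have h2 : (g⁻¹ * g') • ra e.1 = ra e.1 := (F.le e.1 h1).1
    show g • ra e.1 = g' • ra e.1
    rw [mul_smul, inv_smul_eq_iff] at h2
    exact h2.symm)

/-- the end of an edge -/
noncomputable def tgt {F : Fam G T} (e : Ed F) : V :=
  Quotient.liftOn' e.2 (fun g => g • rb e.1) (by
    intro g g' h
    have h1 : g⁻¹ * g' ∈ F.L e.1 := QuotientGroup.leftRel_apply.1 h
    have h2 : (g⁻¹ * g') • rb e.1 = rb e.1 := (F.le e.1 h1).2
    show g • rb e.1 = g' • rb e.1
    rw [mul_smul, inv_smul_eq_iff] at h2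
    exact h2.symm)

@[simp] theorem src_ed (F : Fam G T) (o : Orb G T) (g : G) : src (ed F o g) = g • ra o := rfl
@[simp] theorem tgt_ed (F : Fam G T) (o : Orb G T) (g : G) : tgt (ed F o g) = g • rb o := rfl

theorem src_smul {F : Fam G T} (h : G) (e : Ed F) : src (h • e) = h • src e := by
  obtain ⟨o, g, rfl⟩ := ed_surj e
  rw [smul_ed, src_ed, src_ed, mul_smul]

theorem tgt_smul {F : Fam G T} (h : G) (e : Ed F) : tgt (h • e) = h • tgt e := by
  obtain ⟨o, g, rfl⟩ := ed_surj e
  rw [smul_ed, tgt_ed, tgt_ed, mul_smul]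

theorem adj_ed (hadj : ∀ (g : G) (v w : V), T.Adj v w → T.Adj (g • v) (g • w)) {F : Fam G T}
    (e : Ed F) : T.Adj (src e) (tgt e) := by
  obtain ⟨o, g, rfl⟩ := ed_surj e
  exact hadj g _ _ (adj_rep o)

theorem exists_ed (F : Fam G T) (v w : V) (h : T.Adj v w) : ∃ e : Ed F,
    (src e = v ∧ tgt e = w) ∨ (src e = w ∧ tgt e = v) := by
  obtain ⟨o, g, hg⟩ := exists_rep (G := G) v w h
  exact ⟨ed F o g, hg⟩

/-- an element fixing both ends of an edge fixes it if the family is the full one -/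
theorem ed_unique_full (hinv : ∀ (g : G) (v w : V), T.Adj v w → ¬ (g • v = w ∧ g • w = v))
    {F : Fam G T} (hF : ∀ o, F.L o = Est G (ra o) (rb o)) (e e' : Ed F) :
    (src e = src e' ∧ tgt e = tgt e' → e = e') ∧ ¬ (src e = tgt e' ∧ tgt e = src e') := by
  obtain ⟨o, g, rfl⟩ := ed_surj e
  obtain ⟨o', g', rfl⟩ := ed_surj e'
  simp only [src_ed, tgt_ed]
  constructor
  · rintro ⟨h1, h2⟩
    obtain rfl : o = o' := orb_unique (Or.inl ⟨h1, h2⟩)
    rw [ed_eq_iff, hF]
    refine ⟨?_, ?_⟩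
    · show (g⁻¹ * g') • ra o = ra o
      rw [mul_smul, inv_smul_eq_iff, h1]
    · show (g⁻¹ * g') • rb o = rb o
      rw [mul_smul, inv_smul_eq_iff, h2]
  · rintro ⟨h1, h2⟩
    obtain rfl : o = o' := orb_unique (Or.inr ⟨h1, h2⟩)
    refine hinv (g'⁻¹ * g) _ _ (adj_rep o) ⟨?_, ?_⟩
    · rw [mul_smul, inv_smul_eq_iff, h1]
    · rw [mul_smul, inv_smul_eq_iff, h2]

end Orbits

section Paths

variable {G V : Type} [Group G] [MulAction G V] {T : SimpleGraph V}

/-- the words of paths in the unfolded graph -/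
inductive Pth (F : Fam G T) : FreeGroup (Ed F) → V → V → Prop
  | nil (a : V) : Pth F 1 a a
  | fwd (w : FreeGroup (Ed F)) (a : V) (e : Ed F) :
      Pth F w a (src e) → Pth F (w * FreeGroup.of e) a (tgt e)
  | bwd (w : FreeGroup (Ed F)) (a : V) (e : Ed F) :
      Pth F w a (tgt e) → Pth F (w * (FreeGroup.of e)⁻¹) a (src e)

variable {F : Fam G T}

theorem Pth.trans {w w' : FreeGroup (Ed F)} {a b c : V} (h : Pth F w a b) (h' : Pth F w' b c) :
    Pth F (w * w') a c := by
  induction h' with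
  | nil b => rwa [mul_one]
  | fwd w' b e _ ih =>
    rw [← mul_assoc]
    exact Pth.fwd _ _ _ (ih h)
  | bwd w' b e _ ih =>
    rw [← mul_assoc]
    exact Pth.bwd _ _ _ (ih h)

theorem Pth.single_fwd (e : Ed F) : Pth F (FreeGroup.of e) (src e) (tgt e) := by
  have h := Pth.fwd 1 (src e) e (Pth.nil _)
  rwa [one_mul] at h

theorem Pth.single_bwd (e : Ed F) : Pth F (FreeGroup.of e)⁻¹ (tgt e) (src e) := by
  have h := Pth.bwd 1 (tgt e) e (Pth.nil _)
  rwa [one_mul] at h

theorem Pth.symm {w : FreeGroup (Ed F)} {a b : V} (h : Pth F w a b) : Pth F w⁻¹ b a := by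
  induction h with
  | nil b => rw [inv_one]; exact Pth.nil b
  | fwd w b e _ ih =>
    rw [mul_inv_rev]
    exact (Pth.single_bwd e).trans ih
  | bwd w b e _ ih =>
    rw [mul_inv_rev, inv_inv]
    exact (Pth.single_fwd e).trans ih

theorem Pth.smul (g : G) {w : FreeGroup (Ed F)} {a b : V} (h : Pth F w a b) :
    Pth F (FreeGroup.map (fun e => g • e) w) (g • a) (g • b) := by
  induction h with
  | nil b => rw [map_one]; exact Pth.nil _
  | fwd w b e _ ih =>
    rw [map_mul, FreeGroup.map.of, ← tgt_smul]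
    refine Pth.fwd _ _ _ ?_
    rw [src_smul]
    exact ih
  | bwd w b e _ ih =>
    rw [map_mul, map_inv, FreeGroup.map.of, ← src_smul]
    refine Pth.bwd _ _ _ ?_
    rw [tgt_smul]
    exact ih

/-- a map of the edges over `T` maps paths to paths -/
theorem Pth.map {F' : Fam G T} (τ : Ed F → Ed F') (hs : ∀ e, src (τ e) = src e)
    (ht : ∀ e, tgt (τ e) = tgt e) {w : FreeGroup (Ed F)} {a b : V} (h : Pth F w a b) :
    Pth F' (FreeGroup.map τ w) a b := by
  induction h with
  | nil b => rw [map_one]; exact Pth.nil _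
  | fwd w b e _ ih =>
    rw [map_mul, FreeGroup.map.of, ← ht]
    refine Pth.fwd _ _ _ ?_
    rw [hs]
    exact ih
  | bwd w b e _ ih =>
    rw [map_mul, map_inv, FreeGroup.map.of, ← hs]
    refine Pth.bwd _ _ _ ?_
    rw [ht]
    exact ih

/-- a walk in the tree lifts -/
theorem exists_pth (F : Fam G T) {a b : V} (p : T.Walk a b) : ∃ w, Pth F w a b := by
  induction p with
  | nil => exact ⟨1, Pth.nil _⟩
  | @cons a c b h p ih =>
    obtain ⟨w, hw⟩ := ih
    obtain ⟨e, ⟨h1, h2⟩ | ⟨h1, h2⟩⟩ := exists_ed F a c h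
    · refine ⟨FreeGroup.of e * w, Pth.trans ?_ hw⟩
      rw [← h1, ← h2]
      exact Pth.single_fwd e
    · refine ⟨(FreeGroup.of e)⁻¹ * w, Pth.trans ?_ hw⟩
      rw [← h1, ← h2]
      exact Pth.single_bwd e

theorem permAut_eq {X P : Type} [Group P] [MulAction P X] (p : P) (w : FreeGroup X) :
    permAut X P p w = FreeGroup.map (fun x => p • x) w := rfl

/-- the group of the lifts -/
def Gf (F : Fam G T) (v₀ : V) : Subgroup (FreeGroup (Ed F) ⋊[permAut (Ed F) G] G) where
  carrier := {x | Pth F x.left v₀ (x.right • v₀)}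
  one_mem' := by
    show Pth F 1 v₀ ((1 : G) • v₀)
    rw [one_smul]
    exact Pth.nil _
  mul_mem' := by
    intro x y hx hy
    show Pth F (x.left * permAut (Ed F) G x.right y.left) v₀ ((x.right * y.right) • v₀)
    rw [permAut_eq, mul_smul]
    exact Pth.trans hx (Pth.smul _ hy)
  inv_mem' := by
    intro x hx
    show Pth F (permAut (Ed F) G x.right⁻¹ x.left⁻¹) v₀ (x.right⁻¹ • v₀)
    rw [permAut_eq]
    have h := Pth.smul x.right⁻¹ (Pth.symm hx)
    rwa [inv_smul_smul] at h

/-- the projection -/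
noncomputable def prj (F : Fam G T) (v₀ : V) : Gf F v₀ →* G :=
  SemidirectProduct.rightHom.comp (Gf F v₀).subtype

theorem prj_apply (F : Fam G T) (v₀ : V) (x : Gf F v₀) : prj F v₀ x = x.1.right := rfl

theorem prj_surj (hT : T.IsTree) (F : Fam G T) (v₀ : V) (g : G) :
    ∃ x : Gf F v₀, prj F v₀ x = g := by
  obtain ⟨p⟩ := hT.connected.preconnected v₀ (g • v₀)
  obtain ⟨w, hw⟩ := exists_pth F p
  exact ⟨⟨⟨w, g⟩, hw⟩, rfl⟩

end Paths

end Pool.Agent.H3.Unf
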