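import Pool.Agent.H3.UnfA

/-!
# Unfolding a tree: the universal cover and its tree structure
-/

set_option autoImplicit false

namespace Pool.Agent.H3.Unf

open SimpleGraph
open Pool.Agent.Y110.FJ (permAut)
open Q182.Cyl (Est)


/-- a graph with a rank function such that the neighbour of smaller rank is unique -/
theorem acyclic_of_rank {W : Type} (T : SimpleGraph W) (r : W → ℕ)
    (hne : ∀ v w, T.Adj v w → r v ≠ r w)
    (huniq : ∀ v w w', T.Adj v w → T.Adj v w' → r w < r v → r w' < r v → w = w') :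
    T.IsAcyclic := by
  classical
  intro u c hc
  obtain ⟨v, hv, hmax⟩ := Finset.exists_max_image c.support.toFinset r
    ⟨u, List.mem_toFinset.2 (Walk.start_mem_support c)⟩
  rw [List.mem_toFinset] at hv
  have hmax' : ∀ w ∈ c.support, r w ≤ r v := fun w hw => hmax w (List.mem_toFinset.2 hw)
  have hc' : (c.rotate v hv).IsCycle := hc.rotate hv
  have hsub : ∀ w ∈ (c.rotate v hv).support, w ∈ c.support := by
    intro w hw
    rw [Walk.rotate, Walk.mem_support_append_iff] at hw
    rcases hw with hw | hw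
    · exact Walk.support_dropUntil_subset_support _ _ hw
    · exact Walk.support_takeUntil_subset_support _ _ hw
  have h1 := (c.rotate v hv).adj_snd hc'.not_nil
  have h2 := ((c.rotate v hv).adj_penultimate hc'.not_nil).symm
  have h3 := hc'.snd_ne_penultimate
  refine h3 (huniq v _ _ h1 h2 ?_ ?_)
  · exact lt_of_le_of_ne (hmax' _ (hsub _ (Walk.getVert_mem_support _ _))) (hne _ _ h1).symm
  · exact lt_of_le_of_ne (hmax' _ (hsub _ (Walk.getVert_mem_support _ _))) (hne _ _ h2).symm

section Words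

variable {α : Type}

open Classical in
/-- the length of an element of a free group -/
noncomputable def rk (w : FreeGroup α) : ℕ := w.toWord.length

theorem rk_cons (x : α × Bool) (u : FreeGroup α) :
    rk (FreeGroup.mk [x] * u) = rk u + 1 ∨
      ∃ tl, u = FreeGroup.mk ((x.1, !x.2) :: tl) ∧ rk (FreeGroup.mk [x] * u) + 1 = rk u ∧
        ∀ y : α × Bool, rk (FreeGroup.mk [y] * u) < rk u → y = x := by
  classical
  have key : ∀ y : α × Bool, (FreeGroup.mk [y] * u).toWord = y :: u.toWord ∨
      ∃ tl, u.toWord = (y.1, !y.2) :: tl ∧ (FreeGroup.mk [y] * u).toWord = tl := by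
    intro y
    have h1 : FreeGroup.mk [y] * u = FreeGroup.mk (y :: u.toWord) := by
      conv_lhs => rw [← FreeGroup.mk_toWord (x := u)]
      rw [FreeGroup.mul_mk]
      rfl
    rw [h1, FreeGroup.toWord_mk, FreeGroup.reduce.cons, FreeGroup.reduce_toWord]
    rcases hL : u.toWord with _ | ⟨z, tl⟩
    · left; rfl
    · simp only
      by_cases h : y.1 = z.1 ∧ y.2 = !z.2
      · right
        rw [if_pos h]
        refine ⟨tl, ?_, rfl⟩
        rw [h.1, h.2, Bool.not_not]
      · left
        rw [if_neg h]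
  have hr : ∀ w : FreeGroup α, rk w = w.toWord.length := by
    intro w
    unfold rk
    congr!
  rcases key x with h | ⟨tl, h1, h2⟩
  · left
    rw [hr, hr, h]
    rfl
  · right
    refine ⟨tl, ?_, ?_, ?_⟩
    · rw [← h1, FreeGroup.mk_toWord]
    · rw [hr, hr, h1, h2]
      rfl
    · intro y hy
      rcases key y with h | ⟨tl', h3, h4⟩
      · rw [hr, hr, h] at hy
        simp at hy
      · rw [h1] at h3
        have h5 := (List.cons.inj h3).1
        obtain ⟨x1, x2⟩ := x
        obtain ⟨y1, y2⟩ := y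
        simp only [Prod.mk.injEq] at h5
        obtain ⟨h6, h7⟩ := h5
        rw [Prod.mk.injEq]
        refine ⟨h6.symm, ?_⟩
        cases x2 <;> cases y2 <;> simp_all

theorem rk_inv (w : FreeGroup α) : rk w⁻¹ = rk w := by
  classical
  unfold rk
  rw [FreeGroup.toWord_inv, FreeGroup.invRev_length]

theorem mul_letter_inv (w : FreeGroup α) (x : α × Bool) :
    (w * FreeGroup.mk [x])⁻¹ = FreeGroup.mk [(x.1, !x.2)] * w⁻¹ := by
  rw [mul_inv_rev, FreeGroup.inv_mk]
  rfl

theorem rk_letter_ne (w : FreeGroup α) (x : α × Bool) : rk (w * FreeGroup.mk [x]) ≠ rk w := by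
  rw [← rk_inv (w * FreeGroup.mk [x]), ← rk_inv w, mul_letter_inv]
  rcases rk_cons (x.1, !x.2) w⁻¹ with h | ⟨_, _, h, _⟩ <;> omega

theorem rk_letter_unique (w : FreeGroup α) (x y : α × Bool)
    (hx : rk (w * FreeGroup.mk [x]) < rk w) (hy : rk (w * FreeGroup.mk [y]) < rk w) : x = y := by
  rw [← rk_inv (w * FreeGroup.mk [x]), ← rk_inv w, mul_letter_inv] at hx
  rw [← rk_inv (w * FreeGroup.mk [y]), ← rk_inv w, mul_letter_inv] at hy
  rcases rk_cons (x.1, !x.2) w⁻¹ with h | ⟨_, _, _, h⟩
  · omega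
  · have h1 := h _ hy
    obtain ⟨x1, x2⟩ := x
    obtain ⟨y1, y2⟩ := y
    simp only [Prod.mk.injEq] at h1
    rw [Prod.mk.injEq]
    refine ⟨h1.1.symm, ?_⟩
    have h2 := h1.2
    cases x2 <;> cases y2 <;> simp_all

end Words

section Lists

variable {G V : Type} [Group G] [MulAction G V] {T : SimpleGraph V} {F : Fam G T}

/-- the lists of letters of paths -/
def LP (F : Fam G T) : List (Ed F × Bool) → V → V → Prop
  | [], a, b => a = b
  | (e, true) :: l, a, b => src e = a ∧ LP F l (tgt e) b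
  | (e, false) :: l, a, b => tgt e = a ∧ LP F l (src e) b

theorem LP_append (l l' : List (Ed F × Bool)) (a b : V) :
    LP F (l ++ l') a b ↔ ∃ c, LP F l a c ∧ LP F l' c b := by
  induction l generalizing a with
  | nil =>
    constructor
    · intro h
      exact ⟨a, rfl, h⟩
    · rintro ⟨c, h, h'⟩
      have h1 : a = c := h
      rw [h1]
      exact h'
  | cons x l ih =>
    obtain ⟨e, _ | _⟩ := x
    · constructor
      · rintro ⟨h, h'⟩
        obtain ⟨c, h1, h2⟩ := (ih _).1 h'
        exact ⟨c, ⟨h, h1⟩, h2⟩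
      · rintro ⟨c, ⟨h, h1⟩, h2⟩
        exact ⟨h, (ih _).2 ⟨c, h1, h2⟩⟩
    · constructor
      · rintro ⟨h, h'⟩
        obtain ⟨c, h1, h2⟩ := (ih _).1 h'
        exact ⟨c, ⟨h, h1⟩, h2⟩
      · rintro ⟨c, ⟨h, h1⟩, h2⟩
        exact ⟨h, (ih _).2 ⟨c, h1, h2⟩⟩

theorem LP_step {l l' : List (Ed F × Bool)} (h : FreeGroup.Red.Step l l') {a b : V}
    (hl : LP F l a b) : LP F l' a b := by
  cases h with
  | @not L1 L2 x c =>
    rw [LP_append] at hl ⊢
    obtain ⟨d, h1, h2⟩ := hl
    refine ⟨d, h1, ?_⟩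
    cases c
    · obtain ⟨h3, _, h5⟩ := h2
      rw [← h3]
      exact h5
    · obtain ⟨h3, _, h5⟩ := h2
      rw [← h3]
      exact h5

theorem LP_red {l l' : List (Ed F × Bool)} (h : FreeGroup.Red l l') {a b : V}
    (hl : LP F l a b) : LP F l' a b := by
  induction h with
  | refl => exact hl
  | tail _ h ih => exact LP_step h ih

theorem LP_fun (l : List (Ed F × Bool)) : ∀ (a b b' : V), LP F l a b → LP F l a b' → b = b' := by
  induction l with
  | nil =>
    intro a b b' h h'
    have h1 : a = b := h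
    have h2 : a = b' := h'
    rw [← h1, h2]
  | cons x l ih =>
    intro a b b' h h'
    obtain ⟨e, _ | _⟩ := x
    · exact ih _ _ _ h.2 h'.2
    · exact ih _ _ _ h.2 h'.2

theorem exists_LP {w : FreeGroup (Ed F)} {a b : V} (h : Pth F w a b) :
    ∃ l, FreeGroup.mk l = w ∧ LP F l a b := by
  induction h with
  | nil => exact ⟨[], rfl, rfl⟩
  | fwd w a e _ ih =>
    obtain ⟨l, h1, h2⟩ := ih
    refine ⟨l ++ [(e, true)], ?_, ?_⟩
    · rw [← FreeGroup.mul_mk, h1]
      rfl
    · rw [LP_append]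
      exact ⟨_, h2, rfl, rfl⟩
  | bwd w a e _ ih =>
    obtain ⟨l, h1, h2⟩ := ih
    refine ⟨l ++ [(e, false)], ?_, ?_⟩
    · rw [← FreeGroup.mul_mk, h1]
      rfl
    · rw [LP_append]
      exact ⟨_, h2, rfl, rfl⟩

/-- the end of a path is determined by its word -/
theorem Pth_unique {w : FreeGroup (Ed F)} {a b b' : V} (h : Pth F w a b) (h' : Pth F w a b') :
    b = b' := by
  classical
  have key : ∀ {c : V}, Pth F w a c → LP F w.toWord a c := by
    intro c hc
    obtain ⟨l, h1, h2⟩ := exists_LP hc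
    rw [← h1, FreeGroup.toWord_mk]
    exact LP_red FreeGroup.reduce.red h2
  exact LP_fun _ _ _ _ (key h) (key h')

end Lists

end Pool.Agent.H3.Unf
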