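import Pool.Agent.H3.UnfB
import Pool.Agent.Q182.CylMain

/-!
# Unfolding a tree: the action on the universal cover
-/

set_option autoImplicit false

namespace Pool.Agent.H3.Unf

open SimpleGraph
open Pool.Agent.Y110.FJ (permAut)
open Q182.Cyl (Est)
open Pool.Agent.Helper270.Tree (TreeAct)

variable {G V : Type} [Group G] [MulAction G V] {T : SimpleGraph V}

/-- the vertices of the universal cover -/
def Vt (F : Fam G T) (v₀ : V) : Type := {p : FreeGroup (Ed F) × V // Pth F p.1 v₀ p.2}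

variable {F : Fam G T} {v₀ : V}

theorem Vt.ext' {x y : Vt F v₀} (h : x.1.1 = y.1.1) : x = y := by
  refine Subtype.ext (Prod.ext h ?_)
  have h1 := x.2
  rw [h] at h1
  exact Pth_unique h1 y.2

/-- the step along an edge -/
def Stp (x y : Vt F v₀) (e : Ed F) : Prop :=
  x.1.1 * FreeGroup.of e = y.1.1 ∧ src e = x.1.2 ∧ tgt e = y.1.2

/-- the universal cover -/
def Tc (hadj : ∀ (g : G) (v w : V), T.Adj v w → T.Adj (g • v) (g • w)) (F : Fam G T) (v₀ : V) :
    SimpleGraph (Vt F v₀) where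
  Adj x y := ∃ e, Stp x y e ∨ Stp y x e
  symm := ⟨by
    rintro x y ⟨e, h⟩
    exact ⟨e, h.symm⟩⟩
  loopless := ⟨by
    rintro x ⟨e, h | h⟩
    · have h1 := adj_ed hadj e
      rw [h.2.1, h.2.2] at h1
      exact h1.ne rfl
    · have h1 := adj_ed hadj e
      rw [h.2.1, h.2.2] at h1
      exact h1.ne rfl⟩

variable (hadj : ∀ (g : G) (v w : V), T.Adj v w → T.Adj (g • v) (g • w))

theorem adj_letter {x y : Vt F v₀} (h : (Tc hadj F v₀).Adj x y) :
    ∃ l : Ed F × Bool, y.1.1 = x.1.1 * FreeGroup.mk [l] := by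
  obtain ⟨e, h | h⟩ := h
  · exact ⟨(e, true), h.1.symm⟩
  · refine ⟨(e, false), ?_⟩
    rw [← h.1]
    exact (mul_inv_cancel_right _ _).symm

theorem Tc_acyclic : (Tc hadj F v₀).IsAcyclic := by
  refine acyclic_of_rank _ (fun x => rk x.1.1) ?_ ?_
  · intro x y h hr
    obtain ⟨l, hl⟩ := adj_letter hadj h
    refine rk_letter_ne x.1.1 l ?_
    rw [← hl]
    exact hr.symm
  · intro x y y' h h' hr hr'
    obtain ⟨l, hl⟩ := adj_letter hadj h
    obtain ⟨l', hl'⟩ := adj_letter hadj h'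
    have h1 : l = l' := by
      refine rk_letter_unique x.1.1 l l' ?_ ?_
      · rw [← hl]; exact hr
      · rw [← hl']; exact hr'
    refine Vt.ext' ?_
    rw [hl, hl', h1]

theorem reach_aux {w : FreeGroup (Ed F)} {a b : V} (h : Pth F w a b) :
    ∀ (ha : a = v₀) (h' : Pth F w v₀ b),
      (Tc hadj F v₀).Reachable ⟨(1, v₀), Pth.nil _⟩ ⟨(w, b), h'⟩ := by
  induction h with
  | nil a =>
    intro ha h'
    have h2 : ∀ z : Vt F v₀, (⟨(1, v₀), Pth.nil _⟩ : Vt F v₀) = z →
        (Tc hadj F v₀).Reachable ⟨(1, v₀), Pth.nil _⟩ z := by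
      rintro z rfl
      exact SimpleGraph.Reachable.refl _
    exact h2 _ (Vt.ext' rfl)
  | fwd w a e hw ih =>
    intro ha h'
    subst ha
    refine (ih rfl hw).trans (SimpleGraph.Adj.reachable ?_)
    exact ⟨e, Or.inl ⟨rfl, rfl, rfl⟩⟩
  | bwd w a e hw ih =>
    intro ha h'
    subst ha
    refine (ih rfl hw).trans (SimpleGraph.Adj.reachable ?_)
    exact ⟨e, Or.inr ⟨inv_mul_cancel_right _ _, rfl, rfl⟩⟩

theorem Tc_tree : (Tc hadj F v₀).IsTree := by
  refine ⟨?_, Tc_acyclic hadj⟩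
  have h1 : ∀ x : Vt F v₀, (Tc hadj F v₀).Reachable ⟨(1, v₀), Pth.nil _⟩ x := by
    rintro ⟨⟨w, b⟩, h⟩
    exact reach_aux hadj h rfl h
  have : Nonempty (Vt F v₀) := ⟨⟨(1, v₀), Pth.nil _⟩⟩
  exact SimpleGraph.Connected.mk (fun x y => (h1 x).symm.trans (h1 y))

/-- the action -/
instance : MulAction (Gf F v₀) (Vt F v₀) where
  smul x y := ⟨(x.1.left * FreeGroup.map (fun e => x.1.right • e) y.1.1, x.1.right • y.1.2),
    Pth.trans x.2 (Pth.smul _ y.2)⟩
  one_smul y := by
    refine Vt.ext' ?_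
    show (1 : FreeGroup (Ed F)) * FreeGroup.map (fun e => (1 : G) • e) y.1.1 = y.1.1
    have h1 : (fun e : Ed F => (1 : G) • e) = id := by
      funext e
      exact one_smul _ _
    rw [h1, FreeGroup.map.id, one_mul]
  mul_smul x y z := by
    refine Vt.ext' ?_
    show (x.1.left * FreeGroup.map (fun e => x.1.right • e) y.1.left) *
        FreeGroup.map (fun e => (x.1.right * y.1.right) • e) z.1.1 =
      x.1.left * FreeGroup.map (fun e => x.1.right • e)
        (y.1.left * FreeGroup.map (fun e => y.1.right • e) z.1.1)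
    have h1 : (fun e : Ed F => (x.1.right * y.1.right) • e) =
        (fun e => x.1.right • e) ∘ (fun e => y.1.right • e) := by
      funext e
      exact mul_smul _ _ _
    rw [map_mul, FreeGroup.map.comp, h1, mul_assoc]

theorem smul_word (x : Gf F v₀) (y : Vt F v₀) :
    (x • y).1.1 = x.1.left * FreeGroup.map (fun e => x.1.right • e) y.1.1 := rfl

theorem smul_end (x : Gf F v₀) (y : Vt F v₀) : (x • y).1.2 = prj F v₀ x • y.1.2 := rfl

theorem stp_smul {x y : Vt F v₀} {e : Ed F} (g : Gf F v₀) (h : Stp x y e) :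
    Stp (g • x) (g • y) (prj F v₀ g • e) := by
  refine ⟨?_, ?_, ?_⟩
  · rw [smul_word, smul_word, ← h.1, map_mul, FreeGroup.map.of, ← mul_assoc]
    rfl
  · rw [src_smul, h.2.1]
    rfl
  · rw [tgt_smul, h.2.2]
    rfl

/-- no inversions -/
theorem treeAct (hinv : ∀ (g : G) (v w : V), T.Adj v w → ¬ (g • v = w ∧ g • w = v)) :
    TreeAct (Gf F v₀) (Tc hadj F v₀) where
  isTree := Tc_tree hadj
  adj := by
    rintro g x y ⟨e, h | h⟩
    · exact ⟨_, Or.inl (stp_smul g h)⟩
    · exact ⟨_, Or.inr (stp_smul g h)⟩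
  noInv := by
    rintro g x y h ⟨h1, h2⟩
    have h3 : T.Adj x.1.2 y.1.2 := by
      obtain ⟨e, h | h⟩ := h
      · rw [← h.2.1, ← h.2.2]
        exact adj_ed hadj e
      · rw [← h.2.1, ← h.2.2]
        exact (adj_ed hadj e).symm
    refine hinv (prj F v₀ g) _ _ h3 ⟨?_, ?_⟩
    · rw [← smul_end, h1]
    · rw [← smul_end, h2]

/-- an element which fixes a vertex is determined by its projection -/
theorem stab_inj {x y : Gf F v₀} {a : Vt F v₀} (hx : x • a = a) (hy : y • a = a)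
    (h : prj F v₀ x = prj F v₀ y) : x = y := by
  have h1 : x.1.left * FreeGroup.map (fun e => x.1.right • e) a.1.1 = a.1.1 :=
    congrArg (fun z : Vt F v₀ => z.1.1) hx
  have h2 : y.1.left * FreeGroup.map (fun e => y.1.right • e) a.1.1 = a.1.1 :=
    congrArg (fun z : Vt F v₀ => z.1.1) hy
  have h3 : x.1.right = y.1.right := h
  rw [← h3, ← h1] at h2
  refine Subtype.ext (SemidirectProduct.ext ?_ h3)
  rw [h1] at h2
  have h4 := h2.trans h1.symm
  exact (mul_right_cancel h4).symm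

/-- every element of the stabilizer of the end of a path lifts to the stabilizer of the path -/
theorem stab_surj (a : Vt F v₀) (g : G) (hg : g • a.1.2 = a.1.2) :
    ∃ x : Gf F v₀, x • a = a ∧ prj F v₀ x = g := by
  have h1 : Pth F (a.1.1 * (FreeGroup.map (fun e => g • e) a.1.1)⁻¹) v₀ (g • v₀) := by
    refine Pth.trans a.2 (Pth.symm ?_)
    have h2 := Pth.smul g a.2
    rwa [hg] at h2
  refine ⟨⟨⟨_, g⟩, h1⟩, Vt.ext' ?_, rfl⟩
  rw [smul_word]
  exact inv_mul_cancel_right _ _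

/-- the projection of the stabilizer of an edge is the stabilizer of its image -/
theorem stp_stab {a b : Vt F v₀} {e : Ed F} (h : Stp a b e) :
    (∀ x : Gf F v₀, x • a = a → x • b = b → prj F v₀ x • e = e) ∧
    (∀ g : G, g • e = e → ∃ x : Gf F v₀, x • a = a ∧ x • b = b ∧ prj F v₀ x = g) := by
  constructor
  · intro x hx hy
    have h1 := stp_smul x h
    rw [hx, hy] at h1
    have h2 : FreeGroup.of (prj F v₀ x • e) = FreeGroup.of e := by
      have h3 := h1.1.trans h.1.symm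
      exact mul_left_cancel h3
    exact FreeGroup.of_injective h2
  · intro g hg
    have h1 : g • a.1.2 = a.1.2 := by
      rw [← h.2.1, ← src_smul, hg]
    obtain ⟨x, hx, hxg⟩ := stab_surj a g h1
    refine ⟨x, hx, ?_, hxg⟩
    refine Vt.ext' ?_
    have h2 := stp_smul x h
    rw [hx, hxg, hg] at h2
    exact h2.1.symm.trans h.1

/-- the stabilizer of an edge of the unfolded graph -/
theorem stab_ed (F : Fam G T) (o : Orb G T) (g : G) :
    MulAction.stabilizer G (ed F o g) = (F.L o).map (MulAut.conj g).toMonoidHom := by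
  ext x
  rw [MulAction.mem_stabilizer_iff, smul_ed, eq_comm, ed_eq_iff, Subgroup.mem_map]
  constructor
  · intro h
    refine ⟨_, h, ?_⟩
    show g * (g⁻¹ * (x * g)) * g⁻¹ = x
    group
  · rintro ⟨y, hy, rfl⟩
    have h1 : g⁻¹ * ((MulAut.conj g).toMonoidHom y * g) = y := by
      show g⁻¹ * ((g * y * g⁻¹) * g) = y
      group
    rw [h1]
    exact hy

theorem fg_map {A B : Type} [Group A] [Group B] {K : Subgroup A} (h : K.FG) (f : A →* B) :
    (K.map f).FG := by
  classical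
  obtain ⟨S, hS⟩ := h
  exact ⟨S.image f, by rw [Finset.coe_image, ← MonoidHom.map_closure, hS]⟩

theorem stab_ed_fg (F : Fam G T) (hF : ∀ o, (F.L o).FG) (e : Ed F) :
    (MulAction.stabilizer G e).FG := by
  obtain ⟨o, g, rfl⟩ := ed_surj e
  rw [stab_ed]
  exact fg_map (hF o) _

theorem stab_ed_le (F : Fam G T) (e : Ed F) :
    MulAction.stabilizer G e ≤ Est G (src e) (tgt e) := by
  intro g hg
  rw [MulAction.mem_stabilizer_iff] at hg
  refine ⟨?_, ?_⟩
  · show g • src e = src e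
    rw [← src_smul, hg]
  · show g • tgt e = tgt e
    rw [← tgt_smul, hg]

/-- the stabilizers of the edges of the universal cover -/
theorem edge_stab (F : Fam G T) (hF : ∀ o, (F.L o).FG) {a b : Vt F v₀}
    (h : (Tc hadj F v₀).Adj a b) : T.Adj a.1.2 b.1.2 ∧
      ∃ S : Subgroup G, S.FG ∧ S ≤ Est G a.1.2 b.1.2 ∧
        (Est (Gf F v₀) a b).map (prj F v₀) = S := by
  have key : ∀ {a b : Vt F v₀} {e : Ed F}, Stp a b e → T.Adj a.1.2 b.1.2 ∧
      ∃ S : Subgroup G, S.FG ∧ S ≤ Est G a.1.2 b.1.2 ∧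
        (Est (Gf F v₀) a b).map (prj F v₀) = S := by
    intro a b e h
    refine ⟨?_, MulAction.stabilizer G e, stab_ed_fg F hF e, ?_, ?_⟩
    · rw [← h.2.1, ← h.2.2]
      exact adj_ed hadj e
    · rw [← h.2.1, ← h.2.2]
      exact stab_ed_le F e
    · ext g
      rw [Subgroup.mem_map, MulAction.mem_stabilizer_iff]
      constructor
      · rintro ⟨x, hx, rfl⟩
        exact (stp_stab h).1 x hx.1 hx.2
      · intro hg
        obtain ⟨x, h1, h2, h3⟩ := (stp_stab h).2 g hg
        exact ⟨x, ⟨h1, h2⟩, h3⟩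
  obtain ⟨e, h | h⟩ := h
  · exact key h
  · obtain ⟨h1, S, h2, h3, h4⟩ := key h
    refine ⟨h1.symm, S, h2, ?_, ?_⟩
    · rw [Est, inf_comm]
      exact h3
    · rw [← h4, Est, inf_comm]
      rfl

end Pool.Agent.H3.Unf
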