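import Pool.Agent.H3.UnfC

/-!
# Unfolding a tree: the group is the directed colimit of the unfolded groups
-/

set_option autoImplicit false

namespace Pool.Agent.H3.Unf

open SimpleGraph
open Pool.Agent.Y110.FJ (permAut)
open Q182.Cyl (Est)
open Pool.Agent.Y462.SS (Closed)

section Weights

variable {V M : Type} [Group M] {T : SimpleGraph V}

/-- the product of the weights of the steps of a walk -/
def wgt (T : SimpleGraph V) (d : V → V → M) : ∀ {u v : V}, T.Walk u v → M
  | _, _, .nil => 1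
  | u, _, .cons (v := v) _ p => d u v * wgt T d p

theorem wgt_append (d : V → V → M) {u v w : V} (p : T.Walk u v) (q : T.Walk v w) :
    wgt T d (p.append q) = wgt T d p * wgt T d q := by
  induction p with
  | nil => exact (one_mul _).symm
  | cons h p ih =>
    rw [SimpleGraph.Walk.cons_append, wgt, wgt, ih, mul_assoc]

theorem wgt_eq_path (hT : T.IsAcyclic) (d : V → V → M)
    (hd : ∀ a b, T.Adj a b → d b a = (d a b)⁻¹) {u v : V} (p : T.Walk u v) :
    ∀ q : T.Walk u v, q.IsPath → wgt T d p = wgt T d q := by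
  classical
  have huniq : ∀ {a b : V} (p q : T.Walk a b), p.IsPath → q.IsPath → p = q := by
    intro a b p q hp hq
    have := (hT.subsingleton_path a b).elim ⟨p, hp⟩ ⟨q, hq⟩
    exact congrArg Subtype.val this
  induction p with
  | nil =>
    intro q hq
    rw [huniq q SimpleGraph.Walk.nil hq SimpleGraph.Walk.IsPath.nil]
  | @cons u v w h p ih =>
    intro q hq
    have hq'p : p.bypass.IsPath := p.bypass_isPath
    rw [wgt, ih p.bypass hq'p]
    by_cases hu : u ∈ p.bypass.support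
    · have h1 := p.bypass.take_spec hu
      have h2 : p.bypass.takeUntil u hu = SimpleGraph.Walk.cons h.symm SimpleGraph.Walk.nil := by
        apply huniq _ _ (hq'p.takeUntil hu)
        simp [h.ne']
      have h3 : p.bypass.dropUntil u hu = q := huniq _ _ (hq'p.dropUntil hu) hq
      rw [← h1, wgt_append, h2, h3, wgt, wgt, mul_one, hd _ _ h, mul_inv_cancel_left]
    · have h1 : SimpleGraph.Walk.cons h p.bypass = q := by
        apply huniq _ _ _ hq
        rw [SimpleGraph.Walk.cons_isPath_iff]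
        exact ⟨hq'p, hu⟩
      rw [← h1, wgt]

/-- closed walks in a tree have weight one -/
theorem wgt_closed (hT : T.IsAcyclic) (d : V → V → M)
    (hd : ∀ a b, T.Adj a b → d b a = (d a b)⁻¹) {u : V} (p : T.Walk u u) : wgt T d p = 1 := by
  rw [wgt_eq_path hT d hd p .nil .nil]
  rfl

end Weights

variable {G V : Type} [Group G] [MulAction G V] {T : SimpleGraph V}

/-- the family of all edge stabilizers -/
noncomputable def fullFam (G : Type) {V : Type} [Group G] [MulAction G V] (T : SimpleGraph V) :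
    Fam G T where
  L o := Est G (ra o) (rb o)
  le _ := le_rfl

/-- closed paths of the tree are trivial -/
theorem full_closed (hT : T.IsAcyclic)
    (hadj : ∀ (g : G) (v w : V), T.Adj v w → T.Adj (g • v) (g • w))
    (hinv : ∀ (g : G) (v w : V), T.Adj v w → ¬ (g • v = w ∧ g • w = v))
    {w : FreeGroup (Ed (fullFam G T))} {a : V} (h : Pth (fullFam G T) w a a) : w = 1 := by
  classical
  -- the letter of a step
  let d : V → V → FreeGroup (Ed (fullFam G T)) := fun a b =>
    if h : ∃ e : Ed (fullFam G T), src e = a ∧ tgt e = b then FreeGroup.of h.choose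
    else if h : ∃ e : Ed (fullFam G T), src e = b ∧ tgt e = a then (FreeGroup.of h.choose)⁻¹
    else 1
  have hu := ed_unique_full (F := fullFam G T) hinv (fun _ => rfl)
  have d1 : ∀ e : Ed (fullFam G T), d (src e) (tgt e) = FreeGroup.of e := by
    intro e
    have h1 : ∃ e' : Ed (fullFam G T), src e' = src e ∧ tgt e' = tgt e := ⟨e, rfl, rfl⟩
    show (if h : ∃ e' : Ed (fullFam G T), src e' = src e ∧ tgt e' = tgt e then _ else _) = _
    rw [dif_pos h1]
    exact congrArg FreeGroup.of ((hu _ _).1 h1.choose_spec)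
  have d2 : ∀ e : Ed (fullFam G T), d (tgt e) (src e) = (FreeGroup.of e)⁻¹ := by
    intro e
    have h1 : ¬ ∃ e' : Ed (fullFam G T), src e' = tgt e ∧ tgt e' = src e := by
      rintro ⟨e', h1⟩
      exact (hu e' e).2 h1
    have h2 : ∃ e' : Ed (fullFam G T), src e' = src e ∧ tgt e' = tgt e := ⟨e, rfl, rfl⟩
    show (if h : ∃ e' : Ed (fullFam G T), src e' = tgt e ∧ tgt e' = src e then _ else
      if h : ∃ e' : Ed (fullFam G T), src e' = src e ∧ tgt e' = tgt e then _ else _) = _
    rw [dif_neg h1, dif_pos h2]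
    exact congrArg (fun x => (FreeGroup.of x)⁻¹) ((hu _ _).1 h2.choose_spec)
  have hd : ∀ a b, T.Adj a b → d b a = (d a b)⁻¹ := by
    intro a b hab
    obtain ⟨e, ⟨h1, h2⟩ | ⟨h1, h2⟩⟩ := exists_ed (fullFam G T) a b hab
    · rw [← h1, ← h2, d1, d2]
    · rw [← h1, ← h2, d1, d2, inv_inv]
  have key : ∀ {w : FreeGroup (Ed (fullFam G T))} {a b : V}, Pth (fullFam G T) w a b →
      ∃ p : T.Walk a b, wgt T d p = w := by
    intro w a b h
    induction h with
    | nil a => exact ⟨.nil, rfl⟩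
    | fwd w a e _ ih =>
      obtain ⟨p, hp⟩ := ih
      refine ⟨p.append (.cons (adj_ed hadj e) .nil), ?_⟩
      rw [wgt_append, hp, wgt, wgt, d1, mul_one]
    | bwd w a e _ ih =>
      obtain ⟨p, hp⟩ := ih
      refine ⟨p.append (.cons (adj_ed hadj e).symm .nil), ?_⟩
      rw [wgt_append, hp, wgt, wgt, d2, mul_one]
  obtain ⟨p, hp⟩ := key h
  rw [← hp]
  exact wgt_closed hT d hd p

/-! ### maps between families -/

instance : Preorder (Fam G T) where
  le F F' := ∀ o, F.L o ≤ F'.L o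
  le_refl F o := le_rfl
  le_trans F F' F'' h h' o := (h o).trans (h' o)

theorem fam_le_def {F F' : Fam G T} : F ≤ F' ↔ ∀ o, F.L o ≤ F'.L o := Iff.rfl

/-- the map of the edges -/
def tau {F F' : Fam G T} (h : F ≤ F') : Ed F → Ed F' :=
  fun e => ⟨e.1, Subgroup.quotientMapOfLE (h e.1) e.2⟩

theorem tau_ed {F F' : Fam G T} (h : F ≤ F') (o : Orb G T) (g : G) :
    tau h (ed F o g) = ed F' o g := rfl

theorem tau_smul {F F' : Fam G T} (h : F ≤ F') (g : G) (e : Ed F) :
    tau h (g • e) = g • tau h e := by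
  obtain ⟨o, g', rfl⟩ := ed_surj e
  rfl

theorem src_tau {F F' : Fam G T} (h : F ≤ F') (e : Ed F) : src (tau h e) = src e := by
  obtain ⟨o, g', rfl⟩ := ed_surj e
  rfl

theorem tgt_tau {F F' : Fam G T} (h : F ≤ F') (e : Ed F) : tgt (tau h e) = tgt e := by
  obtain ⟨o, g', rfl⟩ := ed_surj e
  rfl

theorem tau_refl {F : Fam G T} (h : F ≤ F) (e : Ed F) : tau h e = e := by
  obtain ⟨o, g', rfl⟩ := ed_surj e
  rfl

theorem tau_tau {F F' F'' : Fam G T} (h : F ≤ F') (h' : F' ≤ F'') (e : Ed F) :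
    tau h' (tau h e) = tau (h.trans h') e := by
  obtain ⟨o, g', rfl⟩ := ed_surj e
  rfl

/-- the map of the groups -/
def gmap {F F' : Fam G T} (h : F ≤ F') (v₀ : V) : Gf F v₀ →* Gf F' v₀ where
  toFun x := ⟨⟨FreeGroup.map (tau h) x.1.left, x.1.right⟩,
    Pth.map (tau h) (src_tau h) (tgt_tau h) x.2⟩
  map_one' := by
    refine Subtype.ext (SemidirectProduct.ext ?_ rfl)
    exact map_one _
  map_mul' x y := by
    refine Subtype.ext (SemidirectProduct.ext ?_ rfl)
    show FreeGroup.map (tau h) (x.1.left * FreeGroup.map (fun e => x.1.right • e) y.1.left) =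
      FreeGroup.map (tau h) x.1.left *
        FreeGroup.map (fun e => x.1.right • e) (FreeGroup.map (tau h) y.1.left)
    rw [map_mul, FreeGroup.map.comp, FreeGroup.map.comp]
    have h1 : (tau h) ∘ (fun e => x.1.right • e) = (fun e => x.1.right • e) ∘ (tau h) := by
      funext e
      exact tau_smul h _ _
    rw [h1]

/-- finitely many identifications of letters -/
theorem map_eq_one_of {α β γ : Type} (φ : α → β) (ψ : α → γ) (w : FreeGroup α)
    (l : List (α × Bool)) (hl : FreeGroup.mk l = w) (hw : FreeGroup.map φ w = 1)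
    (h : ∀ x ∈ l, ∀ y ∈ l, φ x.1 = φ y.1 → ψ x.1 = ψ y.1) : FreeGroup.map ψ w = 1 := by
  classical
  rcases l with _ | ⟨x₀, l'⟩
  · rw [← hl]
    exact map_one _
  · obtain ⟨l, hll⟩ : ∃ l, l = x₀ :: l' := ⟨_, rfl⟩
    rw [← hll] at hl h
    let σ : β → γ := fun b => if h : ∃ x ∈ l, φ x.1 = b then ψ h.choose.1 else ψ x₀.1
    have hσ : ∀ x ∈ l, σ (φ x.1) = ψ x.1 := by
      intro x hx
      have h1 : ∃ y ∈ l, φ y.1 = φ x.1 := ⟨x, hx, rfl⟩
      show (if h : ∃ y ∈ l, φ y.1 = φ x.1 then ψ h.choose.1 else _) = _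
      rw [dif_pos h1]
      exact h _ h1.choose_spec.1 _ hx h1.choose_spec.2
    have h2 : FreeGroup.map ψ w = FreeGroup.map σ (FreeGroup.map φ w) := by
      rw [FreeGroup.map.comp, ← hl, FreeGroup.map.mk, FreeGroup.map.mk]
      congr 1
      refine List.map_congr_left ?_
      intro x hx
      show (ψ x.1, x.2) = (σ (φ x.1), x.2)
      rw [hσ x hx]
    rw [h2, hw, map_one]

/-- finitely generated families -/
abbrev FgFam (G : Type) {V : Type} [Group G] [MulAction G V] (T : SimpleGraph V) : Type :=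
  {F : Fam G T // ∀ o, (F.L o).FG}

instance : Nonempty (FgFam G T) :=
  ⟨⟨⟨fun _ => ⊥, fun _ => bot_le⟩, fun _ => ⟨∅, by simp⟩⟩⟩

theorem fgFam_directed (F F' : FgFam G T) : ∃ F'' : FgFam G T, F ≤ F'' ∧ F' ≤ F'' := by
  refine ⟨⟨⟨fun o => F.1.L o ⊔ F'.1.L o, fun o => sup_le (F.1.le o) (F'.1.le o)⟩,
    fun o => (F.2 o).sup (F'.2 o)⟩, ?_, ?_⟩
  · exact fun o => le_sup_left
  · exact fun o => le_sup_right

theorem le_full (F : Fam G T) : F ≤ fullFam G T := fun o => F.le o

/-- an identification of finitely many edges is realized by a finitely generated family -/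
theorem exists_fam (F : FgFam G T) (S : Set (Ed F.1)) (hS : S.Finite) :
    ∃ F' : FgFam G T, ∃ h : F.1 ≤ F'.1, ∀ x ∈ S, ∀ y ∈ S,
      tau (le_full F.1) x = tau (le_full F.1) y → tau h x = tau h y := by
  classical
  -- the new elements
  let Nw : Orb G T → Set G := fun o => {g | g ∈ Est G (ra o) (rb o) ∧
    ∃ x ∈ S, ∃ y ∈ S, x.2.out⁻¹ * y.2.out = g}
  have hfin : ∀ o, (Nw o).Finite := by
    intro o
    refine ((hS.prod hS).image (fun p : Ed F.1 × Ed F.1 => p.1.2.out⁻¹ * p.2.2.out)).subset ?_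
    rintro g ⟨_, x, hx, y, hy, rfl⟩
    exact ⟨(x, y), ⟨hx, hy⟩, rfl⟩
  let F' : FgFam G T := ⟨⟨fun o => F.1.L o ⊔ Subgroup.closure (Nw o),
    fun o => sup_le (F.1.le o) ((Subgroup.closure_le _).2 (fun g hg => hg.1))⟩,
    fun o => (F.2 o).sup ⟨(hfin o).toFinset, by rw [Set.Finite.coe_toFinset]⟩⟩
  refine ⟨F', fun o => le_sup_left, ?_⟩
  intro x hx y hy hxy
  obtain ⟨o, qx⟩ := x
  obtain ⟨o', qy⟩ := y
  have ho : o = o' := congrArg Sigma.fst hxy
  subst ho
  have e1 : (⟨o, qx⟩ : Ed F.1) = ed F.1 o qx.out :=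
    Sigma.ext rfl (heq_of_eq (QuotientGroup.out_eq' qx).symm)
  have e2 : (⟨o, qy⟩ : Ed F.1) = ed F.1 o qy.out :=
    Sigma.ext rfl (heq_of_eq (QuotientGroup.out_eq' qy).symm)
  rw [e1, e2, tau_ed, tau_ed, ed_eq_iff] at hxy
  rw [e1, e2, tau_ed, tau_ed, ed_eq_iff]
  exact le_sup_right (a := F.1.L o)
    (Subgroup.subset_closure (show qx.out⁻¹ * qy.out ∈ Nw o from
      ⟨hxy, ⟨o, qx⟩, hx, ⟨o, qy⟩, hy, rfl⟩))

/-- **the group is the directed colimit of the unfolded groups** -/
theorem colim_mem {C : ∀ (G : Type) [Group G], Prop} (hC : Closed C) (hT : T.IsTree)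
    (hadj : ∀ (g : G) (v w : V), T.Adj v w → T.Adj (g • v) (g • w))
    (hinv : ∀ (g : G) (v w : V), T.Adj v w → ¬ (g • v = w ∧ g • w = v)) (v₀ : V)
    (h : ∀ F : Fam G T, (∀ o, (F.L o).FG) → C (Gf F v₀)) : C G := by
  classical
  refine hC.colim (FgFam G T) fgFam_directed (fun F => Gf F.1 v₀)
    (fun F F' h => gmap (show F.1 ≤ F'.1 from h) v₀) G (fun F => prj F.1 v₀) ?_ ?_ ?_ ?_ ?_
    (fun F => h F.1 F.2)
  · intro F hF x
    refine Subtype.ext (SemidirectProduct.ext ?_ rfl)
    show FreeGroup.map (tau (show F.1 ≤ F.1 from hF)) x.1.left = x.1.left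
    have h1 : tau (show F.1 ≤ F.1 from hF) = id := by
      funext e
      exact tau_refl _ e
    rw [h1, FreeGroup.map.id]
  · intro F F' F'' h1 h2 x
    refine Subtype.ext (SemidirectProduct.ext ?_ rfl)
    show FreeGroup.map (tau (show F'.1 ≤ F''.1 from h2))
      (FreeGroup.map (tau (show F.1 ≤ F'.1 from h1)) x.1.left) =
      FreeGroup.map (tau (show F.1 ≤ F''.1 from h1.trans h2)) x.1.left
    rw [FreeGroup.map.comp]
    have h3 : (tau (show F'.1 ≤ F''.1 from h2)) ∘ (tau (show F.1 ≤ F'.1 from h1)) =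
        tau (show F.1 ≤ F''.1 from h1.trans h2) := by
      funext e
      exact tau_tau _ _ e
    rw [h3]
  · intro F F' h1 x
    rfl
  · intro g
    obtain ⟨x, hx⟩ := prj_surj hT (⟨fun _ => ⊥, fun _ => bot_le⟩ : Fam G T) v₀ g
    exact ⟨⟨⟨fun _ => ⊥, fun _ => bot_le⟩, fun _ => ⟨∅, by simp⟩⟩, x, hx⟩
  · intro F x hx
    have hx' : x.1.right = 1 := hx
    have h1 : Pth F.1 x.1.left v₀ v₀ := by
      have h2 := x.2
      change Pth F.1 x.1.left v₀ (x.1.right • v₀) at h2
      rwa [hx', one_smul] at h2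
    have h3 : FreeGroup.map (tau (le_full F.1)) x.1.left = 1 :=
      full_closed hT.isAcyclic hadj hinv (Pth.map _ (src_tau _) (tgt_tau _) h1)
    obtain ⟨F', hF', h4⟩ := exists_fam F {e | e ∈ (x.1.left.toWord.map Prod.fst)}
      (List.finite_toSet _)
    refine ⟨F', hF', ?_⟩
    refine Subtype.ext (SemidirectProduct.ext ?_ hx')
    show FreeGroup.map (tau (show F.1 ≤ F'.1 from hF')) x.1.left = 1
    refine map_eq_one_of (tau (le_full F.1)) _ x.1.left x.1.left.toWord FreeGroup.mk_toWord h3 ?_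
    intro a ha b hb hab
    exact h4 _ (List.mem_map_of_mem ha) _ (List.mem_map_of_mem hb) hab

end Pool.Agent.H3.Unf
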