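import Pool.Agent.H3.UnfD
import Pool.Agent.Q182.FkMain

/-!
# Trees whose edge stabilizers are locally virtually cyclic over a quotient
-/

set_option autoImplicit false

namespace Pool.Agent.H3.Unf

open SimpleGraph
open Pool.Agent.Helper270.Tree (TreeAct)
open Q182.Cyl (ClosedA Est InfOrd)

/-- virtually cyclic subgroups -/
def Vc {G : Type} [Group G] (H : Subgroup G) : Prop :=
  ∃ z ∈ H, (Subgroup.zpowers z).relIndex H ≠ 0

theorem vc_of_map {A B : Type} [Group A] [Group B] (f : A →* B) (H : Subgroup A)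
    (hf : ∀ x ∈ H, ∀ y ∈ H, f x = f y → x = y) (h : Vc (H.map f)) : Vc H := by
  obtain ⟨z, ⟨y, hy, rfl⟩, hz⟩ := h
  refine ⟨y, hy, ?_⟩
  have h1 : (Subgroup.zpowers y).subgroupOf H =
      ((Subgroup.zpowers (f y)).subgroupOf (H.map f)).comap (f.subgroupMap H) := by
    ext x
    rw [Subgroup.mem_comap, Subgroup.mem_subgroupOf, Subgroup.mem_subgroupOf]
    constructor
    · rintro ⟨n, hn⟩
      refine ⟨n, ?_⟩
      show f y ^ n = f (x : A)
      rw [← map_zpow]
      exact congrArg f hn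
    · rintro ⟨n, hn⟩
      refine ⟨n, ?_⟩
      have h2 : f y ^ n = f (x : A) := hn
      rw [← map_zpow] at h2
      exact hf _ (H.zpow_mem hy n) _ x.2 h2
  rw [Subgroup.relIndex, h1, Subgroup.index_comap_of_surjective _ (f.subgroupMap_surjective H)]
  exact hz

variable {C : ∀ (G : Type) [Group G], Prop} {G V : Type} [Group G] [MulAction G V]
  {T : SimpleGraph V}

/-- trees with locally virtually cyclic balanced edge stabilizers -/
theorem main_loc (hC : ClosedA C) (hT : T.IsTree)
    (hadj : ∀ (g : G) (v w : V), T.Adj v w → T.Adj (g • v) (g • w))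
    (hinv : ∀ (g : G) (v w : V), T.Adj v w → ¬ (g • v = w ∧ g • w = v))
    (hst : ∀ v : V, C (MulAction.stabilizer G v))
    (hvc : ∀ v w : V, T.Adj v w → ∀ S : Subgroup G, S.FG → S ≤ Est G v w → Vc S)
    (hbal : ∀ v w : V, T.Adj v w → ∀ h ∈ Est G v w, InfOrd h → ∀ (g : G) (m n : ℤ),
      g * h ^ m * g⁻¹ = h ^ n → |m| = |n|) : C G := by
  obtain ⟨v₀⟩ := hT.connected.nonempty
  refine colim_mem hC.base.base hT hadj hinv v₀ ?_
  intro F hF
  refine Q182.Cyl.main2 hC (treeAct hadj hinv) ?_ ?_ ?_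
  · intro a b hab
    obtain ⟨h1, S, h2, h3, h4⟩ := edge_stab hadj F hF hab
    refine vc_of_map (prj F v₀) _ (fun x hx y hy hxy => stab_inj hx.1 hy.1 hxy) ?_
    rw [h4]
    exact hvc _ _ h1 S h2 h3
  · intro a b h g m n hab hh hinf hg
    obtain ⟨h1, S, h2, h3, h4⟩ := edge_stab hadj F hF hab
    have h5 : prj F v₀ h ∈ Est G a.1.2 b.1.2 := h3 (h4 ▸ Subgroup.mem_map_of_mem _ hh)
    refine hbal _ _ h1 (prj F v₀ h) h5 ?_ (prj F v₀ g) m n ?_
    · intro k hk hk1
      refine hinf k hk ?_
      refine stab_inj (a := a) ?_ (one_smul _ _) ?_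
      · exact (pow_mem hh k : h ^ k ∈ Est (Gf F v₀) a b).1
      · rw [map_pow, hk1, map_one]
    · have h6 := congrArg (prj F v₀) hg
      rw [map_mul, map_mul, map_inv, map_zpow, map_zpow] at h6
      exact h6
  · intro a
    refine hC.base.base.of_injective _ _ (MonoidHom.mk' (fun x : MulAction.stabilizer (Gf F v₀) a =>
      (⟨prj F v₀ x.1, ?_⟩ : MulAction.stabilizer G a.1.2)) ?_) ?_ (hst a.1.2)
    · show prj F v₀ x.1 • a.1.2 = a.1.2
      rw [← smul_end, show x.1 • a = a from x.2]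
    · intro x y
      exact Subtype.ext (map_mul _ _ _)
    · intro x y hxy
      refine Subtype.ext (stab_inj (a := a) x.2 y.2 ?_)
      exact congrArg (fun u : MulAction.stabilizer G a.1.2 => (u : G)) hxy

/-- **main theorem** -/
theorem main (hC : ClosedA C) {Q : Type} [Group Q] (ρ : G →* Q) (hQ : C Q) (hT : T.IsTree)
    (hadj : ∀ (g : G) (v w : V), T.Adj v w → T.Adj (g • v) (g • w))
    (hinv : ∀ (g : G) (v w : V), T.Adj v w → ¬ (g • v = w ∧ g • w = v))
    (hst : ∀ v : V, C (MulAction.stabilizer G v))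
    (hvc : ∀ v w : V, T.Adj v w → ∀ S : Subgroup G, S.FG → S ≤ Est G v w →
      (∃ c : Q, ∀ s ∈ S, ρ s ∈ Subgroup.zpowers c) → Vc S)
    (hbal : ∀ v w : V, T.Adj v w → ∀ h ∈ Est G v w, InfOrd h → ρ h = 1 → ∀ (g : G) (m n : ℤ),
      g * h ^ m * g⁻¹ = h ^ n → |m| = |n|) : C G := by
  have hR : C ρ.range := hC.base.base.of_injective _ _ ρ.range.subtype ρ.range.subtype_injective hQ
  refine hC.base.ext G ρ.range ρ.rangeRestrict ρ.rangeRestrict_surjective hR ?_
  rintro W ⟨c, hcW, hc⟩
  refine Q182.Cyl.fi_mem hC.base.base (K := (Subgroup.zpowers c).comap ρ.rangeRestrict) ?_ ?_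
  · rw [Subgroup.relIndex_comap,
      Subgroup.map_comap_eq_self_of_surjective ρ.rangeRestrict_surjective]
    exact hc
  · obtain ⟨K, hK⟩ : ∃ K : Subgroup G, K = (Subgroup.zpowers c).comap ρ.rangeRestrict := ⟨_, rfl⟩
    rw [← hK]
    have hKc : ∀ k ∈ K, ∃ n : ℤ, ρ k = (c : Q) ^ n := by
      intro k hk
      rw [hK] at hk
      obtain ⟨n, hn⟩ := hk
      exact ⟨n, (congrArg Subtype.val hn).symm⟩
    refine main_loc hC hT (fun g v w h => hadj g v w h) (fun g v w h => hinv g v w h) ?_ ?_ ?_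
    · intro v
      refine hC.base.base.of_injective _ _ (MonoidHom.mk' (fun x : MulAction.stabilizer K v =>
        (⟨(x.1 : G), x.2⟩ : MulAction.stabilizer G v)) (fun _ _ => rfl)) ?_ (hst v)
      intro x y hxy
      exact Subtype.ext (Subtype.ext
        (congrArg (fun u : MulAction.stabilizer G v => (u : G)) hxy))
    · intro v w hvw S hS hSE
      refine vc_of_map K.subtype S (fun x _ y _ hxy => Subtype.ext hxy) ?_
      refine hvc v w hvw _ (fg_map hS _) ?_ ⟨c, ?_⟩
      · rintro _ ⟨s, hs, rfl⟩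
        exact ⟨(hSE hs).1, (hSE hs).2⟩
      · rintro _ ⟨s, _, rfl⟩
        obtain ⟨n, hn⟩ := hKc s s.2
        exact ⟨n, hn.symm⟩
    · intro v w hvw h hh hinf g m n hg
      have hinf' : InfOrd (h : G) := by
        intro k hk hk1
        exact hinf k hk (Subtype.ext hk1)
      have hg' : (g : G) * (h : G) ^ m * (g : G)⁻¹ = (h : G) ^ n := by
        have h3 := congrArg (fun x : K => (x : G)) hg
        simpa using h3
      by_cases hρ : InfOrd (ρ (h : G))
      · obtain ⟨a, ha⟩ := hKc h h.2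
        obtain ⟨b, hb⟩ := hKc g g.2
        have h2 : ρ (h : G) ^ m = ρ (h : G) ^ n := by
          have h3 := congrArg ρ hg'
          rw [map_mul, map_mul, map_inv, map_zpow, map_zpow] at h3
          rw [← h3, ha, hb]
          have h4 : Commute ((c : Q) ^ b) (((c : Q) ^ a) ^ m) := by
            rw [← zpow_mul]
            exact (Commute.refl (c : Q)).zpow_zpow _ _
          rw [h4.eq, mul_inv_cancel_right]
        have h3 : ρ (h : G) ^ (m - n) = 1 := by
          rw [zpow_sub, h2, mul_inv_cancel]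
        have h4 := hρ.zpow h3
        have h5 : m = n := by omega
        rw [h5]
      · simp only [InfOrd, not_forall, not_not] at hρ
        obtain ⟨k, hk, hk1⟩ := hρ
        refine hbal v w hvw ((h : G) ^ k) (pow_mem (show (h : G) ∈ Est G v w from
          ⟨hh.1, hh.2⟩) k) ?_ ?_ (g : G) m n ?_
        · intro j hj hj1
          rw [← pow_mul] at hj1
          exact hinf' (k * j) (Nat.mul_pos hk hj) hj1
        · rw [map_pow, hk1]
        · have h3 := congrArg (fun x : G => x ^ k) hg'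
          have h4 : ((g : G) * (h : G) ^ m * (g : G)⁻¹) ^ k =
              (g : G) * ((h : G) ^ k) ^ m * (g : G)⁻¹ := by
            rw [conj_pow, ← zpow_natCast, ← zpow_mul, mul_comm m, zpow_mul, zpow_natCast]
          have h5 : ((h : G) ^ n) ^ k = ((h : G) ^ k) ^ n := by
            rw [← zpow_natCast, ← zpow_mul, mul_comm n, zpow_mul, zpow_natCast]
          rw [h4, h5] at h3
          exact h3

end Pool.Agent.H3.Unf
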